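import Pool.Agent.V7H12.TT.Defs

/-!
# Singular cohomology, Hodge classes and the comparison with the `ℓ`-adic cohomology: definitions
-/

set_option autoImplicit false
set_option linter.all false

namespace Pool.Agent.V7H12.TT

open Module TensorProduct
open Pool.Agent.N184.HK Pool.Agent.W401.Cheb

/-- The element `(l ⊗ 1) t` of `M`, for `t` in `ℂ ⊗ M` and a `ℚ`-linear map `l : ℂ → ℚ`. -/
noncomputable def coef {M : Type} [AddCommGroup M] [Module ℚ M] (l : ℂ →ₗ[ℚ] ℚ) (t : ℂ ⊗[ℚ] M) :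
    M :=
  TensorProduct.lid ℚ M (LinearMap.rTensor M l t)

section tcomp

variable {Ω : Type} [Field Ω] [CharZero Ω] {M N M' N' : Type} [AddCommGroup M] [Module ℚ M]
  [AddCommGroup N] [Module ℚ N] [AddCommGroup M'] [Module Ω M'] [AddCommGroup N'] [Module Ω N']

lemma semi (f : M →+ M') (r : ℚ) (x : M) : f (r • x) = (r : Ω) • f x := by
  have := map_ratCast_smul f ℚ Ω r x
  simpa using this

/-- The bilinear map `(x, y) ↦ f x ⊗ g y`. -/
noncomputable def tcompAux (f : M →+ M') (g : N →+ N') : M →+ N →+ M' ⊗[Ω] N' :=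
  AddMonoidHom.mk' (fun x => AddMonoidHom.mk' (fun y => f x ⊗ₜ[Ω] g y)
    (fun y y' => by rw [map_add, TensorProduct.tmul_add]))
    (fun x x' => by
      apply AddMonoidHom.ext
      intro y
      change f (x + x') ⊗ₜ[Ω] g y = f x ⊗ₜ[Ω] g y + f x' ⊗ₜ[Ω] g y
      rw [map_add, TensorProduct.add_tmul])

/-- The additive map `x ⊗ y ↦ f x ⊗ g y`. -/
noncomputable def tcomp (f : M →+ M') (g : N →+ N') : M ⊗[ℚ] N →+ M' ⊗[Ω] N' :=
  TensorProduct.liftAddHom (tcompAux f g) fun r x y => by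
    change f (r • x) ⊗ₜ[Ω] g y = f x ⊗ₜ[Ω] g (r • y)
    rw [semi (Ω := Ω), semi (Ω := Ω), TensorProduct.smul_tmul]

lemma tcomp_tmul (f : M →+ M') (g : N →+ N') (x : M) (y : N) :
    tcomp (Ω := Ω) f g (x ⊗ₜ y) = f x ⊗ₜ[Ω] g y := rfl

end tcomp

section

variable {Ω : Type} [Field Ω] [CharZero Ω]

/-- Additive maps between spaces over `ℚ` and `Ω`. -/
abbrev Spc.Hom (M : Spc ℚ) (N : Spc Ω) : Type := M.V →+ N.V

variable {M N : Spc ℚ} {M' N' : Spc Ω}

/-- The additive map `x ⊗ y ↦ f x ⊗ g y`. -/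
noncomputable def Spc.comp (f : Spc.Hom M M') (g : Spc.Hom N N') :
    Spc.Hom (M.tensor N) (M'.tensor N') := tcomp (Ω := Ω) f g

/-- `f` maps a basis over `ℚ` to a basis over `Ω`. -/
def Spc.HomBase (f : Spc.Hom M M') : Prop :=
  ∃ (ι : Type) (_ : Fintype ι) (b : Basis ι ℚ M.V) (b' : Basis ι Ω M'.V), ∀ j, f (b j) = b' j

/-- `f` is compatible with the bilinear forms `q` and `q'`. -/
def Spc.HomForm (f : Spc.Hom M M') (q : LinearMap.BilinForm ℚ M.V)
    (q' : LinearMap.BilinForm Ω M'.V) : Prop := ∀ x y, q' (f x) (f y) = ((q x y : ℚ) : Ω)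

/-- `f` is compatible with the endomorphisms `A` and `A'`, i.e. `A'` is the extension of `A`. -/
def Spc.HomEnd (f : Spc.Hom M M') (A : M.End) (A' : M'.End) : Prop := ∀ x, f (A x) = A' (f x)

/-- The extension of scalars of the space of endomorphisms to the complex numbers. -/
abbrev Spc.EndC (M : Spc ℚ) : Type := ℂ ⊗[ℚ] M.End

/-- The element `(l ⊗ 1) J`, for a `ℚ`-linear map `l : ℂ → ℚ`. -/
noncomputable def Spc.coefE (l : ℂ →ₗ[ℚ] ℚ) (J : M.EndC) : M.End := coef l J

end

section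

variable {d : ℕ} {c : ℚ}

/-- The comparison of the singular cohomology `B` with the `ℓ`-adic cohomology `X`: it maps a basis of
`H^i` over `ℚ` to a basis over `Ω`, and it is compatible with the forms and with the action
of `so(H²)`. -/
structure Comparison {Ω : Type} [Field Ω] [CharZero Ω] (B : Cohomology ℚ d c)
    (X : Cohomology Ω d c) where
  map : ∀ i, Spc.Hom (sp B i) (sp X i)
  base : ∀ i, Spc.HomBase (map i)
  form : Spc.HomForm (map 2) B.q X.q
  equi : ∀ i A A', Skew B.q A → Skew X.q A' → Spc.HomEnd (map 2) A A' →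
    Spc.HomEnd (map i) (B.ρ i A) (X.ρ i A')

/-- The Hodge operator `J` of the singular cohomology `B`: an element of the Lie algebra `so(H²)` over
the complex numbers, which acts by `(p - q) / 2` on the `(p, q)`-part of `H^i`, for all `i`
(Verbitsky). -/
structure HodgeOp (B : Cohomology ℚ d c) where
  J : (sp B 2).EndC
  skew : ∀ l, Skew B.q (Spc.coefE l J)

end

variable {K : Type} [Field K] [NumberField K] {Ω : Type} [Field Ω] [CharZero Ω]
  [TopologicalSpace Ω] {κ : Type} (𝒳 : HKFamily K Ω κ)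

/-- The singular cohomology `B k` of the `X k`, with rational coefficients, the comparison with the
`ℓ`-adic cohomology, and the Hodge operators. -/
structure BettiFamily where
  B : ∀ k, Cohomology ℚ (𝒳.X k).d (𝒳.X k).c
  comp : ∀ k, Comparison (B k) (𝒳.X k).E.X
  hodge : ∀ k, HodgeOp (B k)

variable {𝒳} (𝒴 : BettiFamily 𝒳)

/-- The spaces `H²(X k)`, over `ℚ`. -/
abbrev BettiFamily.two : κ → Spc ℚ := Two 𝒴.B

/-- The families of endomorphisms of the `H²`, over `ℚ`. -/
abbrev BettiFamily.E2 : Type := Ends 𝒴.two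

/-- The tensor space of the word `a`, over `ℚ`. -/
noncomputable abbrev BettiFamily.T (a : Word 𝒳.d) : Spc ℚ := tens 𝒴.B a

/-- The operator of `A` on the tensor space of the word `a`. -/
noncomputable abbrev BettiFamily.ρ (a : Word 𝒳.d) (A : 𝒴.E2) : (𝒴.T a).End :=
  rho 𝒴.B a A

/-- The coefficient of `J`, for a `ℚ`-linear map `l : ℂ → ℚ`. -/
noncomputable def BettiFamily.Jc (l : ℂ →ₗ[ℚ] ℚ) : 𝒴.E2 := fun k => Spc.coefE l (𝒴.hodge k).J

/-- `x` is a Hodge class: `J x = 0`, i.e. all coefficients of `J` kill `x`. If the weight is `2 m`, this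
means that `x` is of type `(m, m)`. -/
def IsHodge (a : Word 𝒳.d) (x : (𝒴.T a).V) : Prop := ∀ l, 𝒴.ρ a (𝒴.Jc l) x = 0

/-- The Lie algebra over `ℚ` of the Hodge group of the sum of the `H²(X k)`: the smallest Lie
algebra over `ℚ` whose extension to the complex numbers contains `J`. It is generated by the
coefficients of `J`. -/
def hodgeLie : Set 𝒴.E2 := lieClosure 𝒴.two (Set.range 𝒴.Jc)

/-- The comparison map on `H²(X k)`. -/
abbrev BettiFamily.comp2 (k : κ) : Spc.Hom (𝒴.two k) (𝒳.two k) := (𝒴.comp k).map 2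

/-- `A'` is the extension of `A` to `Ω`. -/
def Corr (A : 𝒴.E2) (A' : 𝒳.E2) : Prop := ∀ k, Spc.HomEnd (𝒴.comp2 k) (A k) (A' k)

/-- The extension to `Ω` of the Lie algebra of the Hodge group. -/
def hodgeExt : Set 𝒳.E2 := lieClosure 𝒳.two {A' | ∃ A ∈ hodgeLie 𝒴, Corr 𝒴 A A'}

/-- The Mumford-Tate conjecture for the sum of the `H²(X k)`: the Lie algebra generated by the Newton
operators is the extension to `Ω` of the Lie algebra of the Hodge group. -/
def MumfordTateTwo : Prop := newtonLie 𝒳 = hodgeExt 𝒴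

/-- `W` is a Hodge substructure of the tensor space of the word `a`: its extension to the complex
numbers is stable under `J`, i.e. `W` is stable under the coefficients of `J`. -/
def IsSubHodge (a : Word 𝒳.d) (W : (𝒴.T a).Sub) : Prop :=
  ∀ l, Spc.FixesEnd (𝒴.ρ a (𝒴.Jc l)) W

/-- The Hodge structures on the tensor spaces are semisimple (as they are polarizable). -/
def Polarizable : Prop :=
  ∀ (a : Word 𝒳.d) (W : (𝒴.T a).Sub), IsSubHodge 𝒴 a W → ∃ W', IsCompl W W' ∧ IsSubHodge 𝒴 a W'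

/-- The comparison map for the tensor space of the word `a`. -/
noncomputable def compT (a : Word 𝒳.d) : Spc.Hom (𝒴.T a) (𝒳.T a) :=
  Word.rec (motive := fun a => Spc.Hom (𝒴.T a) (𝒳.T a))
    (fun k i => (𝒴.comp k).map i) (fun _ _ f g => Spc.comp f g) a

/-- The space of the combinations of Hodge classes. -/
noncomputable def hodgeSpan (a : Word 𝒳.d) : (𝒳.T a).Sub :=
  Submodule.span Ω {z | ∃ x, IsHodge 𝒴 a x ∧ z = compT 𝒴 a x}

end Pool.Agent.V7H12.TT
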