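import Pool.Agent.N696.LI.P_NIL

/-!
# Semisimplicity and extension of scalars
-/

set_option autoImplicit false
set_option linter.all false

namespace Pool.Agent.V7H12.TT

open Module
open scoped Classical

section field

variable {k M : Type} [Field k] [AddCommGroup M] [Module k M]

/-- The subspace `W` is stable under the operators in the set `S`. -/
def Stab (S : Set (Module.End k M)) (W : Submodule k M) : Prop := ∀ s ∈ S, ∀ x ∈ W, s x ∈ W

/-- Each subspace stable under `S` has a stable complement. -/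
def SS (S : Set (Module.End k M)) : Prop := ∀ W, Stab S W → ∃ W', IsCompl W W' ∧ Stab S W'

lemma stab_adjoin {S : Set (Module.End k M)} {W : Submodule k M} (h : Stab S W) :
    ∀ s ∈ Algebra.adjoin k S, ∀ x ∈ W, s x ∈ W := by
  intro s hs
  induction hs using Algebra.adjoin_induction with
  | mem s hs => exact h s hs
  | algebraMap r => exact fun x hx => W.smul_mem r hx
  | add s t _ _ hs ht => exact fun x hx => W.add_mem (hs x hx) (ht x hx)
  | mul s t _ _ hs ht => exact fun x hx => hs _ (ht x hx)

/-- A stable subspace, as a module over the algebra generated by `S`. -/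
def toSub {S : Set (Module.End k M)} {W : Submodule k M} (h : Stab S W) :
    Submodule (Algebra.adjoin k S) M where
  carrier := W
  add_mem' := W.add_mem
  zero_mem' := W.zero_mem
  smul_mem' := fun s x hx => stab_adjoin h s.1 s.2 x hx

lemma mem_toSub {S : Set (Module.End k M)} {W : Submodule k M} (h : Stab S W) {x : M} :
    x ∈ toSub h ↔ x ∈ W := Iff.rfl

lemma isCompl_iff {S : Set (Module.End k M)} {W W' : Submodule k M} (h : Stab S W)
    (h' : Stab S W') : IsCompl (toSub h) (toSub h') ↔ IsCompl W W' := by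
  have e1 : Disjoint (toSub h) (toSub h') ↔ Disjoint W W' := by
    rw [Submodule.disjoint_def, Submodule.disjoint_def]
    rfl
  have e2 : Codisjoint (toSub h) (toSub h') ↔ Codisjoint W W' := by
    rw [codisjoint_iff, codisjoint_iff, Submodule.eq_top_iff', Submodule.eq_top_iff']
    simp only [Submodule.mem_sup, mem_toSub]
  exact ⟨fun h => ⟨e1.1 h.1, e2.1 h.2⟩, fun h => ⟨e1.2 h.1, e2.2 h.2⟩⟩

/-- A module over the algebra generated by `S`, as a stable subspace. -/
lemma exists_toSub {S : Set (Module.End k M)} (W : Submodule (Algebra.adjoin k S) M) :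
    ∃ (W₀ : Submodule k M) (h : Stab S W₀), W = toSub h := by
  refine ⟨{ carrier := W
            add_mem' := W.add_mem
            zero_mem' := W.zero_mem
            smul_mem' := fun c x hx => ?_ }, fun s hs x hx => ?_, ?_⟩
  · exact W.smul_mem (algebraMap k (Algebra.adjoin k S) c) hx
  · exact W.smul_mem (⟨s, Algebra.subset_adjoin hs⟩ : Algebra.adjoin k S) hx
  · rfl

lemma ss_iff {S : Set (Module.End k M)} : SS S ↔ IsSemisimpleModule (Algebra.adjoin k S) M := by
  constructor
  · intro h
    refine (isSemisimpleModule_iff _ _).2 ⟨fun W => ?_⟩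
    obtain ⟨W₀, h0, rfl⟩ := exists_toSub W
    obtain ⟨W', hc, h'⟩ := h W₀ h0
    exact ⟨toSub h', (isCompl_iff h0 h').2 hc⟩
  · intro h W hW
    obtain ⟨W', hc⟩ := exists_isCompl (toSub hW)
    obtain ⟨W₀, h0, rfl⟩ := exists_toSub W'
    exact ⟨W₀, (isCompl_iff hW h0).1 hc, h0⟩

variable [FiniteDimensional k M]

/-- If the trace form of the algebra is nondegenerate, then the module is semisimple. -/
lemma ss_of_nondeg {S : Set (Module.End k M)} (h : ∀ r ∈ Algebra.adjoin k S,
    (∀ s ∈ Algebra.adjoin k S, LinearMap.trace k M (s * r) = 0) → r = 0) : SS S := by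
  rw [ss_iff]
  haveI : IsArtinianRing (Algebra.adjoin k S) := IsArtinianRing.of_finite k _
  haveI : IsSemisimpleRing (Algebra.adjoin k S) := by
    rw [IsArtinianRing.isSemisimpleRing_iff_jacobson, eq_bot_iff]
    intro r hr
    have hnil := IsSemiprimaryRing.isNilpotent (R := Algebra.adjoin k S)
    obtain ⟨n, hn⟩ := hnil
    have h0 : r.1 = 0 := by
      refine h r.1 r.2 fun s hs => ?_
      have h1 : (⟨s, hs⟩ * r : Algebra.adjoin k S) ∈ Ring.jacobson (Algebra.adjoin k S) :=
        Ideal.mul_mem_left _ _ hr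
      have h2 := Ideal.pow_mem_pow h1 n
      rw [hn] at h2
      have h3 : (⟨s, hs⟩ * r : Algebra.adjoin k S) ^ n = 0 := h2
      have h4 : IsNilpotent (s * r.1) := ⟨n, congrArg Subtype.val h3⟩
      exact (LinearMap.isNilpotent_trace_of_isNilpotent h4).eq_zero
    exact Subtype.ext h0
  infer_instance

variable [CharZero k]

/-- If the module is semisimple, then the trace form of the algebra is nondegenerate. -/
lemma nondeg_of_ss {S : Set (Module.End k M)} (h : SS S) : ∀ r ∈ Algebra.adjoin k S,
    (∀ s ∈ Algebra.adjoin k S, LinearMap.trace k M (s * r) = 0) → r = 0 := by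
  rw [ss_iff] at h
  intro r hr h0
  have h1 : (⟨r, hr⟩ : Algebra.adjoin k S) ∈ Ring.jacobson (Algebra.adjoin k S) := by
    rw [← Ideal.jacobson_bot, Ideal.mem_jacobson_iff]
    intro y
    have hnil : IsNilpotent (y.1 * r) := by
      refine Pool.Agent.N696.LI.Nil.nil_of_trace _ fun n hn => ?_
      obtain ⟨m, rfl⟩ : ∃ m, n = m + 1 := ⟨n - 1, by omega⟩
      rw [pow_succ, ← mul_assoc]
      exact h0 _ (mul_mem (pow_mem (mul_mem y.2 hr) m) y.2)
    have hnil' : IsNilpotent (y * ⟨r, hr⟩ : Algebra.adjoin k S) := by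
      obtain ⟨n, hn⟩ := hnil
      exact ⟨n, Subtype.ext hn⟩
    obtain ⟨u, hu⟩ := hnil'.isUnit_add_one
    refine ⟨(↑u⁻¹ : Algebra.adjoin k S), ?_⟩
    have h2 : (↑u⁻¹ : Algebra.adjoin k S) * y * ⟨r, hr⟩ + (↑u⁻¹ : Algebra.adjoin k S) =
        (↑u⁻¹ : Algebra.adjoin k S) * (u : Algebra.adjoin k S) := by
      rw [hu, mul_add, mul_one, mul_assoc]
    rw [h2, Units.inv_mul, sub_self]
    exact Ideal.zero_mem _
  have h2 := IsSemisimpleModule.jacobson_le_annihilator (Algebra.adjoin k S) M h1
  rw [Module.mem_annihilator] at h2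
  ext x
  exact h2 x

end field

section base

variable {Ω : Type} [Field Ω] [CharZero Ω] {M N : Type} [AddCommGroup M] [Module ℚ M]
  [AddCommGroup N] [Module Ω N]

/-- **Extension of scalars of a semisimple module.** -/
theorem base_ss {ι : Type} [Fintype ι] (b : Basis ι ℚ M) (b' : Basis ι Ω N) (f : M →+ N)
    (hf : ∀ j, f (b j) = b' j) (S : Set (Module.End ℚ M × Module.End Ω N))
    (hS : ∀ R ∈ S, ∀ x, f (R.1 x) = R.2 (f x)) (hss : SS (Prod.fst '' S)) :
    SS (Prod.snd '' S) := by
  classical
  haveI : FiniteDimensional ℚ M := b.finiteDimensional_of_finite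
  haveI : FiniteDimensional Ω N := b'.finiteDimensional_of_finite
  have hsemi : ∀ (r : ℚ) (x : M), f (r • x) = (r : Ω) • f x := by
    intro r x
    have := map_ratCast_smul f ℚ Ω r x
    simpa using this
  have hfx : ∀ (x : M) (j : ι), b'.repr (f x) j = ((b.repr x j : ℚ) : Ω) := by
    intro x j
    have h1 : f x = ∑ i, ((b.repr x i : ℚ) : Ω) • b' i := by
      conv_lhs => rw [← b.sum_repr x]
      rw [map_sum]
      refine Finset.sum_congr rfl fun i _ => ?_
      rw [hsemi, hf]
    rw [h1, map_sum, Finsupp.finset_sum_apply, Finset.sum_eq_single j]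
    · rw [map_smul, Basis.repr_self, Finsupp.smul_apply, Finsupp.single_eq_same, smul_eq_mul,
        mul_one]
    · intro i _ hi
      rw [map_smul, Basis.repr_self, Finsupp.smul_apply, Finsupp.single_apply, if_neg hi,
        smul_zero]
    · intro h
      exact absurd (Finset.mem_univ j) h
  -- traces of corresponding operators
  have htr : ∀ (s : Module.End ℚ M) (s' : Module.End Ω N), (∀ x, f (s x) = s' (f x)) →
      LinearMap.trace Ω N s' = ((LinearMap.trace ℚ M s : ℚ) : Ω) := by
    intro s s' h
    rw [LinearMap.trace_eq_matrix_trace Ω b', LinearMap.trace_eq_matrix_trace ℚ b,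
      Matrix.trace, Matrix.trace, Rat.cast_sum]
    refine Finset.sum_congr rfl fun i _ => ?_
    rw [Matrix.diag_apply, Matrix.diag_apply, LinearMap.toMatrix_apply, LinearMap.toMatrix_apply,
      ← hf, ← h, hfx]
  -- uniqueness
  have huniq : ∀ (s : Module.End ℚ M) (s' s'' : Module.End Ω N), (∀ x, f (s x) = s' (f x)) →
      (∀ x, f (s x) = s'' (f x)) → s' = s'' := by
    intro s s' s'' h h'
    refine b'.ext fun j => ?_
    rw [← hf, ← h, h']
  set R := Algebra.adjoin ℚ (Prod.fst '' S) with hR
  set R' := Algebra.adjoin Ω (Prod.snd '' S) with hR'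
  have hex : ∀ s ∈ R, ∃ s' ∈ R', ∀ x, f (s x) = s' (f x) := by
    intro s hs
    induction hs using Algebra.adjoin_induction with
    | mem s hs =>
      obtain ⟨T, hT, rfl⟩ := hs
      exact ⟨T.2, Algebra.subset_adjoin ⟨T, hT, rfl⟩, hS T hT⟩
    | algebraMap r =>
      refine ⟨algebraMap Ω _ (r : Ω), R'.algebraMap_mem _, fun x => ?_⟩
      exact hsemi r x
    | add s t _ _ hs ht =>
      obtain ⟨s', hs', h1⟩ := hs
      obtain ⟨t', ht', h2⟩ := ht
      exact ⟨s' + t', add_mem hs' ht', fun x => by
        rw [LinearMap.add_apply, map_add, h1, h2, LinearMap.add_apply]⟩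
    | mul s t _ _ hs ht =>
      obtain ⟨s', hs', h1⟩ := hs
      obtain ⟨t', ht', h2⟩ := ht
      exact ⟨s' * t', mul_mem hs' ht', fun x => by
        rw [Module.End.mul_apply, Module.End.mul_apply, h1, h2]⟩
  let e := Module.finBasis ℚ R
  have hrep : ∀ (s : Module.End ℚ M) (hs : s ∈ R), s = ∑ i, (e.repr ⟨s, hs⟩ i) • (e i).1 := by
    intro s hs
    have h6 : ((∑ i, e.repr ⟨s, hs⟩ i • e i : R) : Module.End ℚ M) = s :=
      congrArg Subtype.val (e.sum_repr ⟨s, hs⟩)
    refine h6.symm.trans ?_
    rw [AddSubmonoidClass.coe_finset_sum]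
    rfl
  choose t ht htf using fun i => hex (e i).1 (e i).2
  -- the elements t span
  set T : Submodule Ω (Module.End Ω N) := Submodule.span Ω (Set.range t) with hT
  have hcomb : ∀ s ∈ R, ∀ s', (∀ x, f (s x) = s' (f x)) → s' ∈ T := by
    intro s hs s' h
    have h1 : s' = ∑ i, ((e.repr ⟨s, hs⟩ i : ℚ) : Ω) • t i := by
      refine huniq s _ _ h fun x => ?_
      rw [LinearMap.sum_apply]
      simp only [LinearMap.smul_apply, ← htf, ← hsemi, ← map_sum]
      congr 1
      have h2 := LinearMap.congr_fun (hrep s hs) x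
      rw [h2, LinearMap.sum_apply]
      rfl
    rw [h1]
    exact Submodule.sum_mem _ fun i _ => Submodule.smul_mem _ _ (Submodule.subset_span ⟨i, rfl⟩)
  have hmul : ∀ a ∈ T, ∀ c ∈ T, a * c ∈ T := by
    intro a ha c hc
    induction ha using Submodule.span_induction with
    | mem a ha =>
      obtain ⟨i, rfl⟩ := ha
      induction hc using Submodule.span_induction with
      | mem c hc =>
        obtain ⟨j, rfl⟩ := hc
        refine hcomb ((e i).1 * (e j).1) (mul_mem (e i).2 (e j).2) _ fun x => ?_
        rw [Module.End.mul_apply, Module.End.mul_apply, htf, htf]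
      | zero => rw [mul_zero]; exact T.zero_mem
      | add x y _ _ hx hy => rw [mul_add]; exact T.add_mem hx hy
      | smul r x _ hx => rw [mul_smul_comm]; exact T.smul_mem _ hx
    | zero => rw [zero_mul]; exact T.zero_mem
    | add x y _ _ hx hy => rw [add_mul]; exact T.add_mem hx hy
    | smul r x _ hx => rw [smul_mul_assoc]; exact T.smul_mem _ hx
  have hT1 : (1 : Module.End Ω N) ∈ T := hcomb 1 (one_mem _) 1 fun x => rfl
  have hRT : ∀ r ∈ R', r ∈ T := by
    intro r hr
    induction hr using Algebra.adjoin_induction with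
    | mem r hr =>
      obtain ⟨P, hP, rfl⟩ := hr
      exact hcomb P.1 (Algebra.subset_adjoin ⟨P, hP, rfl⟩) _ (hS P hP)
    | algebraMap c =>
      rw [Algebra.algebraMap_eq_smul_one]
      exact T.smul_mem _ hT1
    | add x y _ _ hx hy => exact T.add_mem hx hy
    | mul x y _ _ hx hy => exact hmul x hx y hy
  -- the Gram matrix
  let G : Matrix (Fin (finrank ℚ R)) (Fin (finrank ℚ R)) ℚ :=
    fun i j => LinearMap.trace ℚ M ((e i).1 * (e j).1)
  have hdet : G.det ≠ 0 := by
    intro hdet
    obtain ⟨v, hv, hGv⟩ := Matrix.exists_mulVec_eq_zero_iff.2 hdet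
    apply hv
    have h1 : (∑ j, v j • e j : R) = 0 := by
      apply Subtype.ext
      refine nondeg_of_ss hss _ (∑ j, v j • e j : R).2 fun s hs => ?_
      have h2 : ∀ i, LinearMap.trace ℚ M ((e i).1 * (∑ j, v j • e j : R).1) = 0 := by
        intro i
        have h3 := congrFun hGv i
        rw [Matrix.mulVec, dotProduct] at h3
        have h4 : ((∑ j, v j • e j : R) : Module.End ℚ M) = ∑ j, v j • (e j).1 := by simp
        rw [h4, Finset.mul_sum, map_sum]
        rw [Pi.zero_apply] at h3
        rw [← h3]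
        refine Finset.sum_congr rfl fun j _ => ?_
        rw [mul_smul_comm, map_smul, smul_eq_mul, mul_comm]
      rw [hrep s hs, Finset.sum_mul, map_sum]
      refine Finset.sum_eq_zero fun i _ => ?_
      rw [smul_mul_assoc, map_smul, h2, smul_zero]
    have h2 := (Fintype.linearIndependent_iff.1 e.linearIndependent) v h1
    exact funext h2
  refine ss_of_nondeg fun r hr h0 => ?_
  obtain ⟨c, hc⟩ := (Submodule.mem_span_range_iff_exists_fun Ω).1 (hRT r hr)
  have h1 : ∀ i, ∑ j, ((G i j : ℚ) : Ω) * c j = 0 := by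
    intro i
    have h2 := h0 (t i) (ht i)
    rw [← hc, Finset.mul_sum, map_sum] at h2
    rw [← h2]
    refine Finset.sum_congr rfl fun j _ => ?_
    rw [mul_smul_comm, map_smul, smul_eq_mul, mul_comm]
    congr 1
    refine (htr ((e i).1 * (e j).1) _ fun x => ?_).symm
    rw [Module.End.mul_apply, Module.End.mul_apply, htf, htf]
  have hdet' : (G.map (Rat.castHom Ω)).det ≠ 0 := by
    rw [← RingHom.mapMatrix_apply, ← RingHom.map_det]
    exact (map_ne_zero _).2 hdet
  have hc0 : c = 0 := by
    by_contra hne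
    exact hdet' (Matrix.exists_mulVec_eq_zero_iff.1 ⟨c, hne, funext fun i => h1 i⟩)
  rw [← hc, hc0]
  simp

end base

end Pool.Agent.V7H12.TT
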