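import Mathlib

/-!
# Descent of the vectors killed by rational operators, and tensor products with the complex numbers
-/

set_option autoImplicit false
set_option linter.all false

namespace Pool.Agent.V7H12.TT

open Module TensorProduct

section descent

variable {Ω : Type} [Field Ω] [CharZero Ω] {M M' : Type} [AddCommGroup M] [Module ℚ M]
  [AddCommGroup M'] [Module Ω M']

/-- Vectors killed by the extensions of rational operators are combinations of rational vectors
killed by these operators. -/
lemma descent {ι : Type} [Fintype ι] (b : Basis ι ℚ M) (b' : Basis ι Ω M') (f : M →+ M')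
    (hf : ∀ j, f (b j) = b' j) (S : Set (Module.End ℚ M × Module.End Ω M'))
    (hS : ∀ R ∈ S, ∀ x, f (R.1 x) = R.2 (f x)) {y : M'} (hy : ∀ R ∈ S, R.2 y = 0) :
    y ∈ Submodule.span Ω {z | ∃ x, (∀ R ∈ S, R.1 x = 0) ∧ z = f x} := by
  classical
  have hsemi : ∀ (r : ℚ) (x : M), f (r • x) = (r : Ω) • f x := by
    intro r x
    have := map_ratCast_smul f ℚ Ω r x
    simpa using this
  let ω := Basis.ofVectorSpace ℚ Ω
  -- the coordinates
  let c : Basis.ofVectorSpaceIndex ℚ Ω → M' →+ M := fun k =>
    AddMonoidHom.mk' (fun y => ∑ j, (ω.repr (b'.repr y j) k) • b j) (fun y y' => by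
      rw [← Finset.sum_add_distrib]
      refine Finset.sum_congr rfl fun j _ => ?_
      rw [map_add, Finsupp.add_apply, map_add, Finsupp.add_apply, add_smul])
  have hc : ∀ k y, c k y = ∑ j, (ω.repr (b'.repr y j) k) • b j := fun k y => rfl
  have hfx : ∀ (x : M) (j : ι), b'.repr (f x) j = ((b.repr x j : ℚ) : Ω) := by
    intro x j
    have h1 : f x = ∑ i, ((b.repr x i : ℚ) : Ω) • b' i := by
      conv_lhs => rw [← b.sum_repr x]
      rw [map_sum]
      refine Finset.sum_congr rfl fun i _ => ?_
      rw [hsemi, hf]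
    rw [h1, map_sum, Finsupp.finset_sum_apply, Finset.sum_eq_single j]
    · rw [map_smul, Basis.repr_self, Finsupp.smul_apply, Finsupp.single_eq_same, smul_eq_mul,
        mul_one]
    · intro i _ hi
      rw [map_smul, Basis.repr_self, Finsupp.smul_apply, Finsupp.single_apply, if_neg hi,
        smul_zero]
    · intro h
      exact absurd (Finset.mem_univ j) h
  have h0 : ∀ k (z : Ω) (x : M), c k (z • f x) = (ω.repr z k) • x := by
    intro k z x
    rw [hc]
    conv_rhs => rw [← b.sum_repr x]
    rw [Finset.smul_sum]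
    refine Finset.sum_congr rfl fun j _ => ?_
    rw [map_smul, Finsupp.smul_apply, hfx, smul_eq_mul, mul_comm, smul_smul]
    have h1 : ((b.repr x j : ℚ) : Ω) * z = (b.repr x j) • z := by
      rw [Rat.smul_def]
    rw [h1, map_smul, Finsupp.smul_apply, smul_eq_mul, mul_comm]
  have h1 : ∀ R ∈ S, ∀ k y, c k (R.2 y) = R.1 (c k y) := by
    intro R hR k y
    conv_lhs => rw [← b'.sum_repr y]
    conv_rhs => rw [← b'.sum_repr y]
    rw [map_sum, map_sum, map_sum, map_sum]
    refine Finset.sum_congr rfl fun j _ => ?_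
    rw [← hf, map_smul, ← hS R hR, h0, h0, map_smul]
  -- the finite set of indices
  let T : Finset (Basis.ofVectorSpaceIndex ℚ Ω) :=
    Finset.univ.biUnion fun j : ι => (ω.repr (b'.repr y j)).support
  have h2 : y = ∑ k ∈ T, (ω k) • f (c k y) := by
    have h3 : ∀ j, b'.repr y j = ∑ k ∈ T, ((ω.repr (b'.repr y j) k : ℚ) : Ω) * ω k := by
      intro j
      conv_lhs => rw [← ω.linearCombination_repr (b'.repr y j)]
      rw [Finsupp.linearCombination_apply, Finsupp.sum_of_support_subset _ (s := T) ?_ _ ?_]
      · refine Finset.sum_congr rfl fun k _ => ?_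
        rw [Rat.smul_def]
      · intro k hk
        exact Finset.mem_biUnion.2 ⟨j, Finset.mem_univ j, hk⟩
      · intro k _
        rw [zero_smul]
    conv_lhs => rw [← b'.sum_repr y]
    have h4 : ∀ k, f (c k y) = ∑ j, ((ω.repr (b'.repr y j) k : ℚ) : Ω) • b' j := by
      intro k
      rw [hc, map_sum]
      refine Finset.sum_congr rfl fun j _ => ?_
      rw [hsemi, hf]
    simp only [h4, Finset.smul_sum]
    rw [Finset.sum_comm]
    refine Finset.sum_congr rfl fun j _ => ?_
    conv_lhs => rw [h3 j]
    rw [Finset.sum_smul]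
    refine Finset.sum_congr rfl fun k _ => ?_
    rw [smul_smul, mul_comm]
  rw [h2]
  refine Submodule.sum_mem _ fun k _ => Submodule.smul_mem _ _ (Submodule.subset_span ?_)
  refine ⟨c k y, fun R hR => ?_, rfl⟩
  rw [← h1 R hR, hy R hR, map_zero]

end descent

end Pool.Agent.V7H12.TT
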