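import Pool.Agent.V7H12.TT.Eig
import Pool.Agent.N184.HK.W4

/-!
# Generalized Tate classes are the classes killed by the Newton operators
-/

set_option autoImplicit false
set_option linter.all false

namespace Pool.Agent.V7H12.TT

open Module Module.End TensorProduct Polynomial NumberField IsDedekindDomain
open Pool.Agent.N184.HK Pool.Agent.W401.Cheb
open scoped Classical

section cts

variable {Ω : Type} [Field Ω] [TopologicalSpace Ω] [IsTopologicalRing Ω] {Γ V : Type}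
  [TopologicalSpace Γ] [AddCommGroup V] [Module Ω V] [FiniteDimensional Ω V]

lemma cts_pow {f : Γ → Module.End Ω V} (hf : Cts f) (n : ℕ) : Cts fun σ => f σ ^ n := by
  induction n with
  | zero =>
    intro L
    simp only [pow_zero]
    exact continuous_const
  | succ n ih =>
    have h := (t_cts Ω V Γ _ _ ih hf).1
    intro L
    simp only [pow_succ]
    exact h L

lemma cts_smul {c : Γ → Ω} (hc : Continuous c) {f : Γ → Module.End Ω V} (hf : Cts f) :
    Cts fun σ => c σ • f σ := by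
  intro L
  simp only [map_smul, smul_eq_mul]
  exact hc.mul (hf L)

lemma cts_const (A : Module.End Ω V) : Cts fun _ : Γ => A := fun _ => continuous_const

lemma cts_sub {f g : Γ → Module.End Ω V} (hf : Cts f) (hg : Cts g) : Cts fun σ => f σ - g σ := by
  intro L
  simp only [map_sub]
  exact (hf L).sub (hg L)

lemma cts_sum {ι : Type} (s : Finset ι) {f : ι → Γ → Module.End Ω V} (hf : ∀ i ∈ s, Cts (f i)) :
    Cts fun σ => ∑ i ∈ s, f i σ := by
  intro L
  simp only [map_sum]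
  exact continuous_finsetSum _ fun i hi => hf i hi L

end cts

section

variable {K : Type} [Field K] [NumberField K] {Ω : Type} [Field Ω] [CharZero Ω] [IsAlgClosed Ω]
  [TopologicalSpace Ω] {κ : Type} (𝒳 : HKFamily K Ω κ)

/-- A good Frobenius element acts on a vector killed by its Newton operators by `N ^ m` times roots of
unity. -/
lemma kill_frob [Nonempty κ] {v : HeightOneSpectrum (𝓞 K)} (hv : GoodFor 𝒳 v) {σ : GK K}
    (hσ : IsFrob v σ⁻¹) (a : Word 𝒳.d) {m : ℕ}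
    (hm : a.weight = 2 * m) {x : (tens 𝒳.coh a).V}
    (hx : ∀ A, IsNewton 𝒳 A → (rho 𝒳.coh a) A x = 0) :
    ((en (𝒳.Φ σ a) ^ ex 𝒳 a -
      (((Ideal.absNorm v.asIdeal : Ω) ^ m) ^ ex 𝒳 a) • (1 : Module.End Ω (tens 𝒳.coh a).V)) ^
        (finrank Ω (tens 𝒳.coh a).V)) x = 0 := by
  obtain ⟨j⟩ : Nonempty (QQ →+* Ω) := ⟨(IsAlgClosed.lift : QQ →ₐ[ℚ] Ω).toRingHom⟩
  set φ := en (𝒳.Φ σ a) with hφ
  have hS : ∀ (w : QQ → ℚ) (h : IsVal 𝒳 v hv w),
      fop φ (WQ j w (val_mul 𝒳 h)).k x = (m : Ω) • x := by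
    intro w h
    have h1 := good_tens 𝒳 hσ j h a
    have h2 := hx _ ((newton_iff 𝒳 _).2 ⟨v, hv, σ, hσ, j, w, h, rfl⟩)
    rw [hφ, h1, LinearMap.add_apply, h2, add_zero, LinearMap.smul_apply, Module.End.one_apply, hm]
    congr 1
    push_cast
    field_simp
  rw [← pr_sum φ x, map_sum]
  refine Finset.sum_eq_zero fun e he => ?_
  have he' : e ∈ φ.charpoly.roots := by
    rw [Set.Finite.mem_toFinset] at he
    exact ne_bot_iff.1 he
  by_cases hw : ∀ (w : QQ → ℚ) (h : IsVal 𝒳 v hv w), (WQ j w (val_mul 𝒳 h)).w e = m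
  · have h1 := eig_root 𝒳 hσ j hv a hm he' hw
    have h2 := pow_gen (pr_mem φ e x) (ex 𝒳 a)
    rw [h1] at h2
    exact h2
  · push Not at hw
    obtain ⟨w, h, hι⟩ := hw
    have h1 : pr φ e x = 0 := by
      refine pr_eq_zero (hS w h) fun h3 => hι ?_
      have h2 : (((WQ j w (val_mul 𝒳 h)).w e : ℚ) : Ω) = ((m : ℚ) : Ω) := by
        rw [Rat.cast_natCast]
        exact h3
      exact Rat.cast_injective h2
    rw [h1, map_zero]

/-- A continuous function which vanishes at the good Frobenius elements vanishes. -/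
lemma dense_all [Finite κ] [T2Space Ω] {g : GK K → Ω} (hg : Continuous g)
    (h : ∀ v, GoodFor 𝒳 v → ∀ σ, IsFrob v σ⁻¹ → g σ = 0) : ∀ σ, g σ = 0 := by
  intro σ
  by_contra hne
  have h1 : IsOpen (g ⁻¹' {0}ᶜ) := isOpen_compl_singleton.preimage hg
  have hfin : (⋃ k, (𝒳.X k).bad).Finite := Set.finite_iUnion fun k => (𝒳.X k).finite
  obtain ⟨v, hv, hp, τ, hτ, hfr⟩ := t_frob K _ hfin _ h1 ⟨σ, hne⟩
  refine hτ (h v ⟨fun k hk => hv (Set.mem_iUnion.2 ⟨k, hk⟩), hp⟩ τ hfr)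

/-- Vectors killed by the Newton operators are generalized Tate classes. -/
theorem tate_of_kill [Nonempty κ] [Finite κ] [IsTopologicalRing Ω] [T2Space Ω]
    {ν : GK K → Ω} (hν : IsCyclotomic 𝒳 ν) (a : Word 𝒳.d) {m : ℕ}
    (hm : a.weight = 2 * m) {x : (tens 𝒳.coh a).V}
    (hx : ∀ A, IsNewton 𝒳 A → (rho 𝒳.coh a) A x = 0) : GenTate 𝒳 ν a m x := by
  set n := finrank Ω (tens 𝒳.coh a).V with hn
  set M := ex 𝒳 a with hM
  have hM0 : M ≠ 0 := (Nat.factorial_pos _).ne'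
  have hact := cts_act 𝒳 a
  have hνm : Continuous fun σ => ν σ ^ m := hν.cont.pow m
  -- all elements of the Galois group
  have hall : ∀ σ : GK K, ((en (𝒳.Φ σ a) ^ M -
      ((ν σ ^ m) ^ M) • (1 : Module.End Ω (tens 𝒳.coh a).V)) ^ n) x = 0 := by
    intro σ
    rw [← Module.forall_dual_apply_eq_zero_iff Ω]
    intro L
    have hc : Cts fun σ : GK K => (en (𝒳.Φ σ a) ^ M -
        ((ν σ ^ m) ^ M) • (1 : Module.End Ω (tens 𝒳.coh a).V)) ^ n :=
      cts_pow (cts_sub (cts_pow hact M) (cts_smul (hνm.pow M) (cts_const _))) n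
    have hc2 : Continuous fun σ : GK K => L (((en (𝒳.Φ σ a) ^ M -
        ((ν σ ^ m) ^ M) • (1 : Module.End Ω (tens 𝒳.coh a).V)) ^ n) x) :=
      hc (L ∘ₗ (LinearMap.applyₗ x))
    refine dense_all 𝒳 hc2 (fun v hv σ hσ => ?_) σ
    have h1 := kill_frob 𝒳 hv hσ a hm hx
    obtain ⟨k⟩ := ‹Nonempty κ›
    rw [hν.frob k v (hv.1 k) σ hσ, hM, h1, map_zero]
  -- the geometric sum
  set G : GK K → Module.End Ω (tens 𝒳.coh a).V := fun σ => ∑ i ∈ Finset.range M,
    (en (𝒳.Φ σ a)) ^ i * ((ν σ ^ m) • (1 : Module.End Ω (tens 𝒳.coh a).V)) ^ (M - 1 - i) with hG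
  have hGc : Cts G := by
    refine cts_sum _ fun i _ => ?_
    exact (t_cts Ω _ (GK K) _ _ (cts_pow hact i)
      (cts_pow (cts_smul hνm (cts_const _)) (M - 1 - i))).1
  have hdet : Continuous fun σ => LinearMap.det (G σ) := (t_cts Ω _ (GK K) _ _ hGc hGc).2
  refine ⟨{σ | LinearMap.det (G σ) ≠ 0}, isOpen_compl_singleton.preimage hdet, ?_, ?_⟩
  · change LinearMap.det (G 1) ≠ 0
    have h1 : G 1 = (M : Ω) • (1 : Module.End Ω (tens 𝒳.coh a).V) := by
      simp only [hG]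
      rw [act_one, hν.one, one_pow]
      simp only [one_smul, one_pow, mul_one]
      rw [Finset.sum_const, Finset.card_range, Nat.cast_smul_eq_nsmul]
    rw [h1, LinearMap.det_smul]
    refine mul_ne_zero (pow_ne_zero _ (by exact_mod_cast hM0)) ?_
    have : LinearMap.det (1 : Module.End Ω (tens 𝒳.coh a).V) = 1 := LinearMap.det_id
    rw [this]
    exact one_ne_zero
  · intro σ hσ
    have hσ' : LinearMap.det (G σ) ≠ 0 := hσ
    have hunit : IsUnit (G σ) := by
      rw [LinearMap.isUnit_iff_isUnit_det]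
      exact hσ'.isUnit
    set φ := en (𝒳.Φ σ a) with hφ
    set c := ν σ ^ m with hc
    have hcom : Commute φ (c • (1 : Module.End Ω (tens 𝒳.coh a).V)) :=
      (Commute.one_right _).smul_right _
    have h1 : (φ - c • 1) * G σ = φ ^ M - (c ^ M) • 1 := by
      have h2 := hcom.mul_geom_sum₂ M
      rw [_root_.smul_pow, one_pow] at h2
      exact h2
    have hc2 : Commute (φ - c • (1 : Module.End Ω (tens 𝒳.coh a).V)) (G σ) := by
      refine Commute.sum_right _ _ _ fun i _ => ?_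
      have h2 : Commute (φ - c • (1 : Module.End Ω (tens 𝒳.coh a).V)) φ :=
        (Commute.refl φ).sub_left hcom.symm
      have h3 : Commute (φ - c • (1 : Module.End Ω (tens 𝒳.coh a).V))
          (c • (1 : Module.End Ω (tens 𝒳.coh a).V)) := (Commute.one_right _).smul_right _
      exact (h2.pow_right i).mul_right (h3.pow_right _)
    have h3 := hall σ
    rw [← hφ, ← hc, ← h1, hc2.eq, hc2.symm.mul_pow, Module.End.mul_apply] at h3
    have h4 : IsUnit (G σ ^ n) := hunit.pow n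
    have h5 : ((φ - c • (1 : Module.End Ω (tens 𝒳.coh a).V)) ^ n) x = 0 := by
      obtain ⟨u, hu⟩ := h4
      have h6 := congrArg (fun y => (↑u⁻¹ : Module.End Ω (tens 𝒳.coh a).V) y) h3
      simp only [map_zero] at h6
      rw [← Module.End.mul_apply, ← hu, Units.inv_mul, Module.End.one_apply] at h6
      exact h6
    change x ∈ φ.maxGenEigenspace c
    rw [Module.End.mem_maxGenEigenspace]
    exact ⟨n, h5⟩

lemma nu_pow {ν : GK K → Ω} (hν : IsCyclotomic 𝒳 ν) (σ : GK K) (k : ℕ) :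
    ν (σ ^ k) = ν σ ^ k := by
  induction k with
  | zero => rw [pow_zero, pow_zero, hν.one]
  | succ k ih => rw [pow_succ, pow_succ, hν.mul, ih]

/-- Generalized Tate classes are killed by the Newton operators. -/
theorem kill_of_tate [Nonempty κ] {ν : GK K → Ω} (hν : IsCyclotomic 𝒳 ν) (a : Word 𝒳.d) {m : ℕ}
    (hm : a.weight = 2 * m) {x : (tens 𝒳.coh a).V} (hx : GenTate 𝒳 ν a m x) :
    ∀ A, IsNewton 𝒳 A → (rho 𝒳.coh a) A x = 0 := by
  intro A hA
  obtain ⟨v, hv, σ, hσ, j, w, h, rfl⟩ := (newton_iff 𝒳 A).1 hA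
  have hp := hv.2
  obtain ⟨O, hO, hO1, hOx⟩ := hx
  obtain ⟨U, hU⟩ := ProfiniteGrp.exist_openNormalSubgroup_sub_open_nhds_of_one hO hO1
  have hUo : IsOpen (U.toSubgroup : Set (GK K)) := U.isOpen'
  haveI : Finite (GK K ⧸ U.toSubgroup) := Subgroup.quotient_finite_of_isOpen _ hUo
  obtain ⟨k, hk0, hk⟩ : ∃ k : ℕ, k ≠ 0 ∧ σ ^ k ∈ O := by
    refine ⟨Nat.card (GK K ⧸ U.toSubgroup), Nat.card_pos.ne', hU ?_⟩
    have h1 : ((σ : GK K ⧸ U.toSubgroup)) ^ Nat.card (GK K ⧸ U.toSubgroup) = 1 :=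
      pow_card_eq_one'
    have h2 : ((σ ^ Nat.card (GK K ⧸ U.toSubgroup) : GK K) : GK K ⧸ U.toSubgroup) = 1 := h1
    exact (QuotientGroup.eq_one_iff _).1 h2
  have h1 : x ∈ (en (𝒳.Φ (σ ^ k) a)).maxGenEigenspace (ν (σ ^ k) ^ m) := hOx _ hk
  set φ := en (𝒳.Φ σ a) with hφ
  set W := WQ j w (val_mul 𝒳 h) with hW
  have hν2 : ν σ = (Ideal.absNorm v.asIdeal : Ω) := by
    obtain ⟨l⟩ := ‹Nonempty κ›
    exact hν.frob l v (hv.1 l) σ hσ
  rw [act_pow, nu_pow 𝒳 hν, hν2] at h1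
  have hp0 : (Ideal.absNorm v.asIdeal : QQ) ≠ 0 := by exact_mod_cast hp.ne_zero
  have hU1 : W.U 1 := ⟨1, one_ne_zero, map_one j⟩
  have hUp : W.U (Ideal.absNorm v.asIdeal : Ω) :=
    ⟨(Ideal.absNorm v.asIdeal : QQ), hp0, map_natCast j _⟩
  have h2 : fop φ W.k x = (m : Ω) • x := by
    refine fop_eq_of fun e he => ?_
    have he' : e ∈ φ.charpoly.roots := by
      rw [Set.Finite.mem_toFinset] at he
      exact ne_bot_iff.1 he
    by_cases hek : e ^ k = ((Ideal.absNorm v.asIdeal : Ω) ^ k) ^ m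
    · right
      have hUe : W.U e := U_tens (good_U 𝒳 hσ j h) a e he'
      have h3 := congrArg W.w hek
      rw [(W.w_pow hU1 hUe k).2, (W.w_pow hU1 (W.w_pow hU1 hUp k).1 m).2,
        (W.w_pow hU1 hUp k).2, hW, WQ_p 𝒳 j h, mul_one] at h3
      have hk' : (k : ℚ) ≠ 0 := by exact_mod_cast hk0
      have h4 : W.w e = m := by
        rw [mul_comm (m : ℚ)] at h3
        exact mul_left_cancel₀ hk' h3
      rw [Wt.k, h4, Rat.cast_natCast]
    · left
      exact pr_pow_zero h1 hek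
  have h3 := good_tens 𝒳 hσ j h a
  rw [← hφ, ← hW] at h3
  rw [h3, LinearMap.add_apply, LinearMap.smul_apply, Module.End.one_apply, hm] at h2
  have h4 : (((2 * m : ℕ) : ℚ) / 2 : ℚ) = (m : ℚ) := by
    push_cast
    field_simp
  rw [h4, Rat.cast_natCast] at h2
  exact add_eq_left.1 h2

/-- **Generalized Tate classes are the classes killed by the Lie algebra generated by the Newton
operators of the `H²`.** -/
theorem tate_iff [Nonempty κ] [Finite κ] [IsTopologicalRing Ω] [T2Space Ω]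
    {ν : GK K → Ω} (hν : IsCyclotomic 𝒳 ν) (a : Word 𝒳.d) {m : ℕ}
    (hm : a.weight = 2 * m) (x : (tens 𝒳.coh a).V) :
    GenTate 𝒳 ν a m x ↔ ∀ A ∈ newtonLie 𝒳, (rho 𝒳.coh a) A x = 0 := by
  constructor
  · intro h A hA
    exact (lie_kill 𝒳.coh (S := {A | IsNewton 𝒳 A}) (fun A hA => newton_skew 𝒳 hA) a x
      (kill_of_tate 𝒳 hν a hm h) A hA).2
  · intro h
    exact tate_of_kill 𝒳 hν a hm fun A hA => h A (subset_lie 𝒳.coh hA)

end

end Pool.Agent.V7H12.TT
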