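import Pool.Agent.V7H12.TT.BDefs
import Pool.Agent.V7H12.TT.Desc
import Pool.Agent.V7H12.TT.Tate

/-!
# Hodge classes and generalized Tate classes
-/

set_option autoImplicit false
set_option linter.all false

namespace Pool.Agent.V7H12.TT

open Module TensorProduct
open Pool.Agent.N184.HK Pool.Agent.W401.Cheb
open scoped Classical



variable {K : Type} [Field K] [NumberField K] {Ω : Type} [Field Ω] [CharZero Ω]
  [TopologicalSpace Ω] {κ : Type} {𝒳 : HKFamily K Ω κ} (𝒴 : BettiFamily 𝒳)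

/-- Hodge classes are the classes killed by the Lie algebra of the Hodge group. -/
lemma hodge_iff (a : Word 𝒳.d) (x : (tens 𝒴.B a).V) :
    IsHodge 𝒴 a x ↔ ∀ A ∈ hodgeLie 𝒴, rho 𝒴.B a A x = 0 := by
  constructor
  · intro h A hA
    refine (lie_kill 𝒴.B (S := Set.range 𝒴.Jc) ?_ a x ?_ A hA).2
    · rintro _ ⟨l, rfl⟩
      exact fun k => (𝒴.hodge k).skew l
    · rintro _ ⟨l, rfl⟩
      exact h l
  · intro h l
    exact h _ (subset_lie 𝒴.B ⟨l, rfl⟩)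

lemma hodge_skew {A : EndTwo 𝒴.B} (hA : A ∈ hodgeLie 𝒴) : SkewAll 𝒴.B A := by
  refine hA {A | SkewAll 𝒴.B A} ⟨skew_zero, fun A hA B hB => skew_add hA hB,
    fun r A hA => skew_smul r hA, fun A hA B hB => skew_bracket hA hB⟩ ?_
  rintro _ ⟨l, rfl⟩
  exact fun k => (𝒴.hodge k).skew l

/-- The extension to `Ω`. -/
lemma exists_corr (A : EndTwo 𝒴.B) : ∃ A' : EndTwo 𝒳.coh, Corr 𝒴 A A' := by
  have h : ∀ k, ∃ A' : Module.End Ω ((𝒳.coh k).H 2),
      ∀ x, (𝒴.comp k).map 2 (A k x) = A' ((𝒴.comp k).map 2 x) := by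
    intro k
    obtain ⟨ι, _, b, b', hb⟩ := (𝒴.comp k).base 2
    refine ⟨b'.constr Ω fun j => (𝒴.comp k).map 2 (A k (b j)), fun x => ?_⟩
    conv_lhs => rw [← b.sum_repr x]
    conv_rhs => rw [← b.sum_repr x]
    rw [map_sum, map_sum, map_sum, map_sum]
    refine Finset.sum_congr rfl fun j _ => ?_
    rw [map_smul, semi (Ω := Ω), semi (Ω := Ω), map_smul, hb, Basis.constr_basis]
  choose A' hA' using h
  exact ⟨A', hA'⟩

lemma corr_skew {A : EndTwo 𝒴.B} {A' : EndTwo 𝒳.coh} (h : Corr 𝒴 A A') (hA : SkewAll 𝒴.B A) :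
    SkewAll 𝒳.coh A' := by
  intro k
  obtain ⟨ι, _, b, b', hb⟩ := (𝒴.comp k).base 2
  have key : (𝒳.coh k).q ∘ₗ (A' k) + ((𝒳.coh k).q).compl₂ (A' k) = 0 := by
    refine b'.ext fun i => b'.ext fun j => ?_
    change (𝒳.coh k).q (A' k (b' i)) (b' j) + (𝒳.coh k).q (b' i) (A' k (b' j)) = 0
    rw [← hb i, ← hb j, ← h k, ← h k, (𝒴.comp k).form, (𝒴.comp k).form, ← Rat.cast_add, hA k, Rat.cast_zero]
  intro x y
  exact congrArg (fun f => f x y) key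

/-- The comparison map is equivariant. -/
lemma compT_equi {A : EndTwo 𝒴.B} {A' : EndTwo 𝒳.coh} (h : Corr 𝒴 A A') (hA : SkewAll 𝒴.B A)
    (a : Word 𝒳.d) (x : (tens 𝒴.B a).V) :
    compT 𝒴 a ((rho 𝒴.B a) A x) = (rho 𝒳.coh a) A' (compT 𝒴 a x) := by
  induction a with
  | H k i => exact (𝒴.comp k).equi i (A k) (A' k) (hA k) (corr_skew 𝒴 h hA k) (h k) x
  | tensor a b iha ihb =>
    have h1 : ∀ (x : (tens 𝒴.B a).V) (y : (tens 𝒴.B b).V),
        compT 𝒴 (.tensor a b) (tm x y) = tm (compT 𝒴 a x) (compT 𝒴 b y) := fun x y => rfl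
    refine tm_ind (P := fun x => compT 𝒴 (.tensor a b) (rho 𝒴.B (.tensor a b) A x) =
      rho 𝒳.coh (.tensor a b) A' (compT 𝒴 (.tensor a b) x)) x ?_ ?_ ?_
    · rw [map_zero, map_zero, map_zero]
    · intro x y
      rw [rho_tm, map_add, h1, h1, h1, rho_tm, iha, ihb]
    · intro x y hx hy
      rw [map_add, map_add, map_add, map_add, hx, hy]

/-- The comparison map maps a basis to a basis. -/
lemma compT_base (a : Word 𝒳.d) : ∃ (ι : Type) (_ : Fintype ι) (b : Basis ι ℚ (tens 𝒴.B a).V)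
    (b' : Basis ι Ω (tens 𝒳.coh a).V), ∀ j, compT 𝒴 a (b j) = b' j := by
  induction a with
  | H k i => exact (𝒴.comp k).base i
  | tensor a b iha ihb =>
    obtain ⟨ι, _, b1, b1', h1⟩ := iha
    obtain ⟨ι', _, b2, b2', h2⟩ := ihb
    have h3 : ∀ j, tcomp (Ω := Ω) (compT 𝒴 a) (compT 𝒴 b) ((b1.tensorProduct b2) j) =
        (b1'.tensorProduct b2') j := fun j => by
      rw [Basis.tensorProduct_apply', Basis.tensorProduct_apply', tcomp_tmul, h1, h2]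
    let e1 : Basis (ι × ι') ℚ ((tens 𝒴.B a).V ⊗[ℚ] (tens 𝒴.B b).V) := b1.tensorProduct b2
    let e2 : Basis (ι × ι') Ω ((tens 𝒳.coh a).V ⊗[Ω] (tens 𝒳.coh b).V) := b1'.tensorProduct b2'
    exact ⟨ι × ι', inferInstance, e1, e2, h3⟩

variable [IsAlgClosed Ω] [IsTopologicalRing Ω] [T2Space Ω]

/-- **The Mumford-Tate conjecture for hyperkähler varieties in all degrees**, given the one for the
second cohomology. -/
theorem tate_hodge [Nonempty κ] [Finite κ] {ν : GK K → Ω} (hν : IsCyclotomic 𝒳 ν)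
    (hMT : MumfordTateTwo 𝒴) (a : Word 𝒳.d) {m : ℕ} (hm : a.weight = 2 * m)
    (y : (tens 𝒳.coh a).V) : GenTate 𝒳 ν a m y ↔
      y ∈ Submodule.span Ω {z | ∃ x, IsHodge 𝒴 a x ∧ z = compT 𝒴 a x} := by
  rw [tate_iff 𝒳 hν a hm]
  constructor
  · intro h
    obtain ⟨ι, _, b, b', hb⟩ := compT_base 𝒴 a
    have h1 := descent b b' (compT 𝒴 a) hb
      {R | ∃ A ∈ hodgeLie 𝒴, ∃ A', Corr 𝒴 A A' ∧
        R = ((rho 𝒴.B a) A, (rho 𝒳.coh a) A')} (by
        rintro _ ⟨A, hA, A', hAA, rfl⟩ x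
        exact compT_equi 𝒴 hAA (hodge_skew 𝒴 hA) a x) (y := y) (by
        rintro _ ⟨A, hA, A', hAA, rfl⟩
        refine h A' ?_
        rw [show newtonLie 𝒳 = _ from hMT]
        exact subset_lie 𝒳.coh ⟨A, hA, hAA⟩)
    refine Submodule.span_mono ?_ h1
    rintro _ ⟨x, hx, rfl⟩
    refine ⟨x, (hodge_iff 𝒴 a x).2 fun A hA => ?_, rfl⟩
    obtain ⟨A', hAA⟩ := exists_corr 𝒴 A
    exact hx _ ⟨A, hA, A', hAA, rfl⟩
  · intro h A hA
    let P : Submodule Ω (tens 𝒳.coh a).V := LinearMap.ker ((rho 𝒳.coh a) A)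
    have hP : Submodule.span Ω {z | ∃ x, IsHodge 𝒴 a x ∧ z = compT 𝒴 a x} ≤ P := by
      rw [Submodule.span_le]
      rintro _ ⟨x, hx, rfl⟩
      change (rho 𝒳.coh a) A (compT 𝒴 a x) = 0
      rw [show newtonLie 𝒳 = _ from hMT] at hA
      refine (lie_kill 𝒳.coh (S := {A' | ∃ A ∈ hodgeLie 𝒴, Corr 𝒴 A A'}) ?_ a _ ?_ A hA).2
      · rintro A' ⟨B, hB, hBA⟩
        exact corr_skew 𝒴 hBA (hodge_skew 𝒴 hB)
      · rintro A' ⟨B, hB, hBA⟩
        rw [← compT_equi 𝒴 hBA (hodge_skew 𝒴 hB), (hodge_iff 𝒴 a x).1 hx B hB, map_zero]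
    exact hP h

end Pool.Agent.V7H12.TT
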