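import Pool.Agent.V7H12.TT.Loc
import Pool.Agent.V7H12.TT.Tate
import Pool.Agent.Y759.TS.Kol

/-!
# Generalized Tate classes are Tate classes
-/

set_option autoImplicit false
set_option linter.all false

namespace Pool.Agent.V7H12.TT

open Module Module.End TensorProduct NumberField IsDedekindDomain
open Pool.Agent.N184.HK Pool.Agent.W401.Cheb

variable {K : Type} [Field K] [NumberField K] {Ω : Type} [Field Ω] [CharZero Ω] [IsAlgClosed Ω]
  [TopologicalSpace Ω]

/-- A unipotent representation of an open subgroup which is trivial on open subgroups of the inertia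
groups above `ℓ` is trivial. -/
theorem unip_trivial {ℓ : ℕ} (hcf : ClassField K Ω ℓ) {V : Subgroup (GK K)}
    (hV : IsOpen (V : Set (GK K))) {U : Type} [AddCommGroup U] [Module Ω U]
    [FiniteDimensional Ω U] (ψ : V →* Module.End Ω U) (hψ : ∀ g, IsNilpotent (ψ g - 1))
    (hc : ∀ (L : Dual Ω U) (x : U), Continuous fun σ : V => L (ψ σ x))
    (hc2 : ∀ (L : Dual Ω U) (x : U), Continuous fun σ : V => L (ψ σ x) - L x)
    (hI : ∀ Q, Above K ℓ Q → ∃ W : Set (GK K), IsOpen W ∧ 1 ∈ W ∧ ∀ σ : V, σ.1 ∈ W → InertAt Q σ.1 → ψ σ = 1) :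
    ∀ σ, ψ σ = 1 := by
  -- vectors killed by all products of two factors
  have h2 : ∀ y : U, (∀ g h, (ψ g - 1) ((ψ h - 1) y) = 0) → ∀ g, (ψ g - 1) y = 0 := by
    intro y hy g
    rw [← Module.forall_dual_apply_eq_zero_iff Ω]
    intro L
    refine hcf V hV (fun σ => L ((ψ σ - 1) y)) ?_ ?_ ?_ g
    · simp only [LinearMap.sub_apply, Module.End.one_apply, map_sub]
      exact hc2 L y
    · intro σ τ
      have h1 : (ψ (σ * τ) - 1) y = (ψ σ - 1) y + (ψ τ - 1) y + (ψ σ - 1) ((ψ τ - 1) y) := by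
        rw [map_mul]
        simp only [LinearMap.sub_apply, Module.End.one_apply, Module.End.mul_apply, map_sub]
        abel
      rw [h1, hy σ τ, add_zero, map_add]
    · intro Q hQ
      obtain ⟨W, hW, hW1, hWσ⟩ := hI Q hQ
      refine ⟨W, hW, hW1, fun σ hσ hin => ?_⟩
      rw [hWσ σ hσ hin, sub_self, LinearMap.zero_apply, map_zero]
  have hP : ∀ n : ℕ, (∀ l : List V, l.length = n + 1 → (l.map fun g => ψ g - 1).prod = 0) →
      ∀ g, ψ g - 1 = 0 := by
    intro n
    induction n with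
    | zero =>
      intro h g
      have := h [g] rfl
      simpa using this
    | succ n ih =>
      intro h
      refine ih fun l hl => ?_
      cases l with
      | nil => simp at hl
      | cons g l =>
        have hl' : l.length = n := by simpa using hl
        rw [List.map_cons, List.prod_cons]
        ext x
        rw [Module.End.mul_apply]
        refine h2 _ (fun g' h' => ?_) g
        have h3 := h (g' :: h' :: l) (by simp [hl'])
        rw [List.map_cons, List.prod_cons, List.map_cons, List.prod_cons] at h3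
        have h4 := LinearMap.congr_fun h3 x
        rw [Module.End.mul_apply, Module.End.mul_apply] at h4
        exact h4
  intro σ
  refine sub_eq_zero.1 (hP (finrank Ω U) (fun l hl => ?_) σ)
  cases l with
  | nil => simp at hl
  | cons g l =>
    have h1 := Pool.Agent.Y759.TS.prod_zero (finrank Ω U) U ψ hψ le_rfl l (by simpa using hl)
    rw [List.map_cons, List.prod_cons, h1, mul_zero]

/-- **Generalized Tate classes are Tate classes.** -/
theorem gen_fixed [IsTopologicalRing Ω] [T2Space Ω] {ℓ : ℕ} (hcf : ClassField K Ω ℓ)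
    {T : Spc Ω} (Φ : GK K → T.Aut)
    (hmul : ∀ σ τ, en (Φ (σ * τ)) = en (Φ σ) * en (Φ τ)) (hcts : Cts fun σ => en (Φ σ))
    (ν : GK K → Ω) (hν : Continuous fun σ => (ν σ)⁻¹) (hν1 : ν 1 = 1)
    (hνm : ∀ σ τ, ν (σ * τ) = ν σ * ν τ)
    (hsen : Sen ℓ ν Φ) (m : ℕ) {x : T.V} {O : Set (GK K)} (hO : IsOpen O) (h1 : 1 ∈ O)
    (hx : ∀ σ ∈ O, x ∈ (en (Φ σ)).maxGenEigenspace (ν σ ^ m)) :
    ∃ V : Subgroup (GK K), IsOpen (V : Set (GK K)) ∧ ∀ σ ∈ V, Φ σ x = ν σ ^ m • x := by
  obtain ⟨V, hVO⟩ := ProfiniteGrp.exist_openNormalSubgroup_sub_open_nhds_of_one hO h1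
  have hV : IsOpen (V.toSubgroup : Set (GK K)) := V.isOpen'
  have hν0 : ∀ σ, ν σ ≠ 0 := by
    intro σ h
    have h2 := hνm σ σ⁻¹
    rw [mul_inv_cancel, hν1, h, zero_mul] at h2
    exact one_ne_zero h2
  let U : Submodule Ω T.V := ⨅ σ : V.toSubgroup, (en (Φ σ.1)).maxGenEigenspace (ν σ.1 ^ m)
  have hxU : x ∈ U := (Submodule.mem_iInf _).2 fun σ => hx σ.1 (hVO σ.2)
  have hUst : ∀ τ ∈ V.toSubgroup, ∀ y ∈ U, Φ τ y ∈ U := by
    intro τ hτ y hy
    refine (Submodule.mem_iInf _).2 fun σ => ?_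
    have hconj : τ⁻¹ * σ.1 * τ ∈ V.toSubgroup :=
      mul_mem (mul_mem (inv_mem hτ) σ.2) hτ
    have hy' := (Submodule.mem_iInf _).1 hy ⟨_, hconj⟩
    rw [Module.End.mem_maxGenEigenspace] at hy' ⊢
    obtain ⟨n, hn⟩ := hy'
    refine ⟨n, ?_⟩
    have hνc : ν (τ⁻¹ * σ.1 * τ) = ν σ.1 := by
      have h2 := hνm τ⁻¹ τ
      rw [inv_mul_cancel, hν1] at h2
      rw [hνm, hνm]
      linear_combination (- ν σ.1) * h2
    have hint : (en (Φ σ.1) - (ν σ.1 ^ m) • (1 : Module.End Ω T.V)) * en (Φ τ) =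
        en (Φ τ) * (en (Φ (τ⁻¹ * σ.1 * τ)) - (ν σ.1 ^ m) • 1) := by
      have h2 : en (Φ σ.1) * en (Φ τ) = en (Φ τ) * en (Φ (τ⁻¹ * σ.1 * τ)) := by
        rw [← hmul, ← hmul]
        congr 2
        group
      rw [sub_mul, mul_sub, h2, smul_mul_assoc, mul_smul_comm, one_mul, mul_one]
    have hint2 : ∀ n : ℕ, (en (Φ σ.1) - (ν σ.1 ^ m) • (1 : Module.End Ω T.V)) ^ n * en (Φ τ) =
        en (Φ τ) * (en (Φ (τ⁻¹ * σ.1 * τ)) - (ν σ.1 ^ m) • 1) ^ n := by
      intro n
      induction n with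
      | zero => rw [pow_zero, pow_zero, one_mul, mul_one]
      | succ n ih => rw [pow_succ, mul_assoc, hint, ← mul_assoc, ih, mul_assoc, ← pow_succ]
    have h3 := LinearMap.congr_fun (hint2 n) y
    rw [Module.End.mul_apply, Module.End.mul_apply] at h3
    change ((en (Φ σ.1) - (ν σ.1 ^ m) • (1 : Module.End Ω T.V)) ^ n) (en (Φ τ) y) = 0
    rw [h3]
    rw [hνc] at hn
    rw [hn, map_zero]
  let ψ : V.toSubgroup →* Module.End Ω U :=
    { toFun := fun σ => ((ν σ.1)⁻¹ ^ m) • (en (Φ σ.1)).restrict (hUst σ.1 σ.2)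
      map_one' := by
        apply LinearMap.ext
        intro y
        apply Subtype.ext
        change ((ν 1)⁻¹ ^ m) • (Φ 1 y.1) = y.1
        rw [hν1, inv_one, one_pow, one_smul]
        have h2 := LinearMap.congr_fun (hmul 1 1) y.1
        rw [one_mul] at h2
        exact ((Φ 1).injective h2).symm
      map_mul' := by
        intro σ τ
        apply LinearMap.ext
        intro y
        apply Subtype.ext
        change ((ν (σ.1 * τ.1))⁻¹ ^ m) • (Φ (σ.1 * τ.1) y.1) =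
          ((ν σ.1)⁻¹ ^ m) • Φ σ.1 (((ν τ.1)⁻¹ ^ m) • Φ τ.1 y.1)
        have h2 := LinearMap.congr_fun (hmul σ.1 τ.1) y.1
        have h3 : Φ (σ.1 * τ.1) y.1 = Φ σ.1 (Φ τ.1 y.1) := h2
        rw [h3, map_smul, smul_smul, hνm, mul_inv, mul_pow] }
  have hψ : ∀ (σ : V.toSubgroup) (y : U), (ψ σ y : T.V) = ((ν σ.1)⁻¹ ^ m) • Φ σ.1 y.1 :=
    fun _ _ => rfl
  have hnil : ∀ g, IsNilpotent (ψ g - 1) := by
    intro g
    refine ⟨finrank Ω T.V, ?_⟩
    have h2 : ∀ (n : ℕ) (y : U), (((ψ g - 1) ^ n) y : T.V) = ((ν g.1)⁻¹ ^ m) ^ n •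
        ((en (Φ g.1) - (ν g.1 ^ m) • (1 : Module.End Ω T.V)) ^ n) y.1 := by
      intro n
      induction n with
      | zero => intro y; simp
      | succ n ih =>
        intro y
        have h4 : (((ψ g - 1) y : U) : T.V) = ((ν g.1)⁻¹ ^ m) •
            ((en (Φ g.1) - (ν g.1 ^ m) • (1 : Module.End Ω T.V)) y.1) := by
          rw [LinearMap.sub_apply, Module.End.one_apply, Submodule.coe_sub, hψ,
            LinearMap.sub_apply, LinearMap.smul_apply, Module.End.one_apply, smul_sub, smul_smul,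
            inv_pow, inv_mul_cancel₀ (pow_ne_zero _ (hν0 g.1)), one_smul]
          rfl
        rw [pow_succ, Module.End.mul_apply, ih, h4, map_smul, smul_smul, ← pow_succ,
          ← Module.End.mul_apply, ← pow_succ]
    apply LinearMap.ext
    intro y
    apply Subtype.ext
    rw [h2]
    have h3 := (Submodule.mem_iInf _).1 y.2 g
    rw [maxGenEigenspace_eq_genEigenspace_finrank, Module.End.mem_genEigenspace_nat,
      LinearMap.mem_ker] at h3
    rw [h3, smul_zero]
    rfl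
  have hcont : ∀ (L : Dual Ω U) (y : U), Continuous fun σ : V.toSubgroup => L (ψ σ y) := by
    intro L y
    obtain ⟨L', hL'⟩ := LinearMap.exists_extend L
    have h2 : ∀ σ : V.toSubgroup, L (ψ σ y) = ((ν σ.1)⁻¹ ^ m) * L' (Φ σ.1 y.1) := by
      intro σ
      have h3 : L (ψ σ y) = L' (ψ σ y : T.V) := by
        rw [← hL']
        rfl
      rw [h3, hψ, map_smul, smul_eq_mul]
    simp only [h2]
    have h4 : Continuous fun σ : GK K => L' (Φ σ y.1) := hcts (L' ∘ₗ (LinearMap.applyₗ y.1))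
    exact ((hν.comp continuous_subtype_val).pow m).mul (h4.comp continuous_subtype_val)
  have hfix := unip_trivial hcf hV ψ hnil hcont (fun L y => (hcont L y).sub continuous_const) ?_
  · refine ⟨V.toSubgroup, hV, fun σ hσ => ?_⟩
    have h2 := LinearMap.congr_fun (hfix ⟨σ, hσ⟩) ⟨x, hxU⟩
    have h3 := congrArg Subtype.val h2
    rw [hψ] at h3
    change ((ν σ)⁻¹ ^ m) • Φ σ x = x at h3
    conv_rhs => rw [← h3]
    rw [smul_smul, inv_pow, mul_inv_cancel₀ (pow_ne_zero _ (hν0 σ)), one_smul]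
  · intro Q hQ
    obtain ⟨W, hW, hW1, hWσ⟩ := hsen Q hQ m V.toSubgroup hV U hUst
      (fun σ hσ y hy => (Submodule.mem_iInf _).1 hy ⟨σ, hσ⟩)
    refine ⟨W, hW, hW1, fun σ hσ hin => ?_⟩
    apply LinearMap.ext
    intro y
    apply Subtype.ext
    rw [hψ, show Φ σ.1 y.1 = _ from hWσ σ.1 hσ σ.2 hin y.1 y.2, smul_smul, inv_pow,
      inv_mul_cancel₀ (pow_ne_zero _ (hν0 σ.1)), one_smul]
    rfl

end Pool.Agent.V7H12.TT
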