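import Pool.Agent.V7H12.TT.Ratio
import Pool.Agent.V7H12.TT.Tate
import Pool.Agent.V7H12.TT.Kol

/-!
# Endomorphisms which commute with the Newton operators
-/

set_option autoImplicit false
set_option linter.all false

namespace Pool.Agent.V7H12.TT

open Module Module.End TensorProduct Polynomial NumberField IsDedekindDomain
open Pool.Agent.N184.HK Pool.Agent.W401.Cheb
open scoped Classical

section alg

variable {Ω : Type} [Field Ω] {E : Type} [AddCommGroup E] [Module Ω E]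

lemma sub_pow_zero {A B : Module.End Ω E} (h : Commute A B) {x : E} {N : ℕ}
    (hA : (A ^ N) x = 0) (hB : (B ^ N) x = 0) : ((A - B) ^ (2 * N)) x = 0 := by
  rw [sub_eq_add_neg, (h.neg_right).add_pow, LinearMap.sum_apply]
  refine Finset.sum_eq_zero fun i hi => ?_
  have hc : ((2 * N).choose i : Module.End Ω E) = (((2 * N).choose i : ℕ) : Ω) • 1 := by
    rw [Nat.cast_smul_eq_nsmul, nsmul_one]
  rw [hc, mul_smul_comm, mul_one, LinearMap.smul_apply]
  by_cases hN : N ≤ i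
  · have h1 : A ^ i * (-B) ^ (2 * N - i) = (A ^ (i - N) * (-B) ^ (2 * N - i)) * A ^ N := by
      have h2 : Commute (A ^ N) ((-B) ^ (2 * N - i)) := (h.neg_right).pow_pow _ _
      rw [mul_assoc, ← h2.eq, ← mul_assoc, ← pow_add, Nat.sub_add_cancel hN]
    rw [h1, Module.End.mul_apply, hA, map_zero, smul_zero]
  · have h3 : N ≤ 2 * N - i := by omega
    have h1 : A ^ i * (-B) ^ (2 * N - i) =
        (A ^ i * (-1) ^ (2 * N - i) * B ^ (2 * N - i - N)) * B ^ N := by
      rw [mul_assoc _ _ (B ^ N), ← pow_add, Nat.sub_add_cancel h3, neg_pow, mul_assoc]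
    rw [h1, Module.End.mul_apply, hB, map_zero, smul_zero]

lemma left_pow (A : Module.End Ω E) (n : ℕ) :
    LinearMap.mulLeft Ω A ^ n = LinearMap.mulLeft Ω (A ^ n) := by
  rw [LinearMap.pow_mulLeft]

lemma right_pow (A : Module.End Ω E) (n : ℕ) :
    LinearMap.mulRight Ω A ^ n = LinearMap.mulRight Ω (A ^ n) := by
  rw [LinearMap.pow_mulRight]

variable [IsAlgClosed Ω] [FiniteDimensional Ω E]

lemma pr_sum' (φ : Module.End Ω E) : ∑ e ∈ (fin_ne φ).toFinset, pr φ e = 1 := by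
  ext x
  rw [LinearMap.sum_apply, pr_sum]
  rfl

lemma comm_nil {φ e₀ : Module.End Ω E} {M : ℕ}
    (h : ∀ e ∈ (fin_ne φ).toFinset, ∀ f ∈ (fin_ne φ).toFinset,
      pr φ f * e₀ * pr φ e = 0 ∨ e ^ M = f ^ M) :
    ((LinearMap.mulLeft Ω (φ ^ M) - LinearMap.mulRight Ω (φ ^ M)) ^ (2 * finrank Ω E)) e₀ = 0 := by
  have h1 : e₀ = ∑ f ∈ (fin_ne φ).toFinset, ∑ e ∈ (fin_ne φ).toFinset,
      pr φ f * e₀ * pr φ e := by
    simp_rw [← Finset.mul_sum, ← Finset.sum_mul, pr_sum', one_mul, mul_one]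
  rw [h1, map_sum]
  refine Finset.sum_eq_zero fun f hf => ?_
  rw [map_sum]
  refine Finset.sum_eq_zero fun e he => ?_
  rcases h e he f hf with h2 | h2
  · rw [h2, map_zero]
  set z := pr φ f * e₀ * pr φ e with hz
  set c := f ^ M with hc
  have hL : ((LinearMap.mulLeft Ω (φ ^ M - c • (1 : Module.End Ω E))) ^ finrank Ω E) z = 0 := by
    rw [left_pow, LinearMap.mulLeft_apply, hz]
    have h3 : (φ ^ M - c • (1 : Module.End Ω E)) ^ finrank Ω E * pr φ f = 0 := by
      ext x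
      rw [Module.End.mul_apply, hc]
      exact pow_gen (pr_mem φ f x) M
    rw [← mul_assoc, ← mul_assoc, h3, zero_mul, zero_mul]
  have hR : ((LinearMap.mulRight Ω (φ ^ M - c • (1 : Module.End Ω E))) ^ finrank Ω E) z = 0 := by
    rw [right_pow, LinearMap.mulRight_apply, hz]
    have h3 : (φ ^ M - c • (1 : Module.End Ω E)) ^ finrank Ω E * pr φ e = 0 := by
      ext x
      rw [Module.End.mul_apply, ← h2]
      exact pow_gen (pr_mem φ e x) M
    have h4 : Commute ((φ ^ M - c • (1 : Module.End Ω E)) ^ finrank Ω E) (pr φ e) := by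
      have h5 : Commute (φ ^ M - c • (1 : Module.End Ω E)) φ :=
        ((Commute.refl φ).pow_left M).sub_left ((Commute.one_left _).smul_left _)
      exact pr_comm (h5.pow_left _) e
    rw [mul_assoc, ← h4.eq, h3, mul_zero]
  have hcom : Commute (LinearMap.mulLeft Ω (φ ^ M - c • (1 : Module.End Ω E)))
      (LinearMap.mulRight Ω (φ ^ M - c • (1 : Module.End Ω E))) :=
    LinearMap.commute_mulLeft_right _ _
  have h6 := sub_pow_zero hcom hL hR
  have h7 : LinearMap.mulLeft Ω (φ ^ M - c • (1 : Module.End Ω E)) -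
      LinearMap.mulRight Ω (φ ^ M - c • (1 : Module.End Ω E)) =
      LinearMap.mulLeft Ω (φ ^ M) - LinearMap.mulRight Ω (φ ^ M) := by
    ext x : 1
    simp only [LinearMap.sub_apply, LinearMap.mulLeft_apply, LinearMap.mulRight_apply]
    rw [sub_mul, mul_sub, smul_mul_assoc, mul_smul_comm, one_mul, mul_one]
    abel
  rw [h7] at h6
  exact h6

omit [IsAlgClosed Ω] [FiniteDimensional Ω E] in
lemma conj_eq (φ : E ≃ₗ[Ω] E) : en φ.conj =
    LinearMap.mulLeft Ω (en φ) * LinearMap.mulRight Ω (en φ.symm) := by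
  ext x y
  simp [LinearEquiv.conj_apply]

omit [IsAlgClosed Ω] [FiniteDimensional Ω E] in
lemma conj_nil (φ : E ≃ₗ[Ω] E) (M k : ℕ) (e₀ : Module.End Ω E)
    (h : ((LinearMap.mulLeft Ω (en φ ^ M) - LinearMap.mulRight Ω (en φ ^ M)) ^ k) e₀ = 0) :
    ((en φ.conj ^ M - 1) ^ k) e₀ = 0 := by
  have hinv : en φ * en φ.symm = 1 := by ext x; simp
  have hinv' : en φ.symm * en φ = 1 := by ext x; simp
  have hcomm : Commute (en φ) (en φ.symm) := by
    change en φ * en φ.symm = en φ.symm * en φ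
    rw [hinv, hinv']
  have h1 : en φ.conj ^ M = LinearMap.mulLeft Ω (en φ ^ M) *
      LinearMap.mulRight Ω (en φ.symm ^ M) := by
    rw [conj_eq, (LinearMap.commute_mulLeft_right _ _).mul_pow, left_pow, right_pow]
  have h2 : LinearMap.mulRight Ω (en φ ^ M) * LinearMap.mulRight Ω (en φ.symm ^ M) = 1 := by
    ext x : 1
    rw [Module.End.mul_apply, LinearMap.mulRight_apply, LinearMap.mulRight_apply, mul_assoc,
      ← hcomm.symm.mul_pow, hinv', one_pow, mul_one]
    rfl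
  have h3 : en φ.conj ^ M - 1 = (LinearMap.mulLeft Ω (en φ ^ M) -
      LinearMap.mulRight Ω (en φ ^ M)) * LinearMap.mulRight Ω (en φ.symm ^ M) := by
    rw [sub_mul, h2, h1]
  have h4 : Commute (LinearMap.mulLeft Ω (en φ ^ M) - LinearMap.mulRight Ω (en φ ^ M))
      (LinearMap.mulRight Ω (en φ.symm ^ M)) := by
    refine (LinearMap.commute_mulLeft_right _ _).sub_left ?_
    change LinearMap.mulRight Ω (en φ ^ M) * LinearMap.mulRight Ω (en φ.symm ^ M) =
      LinearMap.mulRight Ω (en φ.symm ^ M) * LinearMap.mulRight Ω (en φ ^ M)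
    rw [h2]
    ext x : 1
    rw [Module.End.mul_apply, LinearMap.mulRight_apply, LinearMap.mulRight_apply, mul_assoc,
      ← hcomm.mul_pow, hinv, one_pow, mul_one]
    rfl
  rw [h3, h4.mul_pow, (h4.pow_pow k k).eq, Module.End.mul_apply, h, map_zero]

end alg

section cts

variable {Ω : Type} [Field Ω] [TopologicalSpace Ω] [IsTopologicalRing Ω] {Γ V : Type}
  [TopologicalSpace Γ] [AddCommGroup V] [Module Ω V] [FiniteDimensional Ω V]

lemma cts_lr {f g : Γ → Module.End Ω V} (hf : Cts f) (hg : Cts g) :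
    Cts fun σ => LinearMap.mulLeft Ω (f σ) * LinearMap.mulRight Ω (g σ) := by
  intro L
  let b := Module.finBasis Ω (Module.End Ω V)
  have h : (fun σ => L (LinearMap.mulLeft Ω (f σ) * LinearMap.mulRight Ω (g σ))) =
      fun σ => ∑ i, ∑ j, (b.coord i (f σ)) * (b.coord j (g σ)) *
        L (LinearMap.mulLeft Ω (b i) * LinearMap.mulRight Ω (b j)) := by
    funext σ
    have h1 : f σ = ∑ i, b.coord i (f σ) • b i := by
      conv_lhs => rw [← b.sum_repr (f σ)]
      rfl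
    have h2 : g σ = ∑ j, b.coord j (g σ) • b j := by
      conv_lhs => rw [← b.sum_repr (g σ)]
      rfl
    have h3 : LinearMap.mulLeft Ω (f σ) * LinearMap.mulRight Ω (g σ) = ∑ i, ∑ j,
        ((b.coord i (f σ)) * (b.coord j (g σ))) •
        (LinearMap.mulLeft Ω (b i) * LinearMap.mulRight Ω (b j)) := by
      ext x : 1
      rw [Module.End.mul_apply, LinearMap.mulLeft_apply, LinearMap.mulRight_apply]
      conv_lhs => rw [h1, h2]
      simp only [LinearMap.sum_apply, LinearMap.smul_apply, Module.End.mul_apply,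
        LinearMap.mulLeft_apply, LinearMap.mulRight_apply]
      rw [Finset.sum_mul]
      refine Finset.sum_congr rfl fun i _ => ?_
      rw [Finset.mul_sum, Finset.mul_sum]
      refine Finset.sum_congr rfl fun j _ => ?_
      rw [smul_mul_assoc, mul_smul_comm, mul_smul_comm, smul_smul]
    rw [h3, map_sum]
    refine Finset.sum_congr rfl fun i _ => ?_
    rw [map_sum]
    refine Finset.sum_congr rfl fun j _ => ?_
    rw [map_smul, smul_eq_mul]
  rw [h]
  refine continuous_finsetSum _ fun i _ => continuous_finsetSum _ fun j _ => ?_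
  exact ((hf (b.coord i)).mul (hg (b.coord j))).mul continuous_const

end cts

section near

variable {K : Type} [Field K] [NumberField K] {Ω : Type} [Field Ω] [CharZero Ω]
  [TopologicalSpace Ω] [IsTopologicalRing Ω] [T2Space Ω]

/-- From a power to the operator itself, near `1`. -/
lemma near_one {T : Type} [AddCommGroup T] [Module Ω T] [FiniteDimensional Ω T]
    (Φ : GK K → T ≃ₗ[Ω] T) (hone : en (Φ 1) = 1) (hact : Cts fun σ => en (Φ σ)) (c : GK K → Ω)
    (hc : Continuous c) (hc1 : c 1 = 1) {M : ℕ} (hM0 : M ≠ 0) (n : ℕ) (x : T)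
    (hall : ∀ σ, ((en (Φ σ) ^ M - (c σ ^ M) • (1 : Module.End Ω T)) ^ n) x = 0) :
    ∃ O : Set (GK K), IsOpen O ∧ 1 ∈ O ∧ ∀ σ ∈ O,
      x ∈ (en (Φ σ)).maxGenEigenspace (c σ) := by
  set G : GK K → Module.End Ω T := fun σ => ∑ i ∈ Finset.range M,
    (en (Φ σ)) ^ i * ((c σ) • (1 : Module.End Ω T)) ^ (M - 1 - i) with hG
  have hGc : Cts G := by
    refine cts_sum _ fun i _ => ?_
    exact (t_cts Ω _ (GK K) _ _ (cts_pow hact i)
      (cts_pow (cts_smul hc (cts_const _)) (M - 1 - i))).1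
  have hdet : Continuous fun σ => LinearMap.det (G σ) := (t_cts Ω _ (GK K) _ _ hGc hGc).2
  refine ⟨{σ | LinearMap.det (G σ) ≠ 0}, isOpen_compl_singleton.preimage hdet, ?_, ?_⟩
  · change LinearMap.det (G 1) ≠ 0
    have h1 : G 1 = (M : Ω) • (1 : Module.End Ω T) := by
      simp only [hG]
      rw [hone, hc1]
      simp only [one_smul, one_pow, mul_one]
      rw [Finset.sum_const, Finset.card_range, Nat.cast_smul_eq_nsmul]
    rw [h1, LinearMap.det_smul]
    refine mul_ne_zero (pow_ne_zero _ (by exact_mod_cast hM0)) ?_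
    have : LinearMap.det (1 : Module.End Ω T) = 1 := LinearMap.det_id
    rw [this]
    exact one_ne_zero
  · intro σ hσ
    have hσ' : LinearMap.det (G σ) ≠ 0 := hσ
    have hunit : IsUnit (G σ) := by
      rw [LinearMap.isUnit_iff_isUnit_det]
      exact hσ'.isUnit
    set φ := en (Φ σ) with hφ
    set c := c σ with hc
    have hcom : Commute φ (c • (1 : Module.End Ω T)) :=
      (Commute.one_right _).smul_right _
    have h1 : (φ - c • 1) * G σ = φ ^ M - (c ^ M) • 1 := by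
      have h2 := hcom.mul_geom_sum₂ M
      rw [_root_.smul_pow, one_pow] at h2
      exact h2
    have hc2 : Commute (φ - c • (1 : Module.End Ω T)) (G σ) := by
      refine Commute.sum_right _ _ _ fun i _ => ?_
      have h2 : Commute (φ - c • (1 : Module.End Ω T)) φ :=
        (Commute.refl φ).sub_left hcom.symm
      have h3 : Commute (φ - c • (1 : Module.End Ω T))
          (c • (1 : Module.End Ω T)) := (Commute.one_right _).smul_right _
      exact (h2.pow_right i).mul_right (h3.pow_right _)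
    have h3 := hall σ
    rw [← hφ, ← hc, ← h1, hc2.eq, hc2.symm.mul_pow, Module.End.mul_apply] at h3
    have h4 : IsUnit (G σ ^ n) := hunit.pow n
    have h5 : ((φ - c • (1 : Module.End Ω T)) ^ n) x = 0 := by
      obtain ⟨u, hu⟩ := h4
      have h6 := congrArg (fun y => (↑u⁻¹ : Module.End Ω T) y) h3
      simp only [map_zero] at h6
      rw [← Module.End.mul_apply, ← hu, Units.inv_mul, Module.End.one_apply] at h6
      exact h6
    rw [Module.End.mem_maxGenEigenspace]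
    exact ⟨n, h5⟩

end near

section main

variable {K : Type} [Field K] [NumberField K] {Ω : Type} [Field Ω] [CharZero Ω] [IsAlgClosed Ω]
  [TopologicalSpace Ω] [IsTopologicalRing Ω] [T2Space Ω] {κ : Type} (𝒳 : HKFamily K Ω κ)

omit [IsAlgClosed Ω] [IsTopologicalRing Ω] [T2Space Ω] in
lemma symm_eq (σ : GK K) (a : Word 𝒳.d) : en (𝒳.Φ σ a).symm = en (𝒳.Φ σ⁻¹ a) := by
  ext x
  change (𝒳.Φ σ a).symm x = 𝒳.Φ σ⁻¹ a x
  rw [LinearEquiv.symm_apply_eq]
  have h := LinearMap.congr_fun (act_mul 𝒳 σ σ⁻¹ a) x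
  rw [mul_inv_cancel, act_one] at h
  exact h

omit [IsAlgClosed Ω] [IsTopologicalRing Ω] [T2Space Ω] in
lemma Psi_mul (σ τ : GK K) (a : Word 𝒳.d) :
    en (𝒳.Ψ (σ * τ) a) = en (𝒳.Ψ σ a) * en (𝒳.Ψ τ a) := by
  have h1 : ∀ σ, en (𝒳.Ψ σ a) = LinearMap.mulLeft Ω (en (𝒳.Φ σ a)) *
      LinearMap.mulRight Ω (en (𝒳.Φ σ⁻¹ a)) := fun σ => by
    refine (conj_eq (𝒳.Φ σ a)).trans ?_
    rw [symm_eq]
  rw [h1, h1, h1, act_mul, mul_inv_rev, act_mul]
  ext x : 1
  simp only [Module.End.mul_apply, LinearMap.mulLeft_apply, LinearMap.mulRight_apply]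
  simp only [mul_assoc]

omit [IsAlgClosed Ω] [T2Space Ω] in
lemma Psi_cts (a : Word 𝒳.d) : Cts fun σ => en (𝒳.Ψ σ a) := by
  have h1 : (fun σ => en (𝒳.Ψ σ a)) = fun σ => LinearMap.mulLeft Ω (en (𝒳.Φ σ a)) *
      LinearMap.mulRight Ω (en (𝒳.Φ σ⁻¹ a)) := by
    funext σ
    refine (conj_eq (𝒳.Φ σ a)).trans ?_
    rw [symm_eq]
  rw [h1]
  exact cts_lr (cts_act 𝒳 a) (fun L => (cts_act 𝒳 a L).comp continuous_inv)

/-- Endomorphisms which commute with the Newton operators are generalized invariants of an open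
subset. -/
theorem comm_gen [Nonempty κ] [Finite κ] (a : Word 𝒳.d) {e₀ : Module.End Ω (tens 𝒳.coh a).V}
    (h : ∀ A, IsNewton 𝒳 A → Commute ((rho 𝒳.coh a) A) e₀) :
    ∃ O : Set (GK K), IsOpen O ∧ 1 ∈ O ∧ ∀ σ ∈ O, e₀ ∈ (en (𝒳.Ψ σ a)).maxGenEigenspace 1 := by
  set n := finrank Ω (tens 𝒳.coh a).V with hn
  set M := ex2 𝒳 a with hM
  have hM0 : M ≠ 0 := (Nat.factorial_pos _).ne'
  have hgood : ∀ v, GoodFor 𝒳 v → ∀ σ, IsFrob v σ⁻¹ →
      ((en (𝒳.Ψ σ a) ^ M - 1) ^ (2 * n)) e₀ = 0 := by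
    intro v hv σ hσ
    obtain ⟨j⟩ : Nonempty (QQ →+* Ω) := ⟨(IsAlgClosed.lift : QQ →ₐ[ℚ] Ω).toRingHom⟩
    refine conj_nil _ _ _ _ (comm_nil fun e he f hf => ?_)
    have he' : e ∈ (en (𝒳.Φ σ a)).charpoly.roots := by
      rw [Set.Finite.mem_toFinset] at he
      exact ne_bot_iff.1 he
    have hf' : f ∈ (en (𝒳.Φ σ a)).charpoly.roots := by
      rw [Set.Finite.mem_toFinset] at hf
      exact ne_bot_iff.1 hf
    by_cases hw : ∀ (w : QQ → ℚ) (h : IsVal 𝒳 v hv w), (WQ j w (val_mul 𝒳 h)).w e =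
      (WQ j w (val_mul 𝒳 h)).w f
    · right
      exact ratio_root 𝒳 hσ j hv a he' hf' hw
    · left
      push Not at hw
      obtain ⟨w, hwv, hne⟩ := hw
      have h1 := good_tens 𝒳 hσ j hwv a
      have h2 := h _ ((newton_iff 𝒳 _).2 ⟨v, hv, σ, hσ, j, w, hwv, rfl⟩)
      have h3 : Commute (fop (en (𝒳.Φ σ a)) (WQ j w (val_mul 𝒳 hwv)).k) e₀ := by
        rw [h1]
        exact ((Commute.one_left _).smul_left _).add_left h2
      ext x
      rw [Module.End.mul_apply, Module.End.mul_apply, LinearMap.zero_apply]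
      refine pr_eq_zero (w := (WQ j w (val_mul 𝒳 hwv)).k)
        (c := (WQ j w (val_mul 𝒳 hwv)).k e) ?_ ?_
      · have h4 := LinearMap.congr_fun h3.eq (pr (en (𝒳.Φ σ a)) e x)
        rw [Module.End.mul_apply, Module.End.mul_apply, fop_pr, map_smul] at h4
        exact h4
      · intro h4
        exact hne (Rat.cast_injective (α := Ω) h4.symm)
  have hall : ∀ σ : GK K, ((en (𝒳.Ψ σ a) ^ M -
      ((1 : Ω) ^ M) • (1 : Module.End Ω (Module.End Ω (tens 𝒳.coh a).V))) ^ (2 * n)) e₀ = 0 := by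
    intro σ
    rw [one_pow, one_smul, ← Module.forall_dual_apply_eq_zero_iff Ω]
    intro L
    have hc : Cts fun σ : GK K => (en (𝒳.Ψ σ a) ^ M - 1) ^ (2 * n) :=
      cts_pow (cts_sub (cts_pow (Psi_cts 𝒳 a) M) (cts_const _)) _
    have hc2 : Continuous fun σ : GK K => L (((en (𝒳.Ψ σ a) ^ M - 1) ^ (2 * n)) e₀) :=
      hc (L ∘ₗ (LinearMap.applyₗ e₀))
    refine dense_all 𝒳 hc2 (fun v hv σ hσ => ?_) σ
    rw [hgood v hv σ hσ, map_zero]
  refine near_one (fun σ => 𝒳.Ψ σ a) ?_ (Psi_cts 𝒳 a) (fun _ => 1) continuous_const rfl hM0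
    (2 * n) e₀ hall
  ext x : 1
  have h1 := LinearMap.congr_fun (Psi_mul 𝒳 1 1 a) x
  rw [one_mul] at h1
  exact ((𝒳.Ψ 1 a).injective h1).symm

omit [IsAlgClosed Ω] [IsTopologicalRing Ω] [T2Space Ω] in
lemma nu_inv {ν : GK K → Ω} (hν : IsCyclotomic 𝒳 ν) : Continuous fun σ => (ν σ)⁻¹ := by
  have h : (fun σ => (ν σ)⁻¹) = fun σ => ν σ⁻¹ := by
    funext σ
    have h1 := hν.mul σ σ⁻¹
    rw [mul_inv_cancel, hν.one] at h1
    exact inv_eq_of_mul_eq_one_right h1.symm
  rw [h]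
  exact hν.cont.comp continuous_inv

/-- **Endomorphisms which commute with the Newton operators commute with an open subgroup.** -/
theorem comm_open [Nonempty κ] [Finite κ] {ℓ : ℕ} (hcf : ClassField K Ω ℓ) {ν : GK K → Ω}
    (hν : IsCyclotomic 𝒳 ν) (a : Word 𝒳.d) (hsen : Sen ℓ ν (fun σ => 𝒳.Ψ σ a))
    {e₀ : Module.End Ω (tens 𝒳.coh a).V}
    (h : ∀ A, IsNewton 𝒳 A → Commute ((rho 𝒳.coh a) A) e₀) :
    ∃ V : Subgroup (GK K), IsOpen (V : Set (GK K)) ∧ ∀ σ ∈ V, Commute (en (𝒳.Φ σ a)) e₀ := by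
  obtain ⟨O, hO, hO1, hOe⟩ := comm_gen 𝒳 a h
  obtain ⟨V, hV, hVe⟩ := gen_fixed hcf (fun σ => 𝒳.Ψ σ a) (fun σ τ => Psi_mul 𝒳 σ τ a)
    (Psi_cts 𝒳 a) ν (nu_inv 𝒳 hν) hν.one hν.mul hsen 0 hO hO1
    (fun σ hσ => by rw [pow_zero]; exact hOe σ hσ)
  refine ⟨V, hV, fun σ hσ => ?_⟩
  have h1 := hVe σ hσ
  rw [pow_zero, one_smul] at h1
  ext x
  have h2 : (𝒳.Ψ σ a) e₀ = en (𝒳.Φ σ a) * e₀ * en (𝒳.Φ σ a).symm := by
    ext y
    rfl
  have h3 := congrArg (fun f => f (𝒳.Φ σ a x)) (h2.symm.trans h1)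
  simp only [Module.End.mul_apply] at h3
  have h4 : (en (𝒳.Φ σ a).symm) (𝒳.Φ σ a x) = x := (𝒳.Φ σ a).symm_apply_apply x
  rw [h4] at h3
  exact h3

end main

end Pool.Agent.V7H12.TT
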