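import Pool.Agent.V7H12.TT.SO
import Pool.Agent.N184.HK.W3

/-!
# The slope operators of all degrees are given by the slope operator of degree two
-/

set_option autoImplicit false
set_option linter.all false

namespace Pool.Agent.V7H12.TT

open Module Module.End Pool.Agent.N184.HK
open scoped Classical

section

variable {K : Type} [Field K] [CharZero K] [IsAlgClosed K] {d : ℕ} {c : ℚ}
  {X : Cohomology K d c} {F : X.Auto} {W : Wt K}

lemma fop_basis {V : Type} [AddCommGroup V] [Module K V] [FiniteDimensional K V]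
    (φ : Module.End K V) (w : K → ℚ) :
    ∃ (ι : Type) (_ : Fintype ι) (b : Basis ι K V) (a : ι → ℚ),
      ∀ i, fop φ (fun e => ((w e : ℚ) : K)) (b i) = (a i : K) • b i := by
  classical
  have hint := internal φ
  let v : ∀ e : K, Basis (Fin (Module.finrank K (φ.maxGenEigenspace e))) K
    (φ.maxGenEigenspace e) := fun e => Module.finBasis K _
  let b := hint.collectedBasis v
  have : Finite (Σ e : K, Fin (Module.finrank K (φ.maxGenEigenspace e))) :=
    Module.Finite.finite_basis b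
  refine ⟨_, Fintype.ofFinite _, b, fun i => w i.1, fun i => ?_⟩
  exact fop_apply _ (hint.collectedBasis_mem v i)

lemma S2_eq : F.S2 W = fop (en (F.φ 2)) (fun e => ((W.w e - W.w F.μ / 2 : ℚ) : K)) := by
  have : (fun e => ((W.w e - W.w F.μ / 2 : ℚ) : K)) =
      fun e => W.k e - ((W.w F.μ / 2 : ℚ) : K) := by
    ext e; rw [Rat.cast_sub]; rfl
  rw [this, fop_sub, fop_const]
  rfl

/-- The operators `ρ i (S2)` are semisimple. -/
lemma rho_S2_semisimple (h2 : ∀ e ∈ (en (F.φ 2)).charpoly.roots, W.U e) (i : ℕ) :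
    (X.ρ i (F.S2 W)).IsSemisimple := by
  obtain ⟨ι, _, b, a, hb⟩ := fop_basis (en (F.φ 2)) (fun e => W.w e - W.w F.μ / 2)
  rw [← S2_eq] at hb
  exact rho_semisimple (X.bracket i) (fun x y => X.symm.eq x y) X.nondeg X.dim3 (skew_S2 h2) b a hb

/-- If `T` is nilpotent then it is zero. -/
theorem T_zero (h2 : ∀ e ∈ (en (F.φ 2)).charpoly.roots, W.U e) {i : ℕ}
    (hi : ∀ e ∈ (en (F.φ i)).charpoly.roots, W.U e) {κ : ℚ} (hn : IsNilpotent (F.T W i κ)) :
    F.T W i κ = 0 := by
  refine eq_zero_of_isNilpotent_isSemisimple hn ?_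
  have hc : Commute (X.ρ i (F.S2 W)) (F.T W i κ) := T_comm h2 hi κ (skew_S2 h2)
  have hc2 : Commute (fop (en (F.φ i)) (fun e => ((W.w e - κ : ℚ) : K))) (X.ρ i (F.S2 W)) := by
    have h1 : fop (en (F.φ i)) (fun e => ((W.w e - κ : ℚ) : K)) =
        X.ρ i (F.S2 W) + F.T W i κ := by
      rw [Cohomology.Auto.T]; abel
    rw [h1]
    exact (Commute.refl _).add_left hc.symm
  exact IsSemisimple.sub_of_commute hc2 (fop_semisimple _ _) (rho_S2_semisimple h2 i)

/-- The slope operator. -/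
theorem slope_eq (h2 : ∀ e ∈ (en (F.φ 2)).charpoly.roots, W.U e) {i : ℕ}
    (hi : ∀ e ∈ (en (F.φ i)).charpoly.roots, W.U e) {κ : ℚ} (hn : IsNilpotent (F.T W i κ)) :
    fop (en (F.φ i)) W.k = (κ : K) • 1 + X.ρ i (F.S2 W) := by
  rw [fop_split F W i κ, T_zero h2 hi hn, add_zero]

end

end Pool.Agent.V7H12.TT
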