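import Pool.Agent.N184.HK.W3

/-!
# Tensor products and the functional calculus
-/

set_option autoImplicit false
set_option linter.all false

namespace Pool.Agent.V7H12.TT

open Module Module.End TensorProduct Pool.Agent.N184.HK
open scoped Classical

section

variable {K V V' : Type} [Field K] [AddCommGroup V] [Module K V] [AddCommGroup V'] [Module K V']

lemma congr_apply (φ : V ≃ₗ[K] V) (ψ : V' ≃ₗ[K] V') (x : V) (y : V') :
    en (TensorProduct.congr φ ψ) (x ⊗ₜ[K] y) = (φ x) ⊗ₜ (ψ y) := by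
  simp [en]

lemma tensor_gen_aux {φ : V ≃ₗ[K] V} {ψ : V' ≃ₗ[K] V'} {e f : K} (n : ℕ) :
    ∀ (k m : ℕ) (x : V) (y : V'), k + m ≤ n → (((en φ) - e • 1) ^ k) x = 0 →
    (((en ψ) - f • 1) ^ m) y = 0 →
    (((en (TensorProduct.congr φ ψ)) - (e * f) • 1) ^ n) (x ⊗ₜ[K] y) = 0 := by
  induction n with
  | zero =>
    intro k m x y hkm hx hy
    have hk : k = 0 := by omega
    subst hk
    change x = 0 at hx
    rw [hx, TensorProduct.zero_tmul]; simp
  | succ n ih =>
    intro k m x y hkm hx hy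
    rcases k with _ | k
    · change x = 0 at hx
      rw [hx, TensorProduct.zero_tmul]; simp
    rcases m with _ | m
    · change y = 0 at hy
      rw [hy, TensorProduct.tmul_zero]; simp
    rw [_root_.pow_succ, Module.End.mul_apply]
    have h1 : ((en (TensorProduct.congr φ ψ)) - (e * f) • 1) (x ⊗ₜ[K] y) =
        (((en φ) - e • 1) x) ⊗ₜ[K] (ψ y) + e • (x ⊗ₜ[K] (((en ψ) - f • 1) y)) := by
      have h2 : ((en (TensorProduct.congr φ ψ)) - (e * f) • 1) (x ⊗ₜ[K] y) =
          (φ x) ⊗ₜ (ψ y) - (e * f) • (x ⊗ₜ[K] y) := by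
        rw [LinearMap.sub_apply, congr_apply]; rfl
      have h3 : ((en φ) - e • 1) x = φ x - e • x := rfl
      have h4 : ((en ψ) - f • 1) y = ψ y - f • y := rfl
      rw [h2, h3, h4, TensorProduct.sub_tmul, TensorProduct.tmul_sub, TensorProduct.tmul_smul,
        TensorProduct.smul_tmul', smul_sub, smul_smul, TensorProduct.smul_tmul']
      simp only [TensorProduct.smul_tmul', TensorProduct.smul_tmul]
      abel
    rw [h1, map_add, map_smul]
    have h5 := ih k (m + 1) (((en φ) - e • 1) x) (ψ y) (by omega)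
      (by rw [← Module.End.mul_apply, ← _root_.pow_succ]; exact hx)
      (by
        have hc : Commute (((en ψ) - f • 1) ^ (m + 1)) (en ψ) := by
          refine Commute.pow_left ?_ _
          exact (Commute.refl (en ψ)).sub_left ((Commute.one_left _).smul_left f)
        have := congrArg (fun g : Module.End K V' => g y) hc.eq
        change (((en ψ) - f • 1) ^ (m + 1)) (ψ y) = ψ ((((en ψ) - f • 1) ^ (m + 1)) y) at this
        rw [this, hy, map_zero])
    have h6 := ih (k + 1) m x (((en ψ) - f • 1) y) (by omega) hx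
      (by rw [← Module.End.mul_apply, ← _root_.pow_succ]; exact hy)
    rw [h5, h6, smul_zero, add_zero]

lemma tensor_gen {φ : V ≃ₗ[K] V} {ψ : V' ≃ₗ[K] V'} {e f : K} {x : V} {y : V'}
    (hx : x ∈ (en φ).maxGenEigenspace e) (hy : y ∈ (en ψ).maxGenEigenspace f) :
    x ⊗ₜ[K] y ∈ (en (TensorProduct.congr φ ψ)).maxGenEigenspace (e * f) := by
  rw [Module.End.mem_maxGenEigenspace] at hx hy ⊢
  obtain ⟨k, hk⟩ := hx
  obtain ⟨m, hm⟩ := hy
  exact ⟨k + m, tensor_gen_aux (k + m) k m x y le_rfl hk hm⟩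

variable [IsAlgClosed K] [FiniteDimensional K V] [FiniteDimensional K V']

lemma ext_tensor (φ : Module.End K V) (ψ : Module.End K V') {M : Type} [AddCommGroup M]
    [Module K M] {S T : V ⊗[K] V' →ₗ[K] M}
    (h : ∀ e f, ∀ x ∈ φ.maxGenEigenspace e, ∀ y ∈ ψ.maxGenEigenspace f,
      S (x ⊗ₜ y) = T (x ⊗ₜ y)) : S = T := by
  refine TensorProduct.ext ?_
  refine ext_gen φ fun e x hx => ?_
  refine ext_gen ψ fun f y hy => ?_
  exact h e f x hx y hy

/-- The eigenvalues of a tensor product are products of eigenvalues. -/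
lemma tensor_root {φ : V ≃ₗ[K] V} {ψ : V' ≃ₗ[K] V'} {g : K}
    (hg : g ∈ (en (TensorProduct.congr φ ψ)).charpoly.roots) :
    ∃ e ∈ (en φ).charpoly.roots, ∃ f ∈ (en ψ).charpoly.roots, g = e * f := by
  by_contra hcon
  push Not at hcon
  have h1 : fop (en (TensorProduct.congr φ ψ)) (fun t => if t = g then 1 else 0) = 0 := by
    refine ext_tensor (en φ) (en ψ) fun e f x hx y hy => ?_
    rw [LinearMap.zero_apply, fop_apply _ (tensor_gen hx hy)]
    by_cases hx0 : x = 0
    · rw [hx0, TensorProduct.zero_tmul, smul_zero]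
    by_cases hy0 : y = 0
    · rw [hy0, TensorProduct.tmul_zero, smul_zero]
    have he : e ∈ (en φ).charpoly.roots := ne_bot_iff.1 fun h => hx0 (by
      rw [h, Submodule.mem_bot] at hx; exact hx)
    have hf : f ∈ (en ψ).charpoly.roots := ne_bot_iff.1 fun h => hy0 (by
      rw [h, Submodule.mem_bot] at hy; exact hy)
    rw [if_neg (fun h => hcon e he f hf h.symm), zero_smul]
  have h2 := ne_bot_iff.2 hg
  apply h2
  rw [eq_bot_iff]
  intro z hz
  have h3 := fop_apply (fun t : K => if t = g then (1 : K) else 0) hz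
  rw [h1, LinearMap.zero_apply, if_pos rfl, one_smul] at h3
  rw [← h3]
  exact Submodule.zero_mem _

/-- The weight operator of a tensor product. -/
lemma tensor_fop [CharZero K] {φ : V ≃ₗ[K] V} {ψ : V' ≃ₗ[K] V'} (W : Wt K)
    (h1 : ∀ e ∈ (en φ).charpoly.roots, W.U e) (h2 : ∀ e ∈ (en ψ).charpoly.roots, W.U e) :
    fop (en (TensorProduct.congr φ ψ)) W.k =
      LinearMap.rTensor V' (fop (en φ) W.k) + LinearMap.lTensor V (fop (en ψ) W.k) := by
  refine ext_tensor (en φ) (en ψ) fun e f x hx y hy => ?_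
  rw [fop_apply _ (tensor_gen hx hy), LinearMap.add_apply, LinearMap.rTensor_tmul,
    LinearMap.lTensor_tmul, fop_apply _ hx, fop_apply _ hy, TensorProduct.tmul_smul,
    ← TensorProduct.smul_tmul', ← add_smul]
  by_cases hx0 : x = 0
  · rw [hx0, TensorProduct.zero_tmul, smul_zero, smul_zero]
  by_cases hy0 : y = 0
  · rw [hy0, TensorProduct.tmul_zero, smul_zero, smul_zero]
  have he : e ∈ (en φ).charpoly.roots := ne_bot_iff.1 fun h => hx0 (by
    rw [h, Submodule.mem_bot] at hx; exact hx)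
  have hf : f ∈ (en ψ).charpoly.roots := ne_bot_iff.1 fun h => hy0 (by
    rw [h, Submodule.mem_bot] at hy; exact hy)
  congr 1
  rw [Wt.k, Wt.k, Wt.k, W.w_mul _ _ (h1 e he) (h2 f hf), Rat.cast_add]

end

end Pool.Agent.V7H12.TT
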