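import Pool.Agent.V7H12.TT.Defs
import Pool.Agent.V7H12.TT.Tens
import Pool.Agent.V7H12.TT.T

/-!
# The slope operators of tensor products
-/

set_option autoImplicit false
set_option linter.all false

namespace Pool.Agent.V7H12.TT

open Module Module.End TensorProduct Polynomial NumberField IsDedekindDomain
open Pool.Agent.N184.HK Pool.Agent.W401.Cheb
open scoped Classical

section

variable {K : Type} [Field K] {κ : Type} {d : κ → ℕ} {c : κ → ℚ}
  (X : ∀ k, Cohomology K (d k) (c k))

variable {X} in
/-- The tensor `x ⊗ y`. -/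
noncomputable def tm {a b : Word d} (x : (tens X a).V) (y : (tens X b).V) : (tens X (.tensor a b)).V :=
  (x ⊗ₜ[K] y : (tens X a).V ⊗[K] (tens X b).V)

section tm

variable {X} {a b : Word d}

lemma tens_ext {M : Type} [AddCommGroup M] [Module K M]
    {f g : (tens X (.tensor a b)).V →ₗ[K] M} (h : ∀ x y, f (tm x y) = g (tm x y)) : f = g :=
  TensorProduct.ext' h

lemma tm_add (x : (tens X a).V) (y y' : (tens X b).V) : tm x (y + y') = tm x y + tm x y' :=
  TensorProduct.tmul_add _ _ _

lemma add_tm (x x' : (tens X a).V) (y : (tens X b).V) : tm (x + x') y = tm x y + tm x' y :=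
  TensorProduct.add_tmul _ _ _

lemma tm_sub (x : (tens X a).V) (y y' : (tens X b).V) : tm x (y - y') = tm x y - tm x y' :=
  TensorProduct.tmul_sub _ _ _

lemma sub_tm (x x' : (tens X a).V) (y : (tens X b).V) : tm (x - x') y = tm x y - tm x' y :=
  TensorProduct.sub_tmul _ _ _

lemma tm_smul (r : K) (x : (tens X a).V) (y : (tens X b).V) : tm x (r • y) = r • tm x y :=
  (TensorProduct.mk K (tens X a).V (tens X b).V x).map_smul r y

lemma smul_tm (r : K) (x : (tens X a).V) (y : (tens X b).V) : tm (r • x) y = r • tm x y :=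
  rfl

lemma tm_ind {P : (tens X (.tensor a b)).V → Prop} (z : (tens X (.tensor a b)).V) (h0 : P 0)
    (h1 : ∀ x y, P (tm x y)) (h2 : ∀ z z', P z → P z' → P (z + z')) : P z :=
  TensorProduct.induction_on z h0 h1 h2

end tm

lemma rho_tm {a b : Word d} (A : EndTwo X) (x : (tens X a).V) (y : (tens X b).V) :
    rho X (.tensor a b) A (tm x y) = tm (rho X a A x) y + tm x (rho X b A y) := by
  change (LinearMap.rTensor (tens X b).V (rho X a A) +
    LinearMap.lTensor (tens X a).V (rho X b A))
      (x ⊗ₜ[K] y : (tens X a).V ⊗[K] (tens X b).V) = _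
  rw [LinearMap.add_apply, LinearMap.rTensor_tmul, LinearMap.lTensor_tmul]
  rfl

lemma rho_zero (a : Word d) : rho X a (fun _ => 0) = 0 := by
  induction a with
  | H k i => exact map_zero ((X k).ρ i)
  | tensor a b iha ihb =>
    refine tens_ext fun x y => ?_
    rw [rho_tm, iha, ihb, LinearMap.zero_apply, LinearMap.zero_apply, LinearMap.zero_apply]
    change (0 : (tens X a).V) ⊗ₜ[K] y + x ⊗ₜ[K] (0 : (tens X b).V) = 0
    rw [TensorProduct.zero_tmul, TensorProduct.tmul_zero, add_zero]

lemma rho_add (a : Word d) (A B : EndTwo X) :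
    rho X a (fun k => A k + B k) = rho X a A + rho X a B := by
  induction a with
  | H k i => exact map_add ((X k).ρ i) (A k) (B k)
  | tensor a b iha ihb =>
    refine tens_ext fun x y => ?_
    rw [LinearMap.add_apply, rho_tm, rho_tm, rho_tm, iha, ihb, LinearMap.add_apply,
      LinearMap.add_apply, add_tm, tm_add]
    abel

lemma rho_smul (a : Word d) (r : K) (A : EndTwo X) :
    rho X a (fun k => r • A k) = r • rho X a A := by
  induction a with
  | H k i => exact map_smul ((X k).ρ i) r (A k)
  | tensor a b iha ihb =>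
    refine tens_ext fun x y => ?_
    rw [LinearMap.smul_apply, rho_tm, rho_tm, iha, ihb, LinearMap.smul_apply,
      LinearMap.smul_apply, smul_tm, tm_smul, smul_add]

section skew

variable {X}

lemma skew_zero : SkewAll X fun _ => 0 := fun k u v => by
  change (X k).q 0 v + (X k).q u 0 = 0
  rw [map_zero, map_zero, LinearMap.zero_apply, add_zero]

lemma skew_add {A B : EndTwo X} (hA : SkewAll X A) (hB : SkewAll X B) :
    SkewAll X fun k => A k + B k := by
  intro k u v
  change (X k).q (A k u + B k u) v + (X k).q u (A k v + B k v) = 0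
  rw [map_add, map_add, LinearMap.add_apply]
  have h1 := hA k u v
  have h2 := hB k u v
  linear_combination h1 + h2

lemma skew_smul (r : K) {A : EndTwo X} (hA : SkewAll X A) : SkewAll X fun k => r • A k := by
  intro k u v
  change (X k).q (r • A k u) v + (X k).q u (r • A k v) = 0
  rw [map_smul, map_smul, LinearMap.smul_apply, smul_eq_mul, smul_eq_mul, ← mul_add, hA k u v,
    mul_zero]

lemma skew_bracket {A B : EndTwo X} (hA : SkewAll X A) (hB : SkewAll X B) :
    SkewAll X fun k => A k * B k - B k * A k := by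
  intro k u v
  change (X k).q (A k (B k u) - B k (A k u)) v + (X k).q u (A k (B k v) - B k (A k v)) = 0
  rw [map_sub, map_sub, LinearMap.sub_apply]
  have h1 := hA k (B k u) v
  have h2 := hB k (A k u) v
  have h3 := hA k u (B k v)
  have h4 := hB k u (A k v)
  linear_combination h1 - h2 + h3 - h4

end skew

lemma tens_bracket (a : Word d) {A B : EndTwo X} (hA : SkewAll X A)
    (hB : SkewAll X B) : rho X a (fun k => A k * B k - B k * A k) =
      (rho X a) A * (rho X a) B - (rho X a) B * (rho X a) A := by
  induction a with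
  | H k i => exact (X k).bracket i (A k) (B k) (hA k) (hB k)
  | tensor a b iha ihb =>
    refine tens_ext fun x y => ?_
    rw [LinearMap.sub_apply, Module.End.mul_apply, Module.End.mul_apply, rho_tm, rho_tm, rho_tm,
      map_add, map_add, rho_tm, rho_tm, rho_tm,
      rho_tm, iha, ihb, LinearMap.sub_apply, LinearMap.sub_apply, Module.End.mul_apply,
      Module.End.mul_apply, Module.End.mul_apply, Module.End.mul_apply, sub_tm,
      tm_sub]
    abel

variable {X}

variable [IsAlgClosed K] [CharZero K]

/-- The family of the centred weight operators. -/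
noncomputable def S2all (F : ∀ k, (X k).Auto) (W : Wt K) : EndTwo X := fun k => (F k).S2 W

/-- All eigenvalues have a weight. -/
def HasU (F : ∀ k, (X k).Auto) (W : Wt K) : Prop :=
  ∀ k, ∀ i ≤ d k, ∀ e ∈ (en ((F k).φ i)).charpoly.roots, W.U e

lemma U_tens {F : ∀ k, (X k).Auto} {W : Wt K} (hU : HasU F W)
    (a : Word d) : ∀ e ∈ (en (act F a)).charpoly.roots, W.U e := by
  induction a with
  | H k i => exact hU k i (Nat.lt_succ_iff.1 i.2)
  | tensor a b iha ihb =>
    intro g hg
    obtain ⟨e, he, f, hf, rfl⟩ := tensor_root (φ := act F a) (ψ := act F b) hg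
    exact W.mul _ _ (iha e he) (ihb f hf)

lemma S_tens {F : ∀ k, (X k).Auto} {W : Wt K} (hU : HasU F W)
    (hS : ∀ k, ∀ i ≤ d k, fop (en ((F k).φ i)) W.k =
      ((i / 2 : ℚ) : K) • 1 + (X k).ρ i ((F k).S2 W))
    (a : Word d) : fop (en (act F a)) W.k =
      ((a.weight / 2 : ℚ) : K) • 1 + (rho X a) (S2all F W) := by
  induction a with
  | H k i => exact hS k i (Nat.lt_succ_iff.1 i.2)
  | tensor a b iha ihb =>
    have h1 := tensor_fop (φ := act F a) (ψ := act F b) W (U_tens hU a) (U_tens hU b)
    have h1' : ∀ (x : (tens X a).V) (y : (tens X b).V),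
        fop (en (act F (.tensor a b))) W.k (tm x y) =
          tm (fop (en (act F a)) W.k x) y + tm x (fop (en (act F b)) W.k y) := fun x y =>
      congrArg (fun f => f (x ⊗ₜ[K] y)) h1
    refine tens_ext fun x y => ?_
    rw [h1', iha, ihb, LinearMap.add_apply, LinearMap.add_apply, LinearMap.add_apply,
      LinearMap.smul_apply, LinearMap.smul_apply, LinearMap.smul_apply, Module.End.one_apply,
      Module.End.one_apply, Module.End.one_apply, rho_tm, add_tm, tm_add, smul_tm, tm_smul]
    have h3 : (Word.tensor a b).weight = a.weight + b.weight := rfl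
    rw [h3]
    have h2 : ((((a.weight + b.weight : ℕ) : ℚ) / 2 : ℚ) : K) =
        ((a.weight / 2 : ℚ) : K) + ((b.weight / 2 : ℚ) : K) := by
      rw [← Rat.cast_add]
      congr 1
      push_cast
      ring
    rw [h2, add_smul]
    abel

end

end Pool.Agent.V7H12.TT
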