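import Pool.Agent.N184.HK.WDefs
import Pool.Agent.N184.HK.W2

/-!
# Tensor spaces of the cohomology of hyperkähler varieties: definitions
-/

set_option autoImplicit false
set_option linter.all false

namespace Pool.Agent.V7H12.TT

open Module TensorProduct Polynomial NumberField IsDedekindDomain
open Pool.Agent.N184.HK Pool.Agent.W401.Cheb

/-- Tensor words: tensor products (with brackets) of the cohomology spaces `H^i(X k)`, `i ≤ d k`. -/
inductive Word {κ : Type} (d : κ → ℕ) : Type
  | H : (k : κ) → Fin (d k + 1) → Word d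
  | tensor : Word d → Word d → Word d

/-- The weight of a tensor word: the sum of the degrees. -/
def Word.weight {κ : Type} {d : κ → ℕ} : Word d → ℕ
  | .H _ i => i
  | .tensor a b => a.weight + b.weight

/-- A finite dimensional vector space. -/
structure Spc (K : Type) [Field K] where
  V : Type
  [grp : AddCommGroup V]
  [mod : Module K V]
  [fin : FiniteDimensional K V]

attribute [instance] Spc.grp Spc.mod Spc.fin

section

variable {K : Type} [Field K] (M N : Spc K)

/-- Endomorphisms. -/
abbrev Spc.End : Type := Module.End K M.V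

/-- Automorphisms. -/
abbrev Spc.Aut : Type := M.V ≃ₗ[K] M.V

/-- Subspaces. -/
abbrev Spc.Sub : Type := Submodule K M.V

/-- The tensor product. -/
noncomputable def Spc.tensor : Spc K where
  V := M.V ⊗[K] N.V

variable {M N}

/-- The operator `S ⊗ 1`. -/
noncomputable def Spc.left (S : M.End) : (M.tensor N).End := LinearMap.rTensor N.V S

/-- The operator `1 ⊗ T`. -/
noncomputable def Spc.right (T : N.End) : (M.tensor N).End := LinearMap.lTensor M.V T

/-- The operator `S ⊗ 1 + 1 ⊗ T`. -/
noncomputable def Spc.plus (S : M.End) (T : N.End) : (M.tensor N).End :=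
  Spc.left S + Spc.right T

/-- The tensor product of automorphisms. -/
noncomputable def Spc.times (f : M.Aut) (g : N.Aut) : (M.tensor N).Aut := TensorProduct.congr f g

/-- `x` is in the generalized eigenspace of `f` for the eigenvalue `c`. -/
def Spc.Gen (f : M.Aut) (c : K) (x : M.V) : Prop := x ∈ (en f).maxGenEigenspace c

/-- `f` multiplies `x` by `c`. -/
def Spc.Scal (f : M.Aut) (c : K) (x : M.V) : Prop := f x = c • x

/-- `W` is stable under `f`. -/
def Spc.Fixes (f : M.Aut) (W : M.Sub) : Prop := ∀ x ∈ W, f x ∈ W

/-- `W` is stable under `A`. -/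
def Spc.FixesEnd (A : M.End) (W : M.Sub) : Prop := ∀ x ∈ W, A x ∈ W

/-- `A` acts as `c` on the generalized eigenspace of `f` for the eigenvalue `e`. -/
def Spc.ActsBy (f A : M.End) (e c : K) : Prop := ∀ x ∈ f.maxGenEigenspace e, A x = c • x

end

section

variable {K : Type} [Field K] {κ : Type} (M : κ → Spc K)

/-- Families of endomorphisms. -/
abbrev Ends : Type := ∀ k, (M k).End

/-- A set of families of endomorphisms is a Lie algebra: a linear subspace closed under commutators. -/
structure IsLie (P : Set (Ends M)) : Prop where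
  zero : (fun _ => 0) ∈ P
  add : ∀ A ∈ P, ∀ B ∈ P, (fun k => A k + B k) ∈ P
  smul : ∀ r : K, ∀ A ∈ P, (fun k => r • A k) ∈ P
  bracket : ∀ A ∈ P, ∀ B ∈ P, (fun k => A k * B k - B k * A k) ∈ P

/-- The Lie algebra generated by the set `S`: the smallest Lie algebra which contains `S`. -/
def lieClosure (S : Set (Ends M)) : Set (Ends M) := {A | ∀ P, IsLie M P → S ⊆ P → A ∈ P}

end

/-- The space `H^i(X)`. -/
abbrev sp {K : Type} [Field K] {d : ℕ} {c : ℚ} (X : Cohomology K d c) (i : ℕ) : Spc K :=
  { V := X.H i }

section

variable {K : Type} [Field K] {κ : Type} {d : κ → ℕ} {c : κ → ℚ}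
  (X : ∀ k, Cohomology K (d k) (c k))

/-- The spaces `H²(X k)`. -/
abbrev Two : κ → Spc K := fun k => sp (X k) 2

/-- The families of endomorphisms of the spaces `H²(X k)`. -/
abbrev EndTwo : Type := Ends (Two X)

/-- The family `A` is in the Lie algebra which is the product of the `so(H²(X k))`. -/
def SkewAll (A : EndTwo X) : Prop := ∀ k, Skew (X k).q (A k)

/-- The tensor product of the `H^i(X k)` given by the word `a`. -/
noncomputable def tens : Word d → Spc K :=
  Word.rec (fun k i => sp (X k) i) (fun _ _ M N => M.tensor N)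

/-- The action of the product of the Lie algebras `so(H²(X k))` on the tensor space of the
word `a`. -/
noncomputable def rho (a : Word d) (A : EndTwo X) : (tens X a).End :=
  Word.rec (motive := fun a => (tens X a).End)
    (fun k i => (X k).ρ i (A k)) (fun _ _ S T => Spc.plus S T) a

/-- The action of graded automorphisms of the cohomology of the `X k` on the tensor space of the word
`a`. -/
noncomputable def act {X : ∀ k, Cohomology K (d k) (c k)} (F : ∀ k, (X k).Auto) (a : Word d) :
    (tens X a).Aut :=
  Word.rec (motive := fun a => (tens X a).Aut)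
    (fun k i => (F k).φ i) (fun _ _ f g => Spc.times f g) a

end

section

variable {d d' : ℕ} {c c' : ℚ} {p p' : ℕ}

/-- The field `C` of the crystalline cohomology `P`, with its valuation, embeds in the field of
`P'`. -/
def SameField (P : CrysPlace d c p) (P' : CrysPlace d' c' p') : Prop :=
  ∃ e : P.C →+* P'.C, ∀ x, P'.val (e x) = P.val x

/-- `w` is the restriction of the `p`-adic valuation to the field of algebraic numbers, for an
embedding of this field in `C`. -/
def IsValAt (P : CrysPlace d c p) (w : AlgebraicClosure ℚ → ℚ) : Prop :=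
  ∃ ι : AlgebraicClosure ℚ →+* P.C, ∀ y, w y = (P.val (ι y)).untopD 0

end

/-- A family of projective hyperkähler varieties `X k` over the number field `K`. For every place
`v` the algebraic closures `C` of the `p`-adic numbers, with their valuations, which are used for
the crystalline cohomology of the `X k`, embed in each other. -/
structure HKFamily (K : Type) [Field K] [NumberField K] (Ω : Type) [Field Ω]
    [TopologicalSpace Ω] (κ : Type) where
  X : κ → HKVariety K Ω
  same : ∀ k l v hk hl hp, SameField ((X k).crys v hk hp) ((X l).crys v hl hp)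

section

variable {K : Type} [Field K] [NumberField K] {Ω : Type} [Field Ω] [CharZero Ω]
  [TopologicalSpace Ω] {κ : Type} (𝒳 : HKFamily K Ω κ)

/-- The dimensions. -/
abbrev HKFamily.d : κ → ℕ := fun k => (𝒳.X k).d

/-- The `ℓ`-adic cohomology. -/
abbrev HKFamily.coh : ∀ k, Cohomology Ω ((𝒳.X k).d) ((𝒳.X k).c) := fun k => (𝒳.X k).E.X

/-- The tensor space of the word `a`. -/
noncomputable abbrev HKFamily.T (a : Word 𝒳.d) : Spc Ω := tens 𝒳.coh a

/-- The spaces `H²(X k)`. -/
abbrev HKFamily.two : κ → Spc Ω := Two 𝒳.coh

/-- The families of endomorphisms of the `H²`. -/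
abbrev HKFamily.E2 : Type := Ends 𝒳.two

/-- The action of `σ` on `H²(X k)`. -/
abbrev HKFamily.Φ2 (σ : GK K) (k : κ) : (𝒳.two k).End := (𝒳.X k).E.Φ σ 2

/-- The operator of `A` on the tensor space of the word `a`. -/
noncomputable abbrev HKFamily.ρ (a : Word 𝒳.d) (A : 𝒳.E2) : (𝒳.T a).End :=
  rho 𝒳.coh a A

/-- The action of `σ` on the tensor space of the word `a`. -/
noncomputable def HKFamily.Φ (σ : GK K) (a : Word 𝒳.d) : (𝒳.T a).Aut :=
  act (X := 𝒳.coh) (fun k => (𝒳.X k).E.F σ) a

/-- `ν` is the inverse of the cyclotomic character: it is continuous and multiplicative, and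
`ν σ = N v` for the geometric Frobenius elements `σ` of the places `v` where one of the `X k` has good
reduction. -/
structure IsCyclotomic (ν : GK K → Ω) : Prop where
  cont : Continuous ν
  one : ν 1 = 1
  mul : ∀ σ τ, ν (σ * τ) = ν σ * ν τ
  frob : ∀ k v, v ∉ (𝒳.X k).bad → ∀ σ, IsFrob v σ⁻¹ → ν σ = (Ideal.absNorm v.asIdeal : Ω)

/-- `x` is a generalized Tate class in the tensor space of the word `a`, of weight `2 m`: there is an
open neighbourhood `O` of `1` in the Galois group such that, for all `σ` in `O`, the vector `x` is in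
the generalized eigenspace of `σ` for the eigenvalue `ν σ ^ m`. (If the Galois representation is
semisimple, this means that an open subgroup acts on `x` by `ν ^ m`.) -/
def GenTate (ν : GK K → Ω) (a : Word 𝒳.d) (m : ℕ) (x : (𝒳.T a).V) : Prop :=
  ∃ O : Set (GK K), IsOpen O ∧ 1 ∈ O ∧ ∀ σ ∈ O, Spc.Gen (𝒳.Φ σ a) (ν σ ^ m) x

/-- The place `v` has degree one and all `X k` have good reduction there. -/
def GoodFor (v : HeightOneSpectrum (𝓞 K)) : Prop :=
  (∀ k, v ∉ (𝒳.X k).bad) ∧ (Ideal.absNorm v.asIdeal).Prime

/-- `w` is a `p`-adic valuation of the field of algebraic numbers, for the place `v`: it is induced by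
embeddings in the fields `C`. -/
def IsVal (v : HeightOneSpectrum (𝓞 K)) (hv : GoodFor 𝒳 v) (w : AlgebraicClosure ℚ → ℚ) : Prop :=
  ∀ k, IsValAt ((𝒳.X k).crys v (hv.1 k) hv.2) w

/-- The Newton operators of the `H²(X k)`: for a place `v` of degree one where all `X k` have good
reduction, a geometric Frobenius element `σ` of `v`, an embedding `j` of the field of algebraic
numbers in `Ω` and a `p`-adic valuation `w` of this field, the operators which act on the generalized
eigenspace of `σ` on `H²(X k)` for the eigenvalue `j y` by the number `w y - 1`. -/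
def IsNewton (A : 𝒳.E2) : Prop :=
  ∃ (v : HeightOneSpectrum (𝓞 K)) (hv : GoodFor 𝒳 v) (σ : GK K) (_ : IsFrob v σ⁻¹)
    (j : AlgebraicClosure ℚ →+* Ω) (w : AlgebraicClosure ℚ → ℚ) (_ : IsVal 𝒳 v hv w),
    ∀ k y, Spc.ActsBy (𝒳.Φ2 σ k) (A k) (j y) ((w y - 1 : ℚ) : Ω)

/-- The Lie algebra generated by the Newton operators. -/
def newtonLie : Set 𝒳.E2 := lieClosure 𝒳.two {A | IsNewton 𝒳 A}

end

end Pool.Agent.V7H12.TT
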