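import Pool.Agent.V7H12.TT.Gal

/-!
# Frobenius eigenvalues on tensor spaces
-/

set_option autoImplicit false
set_option linter.all false

namespace Pool.Agent.V7H12.TT

open Module Module.End TensorProduct Polynomial NumberField IsDedekindDomain
open Pool.Agent.N184.HK Pool.Agent.W401.Cheb
open scoped Classical

section proj

variable {K H : Type} [Field K] [IsAlgClosed K] [AddCommGroup H] [Module K H]
  [FiniteDimensional K H]

/-- The projection to the generalized eigenspace for `e`. -/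
noncomputable def pr (φ : Module.End K H) (e : K) : Module.End K H :=
  fop φ (fun t => if t = e then 1 else 0)

lemma pr_sum (φ : Module.End K H) (x : H) :
    ∑ e ∈ (fin_ne φ).toFinset, pr φ e x = x := by
  have h : (∑ e ∈ (fin_ne φ).toFinset, pr φ e) = (1 : Module.End K H) := by
    refine ext_gen φ fun e x hx => ?_
    rw [LinearMap.sum_apply, Module.End.one_apply]
    by_cases hx0 : x = 0
    · rw [hx0]; simp
    have he : e ∈ (fin_ne φ).toFinset := by
      rw [Set.Finite.mem_toFinset]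
      intro h0
      have hx' : x ∈ (⊥ : Submodule K H) := h0 ▸ hx
      exact hx0 ((Submodule.mem_bot K).1 hx')
    rw [Finset.sum_eq_single e]
    · rw [pr, fop_apply _ hx, if_pos rfl, one_smul]
    · intro f _ hf
      rw [pr, fop_apply _ hx, if_neg (Ne.symm hf), zero_smul]
    · intro h1
      exact absurd he h1
  have := LinearMap.congr_fun h x
  rwa [LinearMap.sum_apply, Module.End.one_apply] at this

lemma pr_mem (φ : Module.End K H) (e : K) (x : H) : pr φ e x ∈ φ.maxGenEigenspace e := by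
  have h : LinearMap.range (pr φ e) ≤ φ.maxGenEigenspace e := by
    have h1 : (φ.maxGenEigenspace e).mkQ ∘ₗ pr φ e = 0 := by
      refine ext_gen φ fun f y hy => ?_
      rw [LinearMap.comp_apply, pr, fop_apply _ hy, LinearMap.zero_apply]
      by_cases hf : f = e
      · subst hf
        rw [if_pos rfl, one_smul]
        simpa using hy
      · rw [if_neg hf, zero_smul, map_zero]
    rintro _ ⟨y, rfl⟩
    have h2 := LinearMap.congr_fun h1 y
    simpa using h2
  exact h ⟨x, rfl⟩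

lemma fop_pr (φ : Module.End K H) (w : K → K) (e : K) (x : H) :
    fop φ w (pr φ e x) = w e • pr φ e x := fop_apply w (pr_mem φ e x)

lemma pr_comm {φ T : Module.End K H} (hT : Commute T φ) (e : K) : Commute T (pr φ e) :=
  fop_comm hT _

/-- `x` is an eigenvector of the functional calculus operator if it has only components with this
value. -/
lemma fop_eq_of {φ : Module.End K H} {w : K → K} {c : K} {x : H}
    (h : ∀ e ∈ (fin_ne φ).toFinset, pr φ e x = 0 ∨ w e = c) : fop φ w x = c • x := by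
  conv_lhs => rw [← pr_sum φ x]
  conv_rhs => rw [← pr_sum φ x]
  rw [map_sum, Finset.smul_sum]
  refine Finset.sum_congr rfl fun e he => ?_
  rw [fop_pr]
  rcases h e he with h1 | h1
  · rw [h1, smul_zero, smul_zero]
  · rw [h1]

lemma pr_eq_zero {φ : Module.End K H} {w : K → K} {c : K} {x : H} (h : fop φ w x = c • x) {e : K}
    (he : w e ≠ c) : pr φ e x = 0 := by
  have h1 : Commute (fop φ w) (pr φ e) := by
    refine pr_comm ?_ e
    exact (fop_comm (Commute.refl φ) w).symm
  have h2 := LinearMap.congr_fun h1.eq x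
  rw [Module.End.mul_apply, Module.End.mul_apply, fop_pr, h, map_smul] at h2
  have h3 : (w e - c) • pr φ e x = 0 := by rw [sub_smul, h2, sub_self]
  exact (smul_eq_zero.1 h3).resolve_left (sub_ne_zero.2 he)

omit [IsAlgClosed K] in
lemma pow_gen {φ : Module.End K H} {e : K} {x : H} (hx : x ∈ φ.maxGenEigenspace e) (k : ℕ) :
    ((φ ^ k - e ^ k • (1 : Module.End K H)) ^ (finrank K H)) x = 0 := by
  rw [maxGenEigenspace_eq_genEigenspace_finrank, Module.End.mem_genEigenspace_nat,
    LinearMap.mem_ker] at hx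
  have hc : Commute φ (e • (1 : Module.End K H)) := (Commute.one_right _).smul_right _
  have h1 := hc.mul_geom_sum₂ k
  rw [_root_.smul_pow, one_pow] at h1
  have hc2 : Commute (φ - e • (1 : Module.End K H))
      (∑ i ∈ Finset.range k, φ ^ i * (e • (1 : Module.End K H)) ^ (k - 1 - i)) := by
    refine Commute.sum_right _ _ _ fun i _ => ?_
    have h2 : Commute (φ - e • (1 : Module.End K H)) φ :=
      (Commute.refl φ).sub_left hc.symm
    have h3 : Commute (φ - e • (1 : Module.End K H)) (e • (1 : Module.End K H)) :=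
      (Commute.one_right _).smul_right _
    exact (h2.pow_right i).mul_right (h3.pow_right _)
  rw [← h1, hc2.eq, hc2.symm.mul_pow, Module.End.mul_apply, hx, map_zero]

lemma pow_gen' {φ : Module.End K H} {e : K} {x : H} (hx : x ∈ φ.maxGenEigenspace e) (k : ℕ) :
    x ∈ (φ ^ k).maxGenEigenspace (e ^ k) := by
  rw [Module.End.mem_maxGenEigenspace]
  exact ⟨_, pow_gen hx k⟩

/-- A generalized eigenvector of a power. -/
lemma pr_pow_zero {φ : Module.End K H} {k : ℕ} {c : K} {x : H}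
    (hx : x ∈ (φ ^ k).maxGenEigenspace c) {e : K} (he : e ^ k ≠ c) : pr φ e x = 0 := by
  have h1 : pr φ e x ∈ (φ ^ k).maxGenEigenspace (e ^ k) := pow_gen' (pr_mem φ e x) k
  have h2 : pr φ e x ∈ (φ ^ k).maxGenEigenspace c := by
    have hc : Commute (φ ^ k) (pr φ e) := pr_comm ((Commute.refl φ).pow_left k) e
    exact (φ ^ k).mapsTo_maxGenEigenspace_of_comm hc c hx
  have h3 := Module.End.disjoint_genEigenspace (φ ^ k) he ⊤ ⊤
  exact (Submodule.disjoint_def.1 h3) _ h1 h2

end proj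

section alg

/-- Algebraic integers whose conjugates have absolute value `p ^ (w / 2)`, of degree at most `B`. -/
def AlgP (p w B : ℕ) (y : QQ) : Prop :=
  (∀ τ : QQ →+* ℂ, ‖τ y‖ ^ 2 = (p : ℝ) ^ w) ∧ IsIntegral ℤ y ∧
    ∃ E : IntermediateField ℚ QQ, FiniteDimensional ℚ E ∧ finrank ℚ E ≤ B ∧ y ∈ E

lemma AlgP.mul {p w w' B B' : ℕ} {y y' : QQ} (h : AlgP p w B y) (h' : AlgP p w' B' y') :
    AlgP p (w + w') (B * B') (y * y') := by
  obtain ⟨h1, h2, E, h3, h4, h5⟩ := h
  obtain ⟨h1', h2', E', h3', h4', h5'⟩ := h'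
  refine ⟨fun τ => ?_, h2.mul h2', E ⊔ E', inferInstance, ?_, ?_⟩
  · rw [map_mul, norm_mul, mul_pow, h1, h1', pow_add]
  · exact (IntermediateField.finrank_sup_le _ _).trans (Nat.mul_le_mul h4 h4')
  · exact mul_mem (SetLike.le_def.mp le_sup_left h5) (SetLike.le_def.mp le_sup_right h5')

variable {K : Type} [Field K] [NumberField K] {Ω : Type} [Field Ω] [CharZero Ω] [IsAlgClosed Ω]
  [TopologicalSpace Ω] (X : HKVariety K Ω)
  {v : HeightOneSpectrum (𝓞 K)} (hv : v ∉ X.bad) (hp : (Ideal.absNorm v.asIdeal).Prime)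
  {σ : GK K} (hσ : IsFrob v σ⁻¹) (j : QQ →+* Ω)

include hv hσ in
lemma alg_letter {i : ℕ} (hi : i ≤ X.d) : ∀ e ∈ (en ((X.E.F σ).φ i)).charpoly.roots,
    ∃ y : QQ, y ≠ 0 ∧ j y = e ∧ AlgP (Ideal.absNorm v.asIdeal) i (finrank Ω (X.E.X.H i)) y := by
  intro e he
  have he0 := root_ne he
  rw [roots_frob X hv hσ j hi] at he
  obtain ⟨y, hy, rfl⟩ := Multiset.mem_map.1 he
  have hmon := (X.weilPoly v hv i hi).1
  have hroots := (X.weilPoly v hv i hi).2
  refine ⟨y, fun h => he0 (by rw [h, map_zero]), rfl, fun τ => ?_, ?_, ?_⟩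
  · exact hroots _ (P_ARITH.root_map hmon τ hy)
  · have h := hy
    rw [mem_roots (hmon.map _).ne_zero, IsRoot.def, eval_map] at h
    exact ⟨X.poly v i, hmon, h⟩
  · obtain ⟨E, hE1, hE2, hE3⟩ := P_ARITH.exists_field hmon {y} (by
      intro z hz
      rw [Multiset.mem_singleton] at hz
      rw [hz]
      exact hy)
    rw [Multiset.card_singleton, pow_one] at hE2
    rw [Multiset.prod_singleton] at hE3
    have hdeg : (X.poly v i).natDegree = finrank Ω (X.E.X.H i) := by
      have h6 := LinearMap.charpoly_natDegree (en ((X.E.F σ).φ i))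
      have h7 := X.frob v hv σ hσ i hi
      rw [GaloisCohomology.cp, GaloisCohomology.Φ] at h7
      rw [h7, natDegree_map_eq_of_injective (RingHom.injective_int _)] at h6
      exact h6
    exact ⟨E, hE1, hdeg ▸ hE2, hE3⟩

end alg

section tens

variable {K : Type} [Field K] [NumberField K] {Ω : Type} [Field Ω] [CharZero Ω] [IsAlgClosed Ω]
  [TopologicalSpace Ω] {κ : Type} (𝒳 : HKFamily K Ω κ)
  {v : HeightOneSpectrum (𝓞 K)} {σ : GK K} (hσ : IsFrob v σ⁻¹) (j : QQ →+* Ω)

include hσ in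
lemma alg_tens (hv : GoodFor 𝒳 v) (a : Word 𝒳.d) : ∀ e ∈ (en (𝒳.Φ σ a)).charpoly.roots,
    ∃ y : QQ, y ≠ 0 ∧ j y = e ∧
      AlgP (Ideal.absNorm v.asIdeal) a.weight (finrank Ω (tens 𝒳.coh a).V) y := by
  induction a with
  | H k i => exact alg_letter (𝒳.X k) (hv.1 k) hσ j (Nat.lt_succ_iff.1 i.2)
  | tensor a b iha ihb =>
    intro g hg
    obtain ⟨e, he, f, hf, rfl⟩ := tensor_root (φ := 𝒳.Φ σ a) (ψ := 𝒳.Φ σ b) hg
    obtain ⟨y, hy0, hy1, hy2⟩ := iha e he
    obtain ⟨z, hz0, hz1, hz2⟩ := ihb f hf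
    refine ⟨y * z, mul_ne_zero hy0 hz0, by rw [map_mul, hy1, hz1], ?_⟩
    have h := hy2.mul hz2
    have h2 : finrank Ω (tens 𝒳.coh (.tensor a b)).V =
        finrank Ω (tens 𝒳.coh a).V * finrank Ω (tens 𝒳.coh b).V :=
      Module.finrank_tensorProduct
    rw [h2]
    exact h

/-- The exponent. -/
noncomputable def ex (a : Word 𝒳.d) : ℕ := (2 * finrank Ω (tens 𝒳.coh a).V).factorial

include hσ in
/-- An eigenvalue with trivial valuations. -/
lemma eig_root [Nonempty κ] (hv : GoodFor 𝒳 v) (a : Word 𝒳.d) {m : ℕ} (hm : a.weight = 2 * m)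
    {e : Ω} (he : e ∈ (en (𝒳.Φ σ a)).charpoly.roots)
    (hw : ∀ (w : QQ → ℚ) (h : IsVal 𝒳 v hv w), (WQ j w (val_mul 𝒳 h)).w e = m) :
    e ^ ex 𝒳 a = ((Ideal.absNorm v.asIdeal : Ω) ^ m) ^ ex 𝒳 a := by
  have hp := hv.2
  obtain ⟨y, hy0, rfl, h1, h2, E, h3, h4, h5⟩ := alg_tens 𝒳 hσ j hv a e he
  obtain ⟨k⟩ := ‹Nonempty κ›
  have hp0 : (Ideal.absNorm v.asIdeal : QQ) ≠ 0 := by exact_mod_cast hp.ne_zero
  have hpR : (0 : ℝ) < Ideal.absNorm v.asIdeal := by exact_mod_cast hp.pos
  have hval : 0 < ((𝒳.X k).crys v (hv.1 k) hp).val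
      ((Ideal.absNorm v.asIdeal : ℕ) : ((𝒳.X k).crys v (hv.1 k) hp).C) := by
    rw [((𝒳.X k).crys v (hv.1 k) hp).norm]
    exact zero_lt_one
  have hθ : (y / (Ideal.absNorm v.asIdeal : QQ) ^ m) ^ ex 𝒳 a = 1 := by
    refine t_root QQ ((𝒳.X k).crys v (hv.1 k) hp).C (Ideal.absNorm v.asIdeal) hp
      ((𝒳.X k).crys v (hv.1 k) hp).val hval _ ?_ ⟨m, ?_⟩ ?_ _ ?_
    · intro τ
      have h6 : ‖τ (y / (Ideal.absNorm v.asIdeal : QQ) ^ m)‖ ^ 2 = 1 := by
        rw [map_div₀, map_pow, map_natCast, norm_div, norm_pow, div_pow, h1, hm,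
          Complex.norm_natCast, ← pow_mul, mul_comm m 2, div_self]
        positivity
      exact (pow_eq_one_iff_of_nonneg (norm_nonneg _) two_ne_zero).mp h6
    · rw [mul_div_cancel₀ _ (pow_ne_zero m hp0)]
      exact h2
    · intro ι
      have h0 := hw _ (exists_val 𝒳 hv k ι)
      rw [WQ_eq j ι ((𝒳.X k).crys v (hv.1 k) hp).val _ _ (fun y => rfl)] at h0
      set W := WI j ι ((𝒳.X k).crys v (hv.1 k) hp).val with hW
      have hU1 : W.U 1 := ⟨1, one_ne_zero, map_one j⟩
      have hUp : W.U (Ideal.absNorm v.asIdeal : Ω) :=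
        ⟨(Ideal.absNorm v.asIdeal : QQ), hp0, map_natCast j _⟩
      have hUy : W.U (j y) := ⟨y, hy0, rfl⟩
      have h6 := W.w_pow hU1 hUp m
      have h7 := W.w_div hU1 hUy h6.1
      have h8 : W.w (j y / (Ideal.absNorm v.asIdeal : Ω) ^ m) = 0 := by
        rw [h7.2, h6.2, h0, hW, good_p (𝒳.X k) (hv.1 k) hp j ι]
        ring
      have h9 : j (y / (Ideal.absNorm v.asIdeal : QQ) ^ m) =
          j y / (Ideal.absNorm v.asIdeal : Ω) ^ m := by
        rw [map_div₀, map_pow, map_natCast]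
      rw [← h9, hW, WI_w] at h8
      by_cases h0 : ι (y / (Ideal.absNorm v.asIdeal : QQ) ^ m) = 0
      · rw [h0, AddValuation.map_zero]
        exact le_top
      · rw [← val_untop _ h0, h8]
        exact le_rfl
    · have hθ : y / (Ideal.absNorm v.asIdeal : QQ) ^ m ∈ E :=
        div_mem h5 (pow_mem (natCast_mem E _) m)
      have e' := IntermediateField.minpoly_eq (K := ℚ) (S := E) (⟨_, hθ⟩ : E)
      have h6 : (minpoly ℚ (y / (Ideal.absNorm v.asIdeal : QQ) ^ m)).natDegree ≤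
          finrank ℚ E := by
        have e'' : minpoly ℚ (y / (Ideal.absNorm v.asIdeal : QQ) ^ m) = _ := e'.symm
        rw [e'']
        exact minpoly.natDegree_le _
      exact h6.trans h4
  have h10 := congrArg j hθ
  rw [map_pow, map_div₀, map_pow, map_natCast, map_one, div_pow, div_eq_one_iff_eq] at h10
  · exact h10
  · refine pow_ne_zero _ (pow_ne_zero _ ?_)
    exact_mod_cast hp.ne_zero

end tens

end Pool.Agent.V7H12.TT
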