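import Pool.Agent.V7H12.TT.Core
import Pool.Agent.N184.HK.W5

/-!
# The Galois action on tensor spaces
-/

set_option autoImplicit false
set_option linter.all false

namespace Pool.Agent.V7H12.TT

open Module Module.End TensorProduct Polynomial NumberField IsDedekindDomain
open Pool.Agent.N184.HK Pool.Agent.W401.Cheb
open scoped Classical

section rep

variable {K : Type} [Field K] [NumberField K] {Ω : Type} [Field Ω] [CharZero Ω]
  [TopologicalSpace Ω] {κ : Type} (𝒳 : HKFamily K Ω κ)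

lemma act_mul (σ τ : GK K) (a : Word 𝒳.d) :
    en (𝒳.Φ (σ * τ) a) = en (𝒳.Φ σ a) * en (𝒳.Φ τ a) := by
  induction a with
  | H k i =>
    ext x
    have h := congrArg (fun f => f x) ((𝒳.X k).E.mul σ τ i)
    exact h
  | tensor a b iha ihb =>
    refine tens_ext fun x y => ?_
    have h1 := LinearMap.congr_fun iha x
    have h2 := LinearMap.congr_fun ihb y
    have h3 : ∀ (σ : GK K) (x : (tens 𝒳.coh a).V) (y : (tens 𝒳.coh b).V),
        en (𝒳.Φ σ (.tensor a b)) (tm x y) = tm (en (𝒳.Φ σ a) x) (en (𝒳.Φ σ b) y) :=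
      fun σ x y => TensorProduct.congr_tmul (𝒳.Φ σ a) (𝒳.Φ σ b) x y
    rw [Module.End.mul_apply, h3, h3, h3, h1, h2]
    rfl

lemma act_one (a : Word 𝒳.d) : en (𝒳.Φ 1 a) = 1 := by
  ext x
  have h := LinearMap.congr_fun (act_mul 𝒳 1 1 a) x
  rw [one_mul] at h
  exact (𝒳.Φ 1 a).injective h.symm

lemma act_pow (σ : GK K) (a : Word 𝒳.d) (n : ℕ) :
    en (𝒳.Φ (σ ^ n) a) = (en (𝒳.Φ σ a)) ^ n := by
  induction n with
  | zero => rw [pow_zero, pow_zero, act_one]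
  | succ n ih => rw [pow_succ, pow_succ, act_mul, ih]

omit [NumberField K] in
lemma cts_map [IsTopologicalRing Ω] {Γ V V' : Type} [TopologicalSpace Γ] [AddCommGroup V]
    [Module Ω V] [FiniteDimensional Ω V] [AddCommGroup V'] [Module Ω V'] [FiniteDimensional Ω V']
    {f : Γ → Module.End Ω V} {g : Γ → Module.End Ω V'} (hf : Cts f) (hg : Cts g) :
    Cts fun σ => (TensorProduct.map (f σ) (g σ) : Module.End Ω (V ⊗[Ω] V')) := by
  intro L
  let b := Module.finBasis Ω (Module.End Ω V)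
  let b' := Module.finBasis Ω (Module.End Ω V')
  have h : (fun σ => L (TensorProduct.map (f σ) (g σ))) = fun σ => ∑ i, ∑ j,
      (b.coord i (f σ)) * (b'.coord j (g σ)) * L (TensorProduct.map (b i) (b' j)) := by
    funext σ
    have h1 : f σ = ∑ i, b.coord i (f σ) • b i := by
      conv_lhs => rw [← b.sum_repr (f σ)]
      rfl
    have h2 : g σ = ∑ j, b'.coord j (g σ) • b' j := by
      conv_lhs => rw [← b'.sum_repr (g σ)]
      rfl
    conv_lhs => rw [h1, h2]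
    have h3 : (TensorProduct.map (∑ i, b.coord i (f σ) • b i) (∑ j, b'.coord j (g σ) • b' j) :
        Module.End Ω (V ⊗[Ω] V')) = ∑ i, ∑ j, ((b.coord i (f σ)) * (b'.coord j (g σ))) •
          TensorProduct.map (b i) (b' j) := by
      have h4 : ∀ (A : Module.End Ω V) (B : Module.End Ω V'),
          TensorProduct.map A B = TensorProduct.mapBilinear (RingHom.id Ω) V V' V V' A B :=
        fun A B => rfl
      rw [h4]
      simp only [map_sum, LinearMap.sum_apply, map_smul, LinearMap.smul_apply, smul_smul]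
      rw [Finset.sum_comm]
      refine Finset.sum_congr rfl fun i _ => ?_
      rw [Finset.smul_sum]
      refine Finset.sum_congr rfl fun j _ => ?_
      rw [smul_smul, mul_comm]
      rfl
    rw [h3, map_sum]
    refine Finset.sum_congr rfl fun i _ => ?_
    rw [map_sum]
    refine Finset.sum_congr rfl fun j _ => ?_
    rw [map_smul, smul_eq_mul]
  rw [h]
  refine continuous_finsetSum _ fun i _ => continuous_finsetSum _ fun j _ => ?_
  exact ((hf (b.coord i)).mul (hg (b'.coord j))).mul continuous_const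

lemma cts_act [IsTopologicalRing Ω] (a : Word 𝒳.d) : Cts fun σ => en (𝒳.Φ σ a) := by
  induction a with
  | H k i => exact (𝒳.X k).E.cont i
  | tensor a b iha ihb => exact cts_map iha ihb

end rep

section good

variable {K : Type} [Field K] [NumberField K] {Ω : Type} [Field Ω] [CharZero Ω] [IsAlgClosed Ω]
  [TopologicalSpace Ω]

section one

variable (X : HKVariety K Ω)
  {v : HeightOneSpectrum (𝓞 K)} (hv : v ∉ X.bad) (hp : (Ideal.absNorm v.asIdeal).Prime)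
  {σ : GK K} (hσ : IsFrob v σ⁻¹) (j : QQ →+* Ω)

lemma good_p (ι : QQ →+* (X.crys v hv hp).C) :
    (WI j ι (X.crys v hv hp).val).w (Ideal.absNorm v.asIdeal : Ω) = 1 := by
  have h10 := WI_w j ι (X.crys v hv hp).val (Ideal.absNorm v.asIdeal : QQ)
  rw [map_natCast, map_natCast, (X.crys v hv hp).norm] at h10
  exact h10

include hσ in
lemma good_mu (ι : QQ →+* (X.crys v hv hp).C) :
    (WI j ι (X.crys v hv hp).val).w (X.E.F σ).μ / 2 = 1 := by
  set W := WI j ι (X.crys v hv hp).val with hW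
  have hp0 : (Ideal.absNorm v.asIdeal : QQ) ≠ 0 := by exact_mod_cast hp.ne_zero
  have hU1 : W.U 1 := ⟨1, one_ne_zero, map_one j⟩
  have hUp : W.U (Ideal.absNorm v.asIdeal : Ω) :=
    ⟨(Ideal.absNorm v.asIdeal : QQ), hp0, map_natCast j _⟩
  have h1 := W.w_pow hU1 hUp 2
  have h2 := X.mult v hv σ hσ
  rw [GaloisCohomology.mu] at h2
  rw [h2, h1.2, hW, good_p X hv hp j ι]
  norm_num

include hσ in
lemma good_slope (ι : QQ →+* (X.crys v hv hp).C) {i : ℕ} (hi : i ≤ X.d) :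
    fop (en ((X.E.F σ).φ i)) (WI j ι (X.crys v hv hp).val).k =
      ((i / 2 : ℚ) : Ω) • 1 + X.E.X.ρ i ((X.E.F σ).S2 (WI j ι (X.crys v hv hp).val)) :=
  slope_eq (U_frob X hv hσ j ι _ X.two_le) (U_frob X hv hσ j ι _ hi) (good_nil X hv hp hσ j ι hi)

end one

/-- The weight given by the embedding `j` and a valuation `w`. -/
noncomputable def WQ (j : QQ →+* Ω) (w : QQ → ℚ)
    (hw : ∀ x y : QQ, x ≠ 0 → y ≠ 0 → w (x * y) = w x + w y) : Wt Ω where
  U x := ∃ y : QQ, y ≠ 0 ∧ j y = x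
  ne := by
    rintro x ⟨y, hy, rfl⟩
    exact (map_ne_zero j).2 hy
  mul := by
    rintro _ _ ⟨x, hx, rfl⟩ ⟨y, hy, rfl⟩
    exact ⟨x * y, mul_ne_zero hx hy, map_mul j x y⟩
  inv := by
    rintro _ ⟨x, hx, rfl⟩
    exact ⟨x⁻¹, inv_ne_zero hx, map_inv₀ j x⟩
  w x := if h : ∃ y : QQ, j y = x then w h.choose else 0
  w_mul := by
    have key : ∀ y : QQ, (if h : ∃ z : QQ, j z = j y then w h.choose else 0) = w y := by
      intro y
      have h : ∃ z : QQ, j z = j y := ⟨y, rfl⟩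
      rw [dif_pos h, j.injective h.choose_spec]
    rintro _ _ ⟨x, hx, rfl⟩ ⟨y, hy, rfl⟩
    rw [← map_mul, key, key, key]
    exact hw x y hx hy

lemma WQ_eq (j : QQ →+* Ω) {C : Type} [Field C] (ι : QQ →+* C) (val : AddValuation C (WithTop ℚ))
    (w : QQ → ℚ) (hw : ∀ x y : QQ, x ≠ 0 → y ≠ 0 → w (x * y) = w x + w y)
    (h : ∀ y, w y = (val (ι y)).untopD 0) : WQ j w hw = WI j ι val := by
  obtain rfl : w = fun y => (val (ι y)).untopD 0 := funext h
  rfl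

variable {κ : Type} (𝒳 : HKFamily K Ω κ)

lemma val_mul {v : HeightOneSpectrum (𝓞 K)} {hv : GoodFor 𝒳 v} {w : QQ → ℚ}
    (h : IsVal 𝒳 v hv w) [Nonempty κ] : ∀ x y : QQ, x ≠ 0 → y ≠ 0 → w (x * y) = w x + w y := by
  obtain ⟨k⟩ := ‹Nonempty κ›
  obtain ⟨ι, hι⟩ := h k
  intro x y hx hy
  rw [hι, hι, hι, map_mul]
  exact val_untop_mul _ ((map_ne_zero ι).2 hx) ((map_ne_zero ι).2 hy)

/-- An embedding in one of the fields `C` gives a valuation. -/
lemma exists_val {v : HeightOneSpectrum (𝓞 K)} (hv : GoodFor 𝒳 v) (k : κ)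
    (ι : QQ →+* ((𝒳.X k).crys v (hv.1 k) hv.2).C) :
    IsVal 𝒳 v hv fun y => (((𝒳.X k).crys v (hv.1 k) hv.2).val (ι y)).untopD 0 := by
  intro l
  obtain ⟨e, he⟩ := 𝒳.same k l v (hv.1 k) (hv.1 l) hv.2
  refine ⟨(e : _ →+* _).comp ι, fun y => ?_⟩
  have := he (ι y)
  change _ = (((𝒳.X l).crys v (hv.1 l) hv.2).val (e (ι y))).untopD 0
  rw [this]

section

variable [Nonempty κ] {v : HeightOneSpectrum (𝓞 K)} {hv : GoodFor 𝒳 v} {σ : GK K}
  (hσ : IsFrob v σ⁻¹) (j : QQ →+* Ω) {w : QQ → ℚ} (h : IsVal 𝒳 v hv w)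

include hσ h in
lemma good_U : HasU (X := 𝒳.coh) (fun k => (𝒳.X k).E.F σ) (WQ j w (val_mul 𝒳 h)) := by
  intro k i hi
  obtain ⟨ι, hι⟩ := h k
  rw [WQ_eq j ι _ w _ hι]
  exact U_frob (𝒳.X k) (hv.1 k) hσ j ι _ hi

include hσ h in
lemma good_tens (a : Word 𝒳.d) :
    fop (en (𝒳.Φ σ a)) (WQ j w (val_mul 𝒳 h)).k =
      ((a.weight / 2 : ℚ) : Ω) • 1 +
        (rho 𝒳.coh a) (S2all (X := 𝒳.coh) (fun k => (𝒳.X k).E.F σ)
          (WQ j w (val_mul 𝒳 h))) := by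
  refine S_tens (good_U 𝒳 hσ j h) (fun k i hi => ?_) a
  obtain ⟨ι, hι⟩ := h k
  rw [WQ_eq j ι _ w _ hι]
  exact good_slope (𝒳.X k) (hv.1 k) hv.2 hσ j ι hi

lemma WQ_p : (WQ j w (val_mul 𝒳 h)).w (Ideal.absNorm v.asIdeal : Ω) = 1 := by
  obtain ⟨k⟩ := ‹Nonempty κ›
  obtain ⟨ι, hι⟩ := h k
  rw [WQ_eq j ι _ w _ hι]
  exact good_p (𝒳.X k) (hv.1 k) hv.2 j ι

end

lemma newton_iff [Nonempty κ] (A : EndTwo 𝒳.coh) :
    IsNewton 𝒳 A ↔ ∃ (v : HeightOneSpectrum (𝓞 K)) (hv : GoodFor 𝒳 v)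
      (σ : GK K) (_ : IsFrob v σ⁻¹) (j : QQ →+* Ω) (w : QQ → ℚ) (h : IsVal 𝒳 v hv w),
      A = S2all (X := 𝒳.coh) (fun k => (𝒳.X k).E.F σ) (WQ j w (val_mul 𝒳 h)) := by
  have key : ∀ (v : HeightOneSpectrum (𝓞 K)) (hv : GoodFor 𝒳 v)
      (σ : GK K) (_ : IsFrob v σ⁻¹) (j : QQ →+* Ω) (w : QQ → ℚ) (h : IsVal 𝒳 v hv w) (k : κ)
      (y : QQ), ∀ x ∈ ((𝒳.X k).E.Φ σ 2).maxGenEigenspace (j y),
      S2all (X := 𝒳.coh) (fun k => (𝒳.X k).E.F σ) (WQ j w (val_mul 𝒳 h)) k x =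
        ((w y - 1 : ℚ) : Ω) • x := by
    intro v hv σ hσ j w h k y x hx
    have hx' : x ∈ (en (((𝒳.X k).E.F σ).φ 2)).maxGenEigenspace (j y) := hx
    obtain ⟨ι, hι⟩ := h k
    change ((𝒳.X k).E.F σ).S2 (WQ j w (val_mul 𝒳 h)) x = _
    rw [WQ_eq j ι _ w _ hι, S2_eq, fop_apply _ hx', good_mu (𝒳.X k) (hv.1 k) hv.2 hσ j ι, WI_w,
      hι]
  constructor
  · rintro ⟨v, hv, σ, hσ, j, w, h, hA⟩
    refine ⟨v, hv, σ, hσ, j, w, h, ?_⟩
    funext k
    refine ext_gen (en (((𝒳.X k).E.F σ).φ 2)) fun e x hx => ?_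
    by_cases hx0 : x = 0
    · rw [hx0, map_zero, map_zero]
    have he : e ∈ (en (((𝒳.X k).E.F σ).φ 2)).charpoly.roots := ne_bot_iff.1 fun h => hx0 (by
      rw [h, Submodule.mem_bot] at hx; exact hx)
    rw [roots_frob (𝒳.X k) (hv.1 k) hσ j (𝒳.X k).two_le] at he
    obtain ⟨y, -, rfl⟩ := Multiset.mem_map.1 he
    rw [key v hv σ hσ j w h k y x hx]
    exact hA k y x hx
  · rintro ⟨v, hv, σ, hσ, j, w, h, rfl⟩
    exact ⟨v, hv, σ, hσ, j, w, h, fun k y x hx => key v hv σ hσ j w h k y x hx⟩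

lemma newton_skew [Nonempty κ] {A : EndTwo 𝒳.coh} (hA : IsNewton 𝒳 A) : SkewAll 𝒳.coh A := by
  obtain ⟨v, hv, σ, hσ, j, w, h, rfl⟩ := (newton_iff 𝒳 A).1 hA
  intro k
  exact skew_S2 (good_U 𝒳 hσ j h k 2 (𝒳.X k).two_le)

end good

section lie

variable {K : Type} [Field K] {κ : Type} {d : κ → ℕ} {c : κ → ℚ}
  (X : ∀ k, Cohomology K (d k) (c k))

/-- The elements of the product of the `so(H²)` which kill a vector form a Lie algebra. -/
lemma lie_kill {S : Set (EndTwo X)} (hS : ∀ A ∈ S, SkewAll X A) (a : Word d)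
    (x : (tens X a).V) (h : ∀ A ∈ S, (rho X a) A x = 0) :
    ∀ A ∈ lieClosure (Two X) S, SkewAll X A ∧ (rho X a) A x = 0 := by
  intro A hA
  refine hA {A | SkewAll X A ∧ rho X a A x = 0} ⟨?_, ?_, ?_, ?_⟩ fun A hA => ⟨hS A hA, h A hA⟩
  · exact ⟨skew_zero, by rw [rho_zero, LinearMap.zero_apply]⟩
  · rintro A ⟨hA, hA'⟩ B ⟨hB, hB'⟩
    exact ⟨skew_add hA hB, by rw [rho_add, LinearMap.add_apply, hA', hB', add_zero]⟩
  · rintro r A ⟨hA, hA'⟩
    exact ⟨skew_smul r hA, by rw [rho_smul, LinearMap.smul_apply, hA', smul_zero]⟩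
  · rintro A ⟨hA, hA'⟩ B ⟨hB, hB'⟩
    refine ⟨skew_bracket hA hB, ?_⟩
    rw [tens_bracket X a hA hB, LinearMap.sub_apply, Module.End.mul_apply,
        Module.End.mul_apply, hA', hB', map_zero, map_zero, sub_zero]

lemma subset_lie {S : Set (EndTwo X)} {A : EndTwo X} (hA : A ∈ S) : A ∈ lieClosure (Two X) S :=
  fun P _ hP => hP hA

end lie

end Pool.Agent.V7H12.TT
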