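import Pool.Agent.V7H12.TT.Defs

/-!
# Facts from class field theory and p-adic Hodge theory: definitions
-/

set_option autoImplicit false
set_option linter.all false

namespace Pool.Agent.V7H12.TT

open Module Module.End TensorProduct NumberField IsDedekindDomain
open Pool.Agent.N184.HK Pool.Agent.W401.Cheb

/-- `σ` is in the inertia group of the maximal ideal `Q` of the ring of all algebraic integers. -/
def InertAt {K : Type} [Field K] [NumberField K] (Q : Ideal (𝓞 (AlgebraicClosure K))) (σ : GK K) :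
    Prop :=
  ∀ x : 𝓞 (AlgebraicClosure K), σ • x - x ∈ Q

/-- `Q` is a maximal ideal of the ring of all algebraic integers which contains `ℓ`. -/
def Above (K : Type) [Field K] [NumberField K] (ℓ : ℕ) (Q : Ideal (𝓞 (AlgebraicClosure K))) :
    Prop :=
  Q.IsMaximal ∧ (ℓ : 𝓞 (AlgebraicClosure K)) ∈ Q

/-- Additive characters of Galois groups of number fields (class field theory, finiteness of the
class number): a continuous homomorphism `χ` from an open subgroup `V` to the additive group of `Ω`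
vanishes, if at all maximal ideals above `ℓ` it vanishes on an open subgroup of the inertia group. -/
def ClassField (K : Type) [Field K] [NumberField K] (Ω : Type) [Field Ω] [TopologicalSpace Ω]
    (ℓ : ℕ) : Prop :=
  ∀ (V : Subgroup (GK K)), IsOpen (V : Set (GK K)) → ∀ χ : V → Ω, Continuous χ →
    (∀ σ τ, χ (σ * τ) = χ σ + χ τ) →
    (∀ Q, Above K ℓ Q →
      ∃ W : Set (GK K), IsOpen W ∧ 1 ∈ W ∧ ∀ σ : V, σ.1 ∈ W → InertAt Q σ.1 → χ σ = 0) →
    ∀ σ, χ σ = 0

/-- The theorem of Sen for a Hodge-Tate representation `T`: if all elements of an open subgroup `V`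
act on a `V`-stable subspace `U` with the only eigenvalue `ν ^ m`, then an open subgroup of the
inertia group at each maximal ideal `Q` above `ℓ` acts on `U` by the scalars `ν ^ m`. -/
def Sen {K : Type} [Field K] [NumberField K] {Ω : Type} [Field Ω] {T : Spc Ω} (ℓ : ℕ)
    (ν : GK K → Ω) (Φ : GK K → T.Aut) : Prop :=
  ∀ Q, Above K ℓ Q → ∀ (m : ℕ) (V : Subgroup (GK K)), IsOpen (V : Set (GK K)) → ∀ U : T.Sub,
    (∀ σ ∈ V, Spc.Fixes (Φ σ) U) → (∀ σ ∈ V, ∀ x ∈ U, Spc.Gen (Φ σ) (ν σ ^ m) x) →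
    ∃ W : Set (GK K), IsOpen W ∧ 1 ∈ W ∧ ∀ σ ∈ W, σ ∈ V → InertAt Q σ →
      ∀ x ∈ U, Spc.Scal (Φ σ) (ν σ ^ m) x

/-- The space of endomorphisms. -/
abbrev Spc.ends {K : Type} [Field K] (M : Spc K) : Spc K := { V := M.End }

/-- The action of an automorphism on endomorphisms, by conjugation. -/
noncomputable def Spc.cnj {K : Type} [Field K] {M : Spc K} (f : M.Aut) : M.ends.Aut := f.conj

section

variable {K : Type} [Field K] [NumberField K] {Ω : Type} [Field Ω] [CharZero Ω]
  [TopologicalSpace Ω] {κ : Type} (𝒳 : HKFamily K Ω κ)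

/-- The action of `σ` on the endomorphisms of the tensor space of the word `a`, by conjugation. -/
noncomputable def HKFamily.Ψ (σ : GK K) (a : Word 𝒳.d) : (𝒳.T a).ends.Aut :=
  Spc.cnj (𝒳.Φ σ a)

/-- `x` is a Tate class in the tensor space of the word `a`, of weight `2 m`: an open subgroup of the
Galois group acts on `x` by `ν ^ m`. -/
def IsTate (ν : GK K → Ω) (a : Word 𝒳.d) (m : ℕ) (x : (𝒳.T a).V) : Prop :=
  ∃ V : Subgroup (GK K), IsOpen (V : Set (GK K)) ∧ ∀ σ ∈ V, Spc.Scal (𝒳.Φ σ a) (ν σ ^ m) x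

/-- The subspace `W` is stable under the subgroup `V`. -/
def HKFamily.Stable (V : Subgroup (GK K)) (a : Word 𝒳.d) (W : (𝒳.T a).Sub) : Prop :=
  ∀ σ ∈ V, Spc.Fixes (𝒳.Φ σ a) W

/-- The subspace `W` is stable under an open subgroup. -/
def HKFamily.OpenStable (a : Word 𝒳.d) (W : (𝒳.T a).Sub) : Prop :=
  ∃ V : Subgroup (GK K), IsOpen (V : Set (GK K)) ∧ 𝒳.Stable V a W

/-- The subspace `W` is stable under the operators of the elements of `P`. -/
def HKFamily.LieStable (P : Set 𝒳.E2) (a : Word 𝒳.d) (W : (𝒳.T a).Sub) : Prop :=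
  ∀ A ∈ P, Spc.FixesEnd (𝒳.ρ a A) W

/-- The endomorphism `e` commutes with an open subgroup. -/
def HKFamily.OpenComm (a : Word 𝒳.d) (e : (𝒳.T a).End) : Prop :=
  ∃ V : Subgroup (GK K), IsOpen (V : Set (GK K)) ∧ ∀ σ ∈ V, Commute (en (𝒳.Φ σ a)) e

/-- The endomorphism `e` commutes with the operators of the elements of `P`. -/
def HKFamily.LieComm (P : Set 𝒳.E2) (a : Word 𝒳.d) (e : (𝒳.T a).End) : Prop :=
  ∀ A ∈ P, Commute (𝒳.ρ a A) e

/-- `x` is killed by the operators of the elements of `P`. -/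
def HKFamily.Killed (P : Set 𝒳.E2) (a : Word 𝒳.d) (x : (𝒳.T a).V) : Prop :=
  ∀ A ∈ P, 𝒳.ρ a A x = 0

/-- The facts from class field theory and `p`-adic Hodge theory which are used: the statement on
additive characters; and the theorem of Sen for the tensor spaces and their spaces of endomorphisms,
which are Hodge-Tate representations at the places above `ℓ` (Faltings). -/
structure LocalFacts (ℓ : ℕ) (ν : GK K → Ω) : Prop where
  classField : ClassField K Ω ℓ
  sen : ∀ a, Sen ℓ ν (fun σ => 𝒳.Φ σ a)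
  senEnd : ∀ a, Sen ℓ ν (fun σ => 𝒳.Ψ σ a)

end

end Pool.Agent.V7H12.TT
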