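import Pool.Agent.V7H12.TT.Comm

/-!
# Stable subspaces of tensor spaces
-/

set_option autoImplicit false
set_option linter.all false

namespace Pool.Agent.V7H12.TT

open Module Module.End TensorProduct Polynomial NumberField IsDedekindDomain
open Pool.Agent.N184.HK Pool.Agent.W401.Cheb
open scoped Classical

section alg

variable {Ω : Type} [Field Ω] {E : Type} [AddCommGroup E] [Module Ω E]
variable [IsAlgClosed Ω] [FiniteDimensional Ω E]

lemma fop_stable {φ : Module.End Ω E} {W : Submodule Ω E} (h : ∀ x ∈ W, φ x ∈ W) (w : Ω → Ω) :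
    ∀ x ∈ W, fop φ w x ∈ W := by
  have h1 := Submodule.inf_iSup_genEigenspace h ⊤
  have h2 : (⨆ μ : Ω, φ.genEigenspace μ ⊤) = ⊤ := Module.End.iSup_maxGenEigenspace_eq_top φ
  rw [h2, inf_top_eq] at h1
  have h3 : W ≤ W.comap (fop φ w) := by
    conv_lhs => rw [h1]
    refine iSup_le fun μ x hx => ?_
    have hx2 : x ∈ φ.maxGenEigenspace μ := hx.2
    rw [Submodule.mem_comap, fop_apply w hx2]
    exact W.smul_mem _ hx.1
  exact fun x hx => h3 hx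

end alg

section stable

variable {K : Type} [Field K] [NumberField K] {Ω : Type} [Field Ω] [CharZero Ω] [IsAlgClosed Ω]
  [TopologicalSpace Ω] {κ : Type} (𝒳 : HKFamily K Ω κ)

/-- Subspaces which are stable under an open subgroup are stable under the Newton operators. -/
lemma newton_stable [Nonempty κ] (a : Word 𝒳.d) {V : Subgroup (GK K)}
    (hV : IsOpen (V : Set (GK K))) {W : Submodule Ω (tens 𝒳.coh a).V}
    (hW : ∀ σ ∈ V, ∀ x ∈ W, 𝒳.Φ σ a x ∈ W) :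
    ∀ A, IsNewton 𝒳 A → ∀ x ∈ W, (rho 𝒳.coh a) A x ∈ W := by
  intro A hA x hx
  obtain ⟨v, hv, σ, hσ, j, w, h, rfl⟩ := (newton_iff 𝒳 A).1 hA
  obtain ⟨U, hU⟩ := ProfiniteGrp.exist_openNormalSubgroup_sub_open_nhds_of_one hV V.one_mem
  have hUo : IsOpen (U.toSubgroup : Set (GK K)) := U.isOpen'
  haveI : Finite (GK K ⧸ U.toSubgroup) := Subgroup.quotient_finite_of_isOpen _ hUo
  obtain ⟨k, hk0, hk⟩ : ∃ k : ℕ, k ≠ 0 ∧ σ ^ k ∈ V := by
    refine ⟨Nat.card (GK K ⧸ U.toSubgroup), Nat.card_pos.ne', hU ?_⟩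
    have h1 : ((σ : GK K ⧸ U.toSubgroup)) ^ Nat.card (GK K ⧸ U.toSubgroup) = 1 :=
      pow_card_eq_one'
    have h2 : ((σ ^ Nat.card (GK K ⧸ U.toSubgroup) : GK K) : GK K ⧸ U.toSubgroup) = 1 := h1
    exact (QuotientGroup.eq_one_iff _).1 h2
  set φ := en (𝒳.Φ σ a) with hφ
  set Wt := WQ j w (val_mul 𝒳 h) with hWt
  have hφk : ∀ x ∈ W, (φ ^ k) x ∈ W := by
    intro x hx
    have h1 := hW _ hk x hx
    have h2 := LinearMap.congr_fun (act_pow 𝒳 σ a k) x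
    rw [hφ, ← h2]
    exact h1
  have h1 : fop (φ ^ k) Wt.k = (k : Ω) • fop φ Wt.k := by
    refine ext_gen φ fun e y hy => ?_
    by_cases hy0 : y = 0
    · rw [hy0, map_zero, map_zero]
    have he : e ∈ φ.charpoly.roots := ne_bot_iff.1 fun h => hy0 (by
      rw [h, Submodule.mem_bot] at hy; exact hy)
    have hUe : Wt.U e := U_tens (good_U 𝒳 hσ j h) a e he
    have hU1 : Wt.U 1 := ⟨1, one_ne_zero, map_one j⟩
    rw [fop_apply _ (pow_gen' hy k), LinearMap.smul_apply, fop_apply _ hy, smul_smul, Wt.k,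
      (Wt.w_pow hU1 hUe k).2, Rat.cast_mul, Rat.cast_natCast]
    rfl
  have h2 := fop_stable hφk Wt.k x hx
  rw [h1, LinearMap.smul_apply] at h2
  have hk' : (k : Ω) ≠ 0 := by exact_mod_cast hk0
  have h3 : fop φ Wt.k x ∈ W := by
    have := W.smul_mem (k : Ω)⁻¹ h2
    rwa [smul_smul, inv_mul_cancel₀ hk', one_smul] at this
  have h4 := good_tens 𝒳 hσ j h a
  rw [← hφ, ← hWt] at h4
  rw [h4, LinearMap.add_apply, LinearMap.smul_apply, Module.End.one_apply] at h3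
  exact (W.add_mem_iff_right (W.smul_mem _ hx)).1 h3

end stable

section lie

variable {K : Type} [Field K] {κ : Type} {d : κ → ℕ} {c : κ → ℚ}
  (X : ∀ k, Cohomology K (d k) (c k))

/-- The elements of the product of the `so(H²)` which stabilize a subspace form a Lie algebra. -/
lemma lie_stable {S : Set (EndTwo X)} (hS : ∀ A ∈ S, SkewAll X A) (a : Word d)
    (W : Submodule K (tens X a).V) (h : ∀ A ∈ S, ∀ x ∈ W, (rho X a) A x ∈ W) :
    ∀ A ∈ lieClosure (Two X) S, SkewAll X A ∧ ∀ x ∈ W, (rho X a) A x ∈ W := by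
  intro A hA
  refine hA {A | SkewAll X A ∧ ∀ x ∈ W, rho X a A x ∈ W} ⟨?_, ?_, ?_, ?_⟩
    fun A hA => ⟨hS A hA, h A hA⟩
  · exact ⟨skew_zero, fun x _ => by
      rw [rho_zero, LinearMap.zero_apply]
      exact W.zero_mem⟩
  · rintro A ⟨hA, hA'⟩ B ⟨hB, hB'⟩
    refine ⟨skew_add hA hB, fun x hx => ?_⟩
    rw [rho_add, LinearMap.add_apply]
    exact W.add_mem (hA' x hx) (hB' x hx)
  · rintro r A ⟨hA, hA'⟩
    refine ⟨skew_smul r hA, fun x hx => ?_⟩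
    rw [rho_smul, LinearMap.smul_apply]
    exact W.smul_mem _ (hA' x hx)
  · rintro A ⟨hA, hA'⟩ B ⟨hB, hB'⟩
    refine ⟨skew_bracket hA hB, fun x hx => ?_⟩
    rw [tens_bracket X a hA hB, LinearMap.sub_apply, Module.End.mul_apply,
        Module.End.mul_apply]
    exact W.sub_mem (hA' _ (hB' x hx)) (hB' _ (hA' x hx))

end lie

section main

variable {K : Type} [Field K] [NumberField K] {Ω : Type} [Field Ω] [CharZero Ω] [IsAlgClosed Ω]
  [TopologicalSpace Ω] {κ : Type} (𝒳 : HKFamily K Ω κ)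

/-- Subspaces which are stable under an open subgroup are stable under the Lie algebra generated by
the Newton operators. -/
theorem stable_newton [Nonempty κ] (a : Word 𝒳.d) {V : Subgroup (GK K)}
    (hV : IsOpen (V : Set (GK K))) {W : Submodule Ω (tens 𝒳.coh a).V}
    (hW : ∀ σ ∈ V, ∀ x ∈ W, 𝒳.Φ σ a x ∈ W) :
    ∀ A ∈ newtonLie 𝒳, ∀ x ∈ W, (rho 𝒳.coh a) A x ∈ W := fun A hA =>
  (lie_stable 𝒳.coh (fun A hA => newton_skew 𝒳 hA) a W (newton_stable 𝒳 a hV hW) A hA).2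

variable [IsTopologicalRing Ω] [T2Space Ω]

/-- Decompositions which are stable under the Newton operators are stable under an open subgroup. -/
theorem stable_of_newton [Nonempty κ] [Finite κ] {ℓ : ℕ} (hcf : ClassField K Ω ℓ) {ν : GK K → Ω}
    (hν : IsCyclotomic 𝒳 ν) (a : Word 𝒳.d) (hsen : Sen ℓ ν (fun σ => 𝒳.Ψ σ a))
    {W W' : Submodule Ω (tens 𝒳.coh a).V} (hc : IsCompl W W')
    (hW : ∀ A ∈ newtonLie 𝒳, ∀ x ∈ W, (rho 𝒳.coh a) A x ∈ W)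
    (hW' : ∀ A ∈ newtonLie 𝒳, ∀ x ∈ W', (rho 𝒳.coh a) A x ∈ W') :
    ∃ V : Subgroup (GK K), IsOpen (V : Set (GK K)) ∧
      ∃ e₀ : Module.End Ω (tens 𝒳.coh a).V, (∀ x, e₀ x ∈ W) ∧ (∀ x ∈ W, e₀ x = x) ∧
        (∀ x ∈ W', e₀ x = 0) ∧ ∀ σ ∈ V, Commute (en (𝒳.Φ σ a)) e₀ := by
  let e₀ : Module.End Ω (tens 𝒳.coh a).V := W.subtype ∘ₗ W.projectionOnto W' hc
  have h1 : ∀ x ∈ W, e₀ x = x := fun x hx => by
    change ((W.projectionOnto W' hc x : W) : (tens 𝒳.coh a).V) = x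
    rw [Submodule.projectionOnto_apply_left hc ⟨x, hx⟩]
  have h2 : ∀ x ∈ W', e₀ x = 0 := fun x hx => by
    change ((W.projectionOnto W' hc x : W) : (tens 𝒳.coh a).V) = 0
    rw [(Submodule.projectionOnto_apply_eq_zero_iff hc).2 hx]
    rfl
  obtain ⟨V, hV, hVe⟩ := comm_open 𝒳 hcf hν a hsen (e₀ := e₀) (fun A hA => by
    have hA' : A ∈ newtonLie 𝒳 := subset_lie 𝒳.coh hA
    ext x
    obtain ⟨y, hy, z, hz, rfl⟩ := Submodule.mem_sup.1 (hc.sup_eq_top ▸ Submodule.mem_top (x := x))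
    rw [Module.End.mul_apply, Module.End.mul_apply, map_add e₀, h1 y hy, h2 z hz, add_zero,
      map_add, map_add, h1 _ (hW A hA' y hy), h2 _ (hW' A hA' z hz), add_zero])
  exact ⟨V, hV, e₀, fun x => (W.projectionOnto W' hc x).2, h1, h2, hVe⟩

/-- **Decompositions.** -/
theorem decomposition [Nonempty κ] [Finite κ] {ℓ : ℕ} (hcf : ClassField K Ω ℓ) {ν : GK K → Ω}
    (hν : IsCyclotomic 𝒳 ν) (a : Word 𝒳.d) (hsen : Sen ℓ ν (fun σ => 𝒳.Ψ σ a))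
    {W W' : Submodule Ω (tens 𝒳.coh a).V} (hc : IsCompl W W') :
    (∃ V : Subgroup (GK K), IsOpen (V : Set (GK K)) ∧ ∀ σ ∈ V, (∀ x ∈ W, 𝒳.Φ σ a x ∈ W) ∧
      ∀ x ∈ W', 𝒳.Φ σ a x ∈ W') ↔
    ∀ A ∈ newtonLie 𝒳, (∀ x ∈ W, (rho 𝒳.coh a) A x ∈ W) ∧
      ∀ x ∈ W', (rho 𝒳.coh a) A x ∈ W' := by
  constructor
  · rintro ⟨V, hV, h⟩ A hA
    exact ⟨stable_newton 𝒳 a hV (fun σ hσ => (h σ hσ).1) A hA,
      stable_newton 𝒳 a hV (fun σ hσ => (h σ hσ).2) A hA⟩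
  · intro h
    obtain ⟨V, hV, e₀, h1, h2, h3, h4⟩ := stable_of_newton 𝒳 hcf hν a hsen hc
      (fun A hA => (h A hA).1) (fun A hA => (h A hA).2)
    refine ⟨V, hV, fun σ hσ => ⟨fun x hx => ?_, fun x hx => ?_⟩⟩
    · have h5 := LinearMap.congr_fun (h4 σ hσ).eq x
      rw [Module.End.mul_apply, Module.End.mul_apply, h2 x hx] at h5
      have h6 : 𝒳.Φ σ a x = e₀ (𝒳.Φ σ a x) := h5
      rw [h6]
      exact h1 _
    · have h5 := LinearMap.congr_fun (h4 σ hσ).eq x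
      rw [Module.End.mul_apply, Module.End.mul_apply, h3 x hx, map_zero] at h5
      obtain ⟨y, hy, z, hz, hyz⟩ := Submodule.mem_sup.1
        (hc.sup_eq_top ▸ Submodule.mem_top (x := 𝒳.Φ σ a x))
      have h6 : e₀ (𝒳.Φ σ a x) = 0 := h5.symm
      rw [← hyz, map_add, h2 y hy, h3 z hz, add_zero] at h6
      rw [← hyz, h6, zero_add]
      exact hz

/-- **Semisimplicity.** -/
theorem semisimple [Nonempty κ] [Finite κ] {ℓ : ℕ} (hcf : ClassField K Ω ℓ) {ν : GK K → Ω}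
    (hν : IsCyclotomic 𝒳 ν) (a : Word 𝒳.d) (hsen : Sen ℓ ν (fun σ => 𝒳.Ψ σ a))
    (hred : ∀ W : Submodule Ω (tens 𝒳.coh a).V,
      (∀ A ∈ newtonLie 𝒳, ∀ x ∈ W, (rho 𝒳.coh a) A x ∈ W) →
      ∃ W', IsCompl W W' ∧ ∀ A ∈ newtonLie 𝒳, ∀ x ∈ W', (rho 𝒳.coh a) A x ∈ W')
    {V : Subgroup (GK K)} (hV : IsOpen (V : Set (GK K))) {W : Submodule Ω (tens 𝒳.coh a).V}
    (hW : ∀ σ ∈ V, ∀ x ∈ W, 𝒳.Φ σ a x ∈ W) :
    ∃ W', IsCompl W W' ∧ ∀ σ ∈ V, ∀ x ∈ W', 𝒳.Φ σ a x ∈ W' := by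
  have hWn := stable_newton 𝒳 a hV hW
  obtain ⟨W₁, hc, hW₁⟩ := hred W hWn
  obtain ⟨U, hU, e₀, h1, h2, -, h4⟩ := stable_of_newton 𝒳 hcf hν a hsen hc hWn hW₁
  have hUV : ∀ u : GK K, u ∈ U → 𝒳.Ψ u a e₀ = e₀ := by
    intro u hu
    ext x
    have h5 := LinearMap.congr_fun (h4 u hu).eq ((𝒳.Φ u a).symm x)
    rw [Module.End.mul_apply, Module.End.mul_apply] at h5
    change 𝒳.Φ u a (e₀ ((𝒳.Φ u a).symm x)) = e₀ (𝒳.Φ u a ((𝒳.Φ u a).symm x)) at h5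
    rw [LinearEquiv.apply_symm_apply] at h5
    exact h5
  haveI : Finite (GK K ⧸ U) := Subgroup.quotient_finite_of_isOpen _ hU
  haveI : U.FiniteIndex := Subgroup.finiteIndex_of_finite_quotient
  let H : Subgroup V := U.subgroupOf V
  haveI : H.FiniteIndex := inferInstanceAs ((U.subgroupOf V).FiniteIndex)
  haveI : Finite (V ⧸ H) := H.finite_quotient_of_finiteIndex
  haveI : Fintype (V ⧸ H) := Fintype.ofFinite _
  have hmul : ∀ (σ τ : GK K) (f : Module.End Ω (tens 𝒳.coh a).V),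
      𝒳.Ψ (σ * τ) a f = 𝒳.Ψ σ a (𝒳.Ψ τ a f) := fun σ τ f =>
    LinearMap.congr_fun (Psi_mul 𝒳 σ τ a) f
  let F : V ⧸ H → Module.End Ω (tens 𝒳.coh a).V := fun q =>
    Quotient.liftOn' q (fun g : V => 𝒳.Ψ g.1 a e₀) (by
      intro g g' hgg
      rw [QuotientGroup.leftRel_apply] at hgg
      have h5 : g.1⁻¹ * g'.1 ∈ U := hgg
      have h6 : g'.1 = g.1 * (g.1⁻¹ * g'.1) := by group
      change 𝒳.Ψ g.1 a e₀ = 𝒳.Ψ g'.1 a e₀
      rw [h6, hmul, hUV _ h5])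
  have hF : ∀ g : V, F (g : V ⧸ H) = 𝒳.Ψ g.1 a e₀ := fun g => rfl
  have happ : ∀ (g : GK K) (f : Module.End Ω (tens 𝒳.coh a).V) (x),
      𝒳.Ψ g a f x = 𝒳.Φ g a (f ((𝒳.Φ g a).symm x)) := fun g f x => rfl
  have hsymm : ∀ g ∈ V, ∀ x ∈ W, (𝒳.Φ g a).symm x ∈ W := by
    intro g hg x hx
    have h5 := hW g⁻¹ (inv_mem hg) x hx
    have h6 := LinearMap.congr_fun (symm_eq 𝒳 g a) x
    change (𝒳.Φ g a).symm x = _ at h6
    rw [h6]
    exact h5
  have hFW : ∀ q x, F q x ∈ W := by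
    intro q x
    induction q using QuotientGroup.induction_on with
    | H g =>
      rw [hF, happ]
      exact hW g.1 g.2 _ (h1 _)
  have hFW2 : ∀ q, ∀ x ∈ W, F q x = x := by
    intro q x hx
    induction q using QuotientGroup.induction_on with
    | H g =>
      rw [hF, happ, h2 _ (hsymm g.1 g.2 x hx), LinearEquiv.apply_symm_apply]
  have hFg : ∀ (g : V) (q : V ⧸ H), 𝒳.Ψ g.1 a (F q) = F (g • q) := by
    intro g q
    induction q using QuotientGroup.induction_on with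
    | H g' =>
      change 𝒳.Ψ g.1 a (F (g' : V ⧸ H)) = F ((g * g' : V) : V ⧸ H)
      rw [hF, hF, ← hmul]
      rfl
  have hcard : (Fintype.card (V ⧸ H) : Ω) ≠ 0 := by exact_mod_cast Fintype.card_ne_zero
  let ē : Module.End Ω (tens 𝒳.coh a).V := (Fintype.card (V ⧸ H) : Ω)⁻¹ • ∑ q, F q
  have hē : ∀ x, ē x = (Fintype.card (V ⧸ H) : Ω)⁻¹ • ∑ q, F q x := by
    intro x
    simp [ē]
  have hē1 : ∀ x, ē x ∈ W := by
    intro x
    rw [hē]
    exact W.smul_mem _ (W.sum_mem fun q _ => hFW q x)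
  have hē2 : ∀ x ∈ W, ē x = x := by
    intro x hx
    rw [hē, Finset.sum_congr rfl fun q _ => hFW2 q x hx, Finset.sum_const, Finset.card_univ,
      ← Nat.cast_smul_eq_nsmul Ω, smul_smul, inv_mul_cancel₀ hcard, one_smul]
  have hē3 : ∀ g : V, 𝒳.Ψ g.1 a ē = ē := by
    intro g
    change 𝒳.Ψ g.1 a ((Fintype.card (V ⧸ H) : Ω)⁻¹ • ∑ q, F q) = _
    rw [map_smul, map_sum, Finset.sum_congr rfl fun q _ => hFg g q]
    congr 1
    exact Equiv.sum_comp (MulAction.toPerm g) F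
  let p : (tens 𝒳.coh a).V →ₗ[Ω] W := ē.codRestrict W hē1
  refine ⟨LinearMap.ker p, LinearMap.isCompl_of_proj fun x => Subtype.ext (hē2 x.1 x.2), ?_⟩
  intro σ hσ x hx
  have hx0 : ē x = 0 := congrArg Subtype.val (LinearMap.mem_ker.1 hx)
  rw [LinearMap.mem_ker]
  apply Subtype.ext
  change ē (𝒳.Φ σ a x) = 0
  have h5 := LinearMap.congr_fun (hē3 ⟨σ, hσ⟩) (𝒳.Φ σ a x)
  rw [happ, LinearEquiv.symm_apply_apply, hx0, map_zero] at h5
  exact h5.symm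

end main

end Pool.Agent.V7H12.TT
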