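import Pool.Agent.V7H12.TT.Base
import Pool.Agent.V7H12.TT.Betti
import Pool.Agent.V7H12.TT.Sub

/-!
# The Mumford-Tate conjecture for hyperkähler varieties
-/

set_option autoImplicit false
set_option linter.all false

namespace Pool.Agent.V7H12.TT

open Module Module.End TensorProduct NumberField IsDedekindDomain
open Pool.Agent.N184.HK Pool.Agent.W401.Cheb
open scoped Classical

section tate

variable {K : Type} [Field K] [NumberField K] {Ω : Type} [Field Ω] [CharZero Ω] [IsAlgClosed Ω]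
  [TopologicalSpace Ω] {κ : Type} (𝒳 : HKFamily K Ω κ)

lemma commute_fop_of_pow {E : Type} [AddCommGroup E] [Module Ω E] [FiniteDimensional Ω E] {φ e : Module.End Ω E}
    {W : Wt Ω} (hU : ∀ t ∈ φ.charpoly.roots, W.U t) (h1 : W.U 1) {k : ℕ} (hk : k ≠ 0)
    (h : Commute (φ ^ k) e) : Commute (fop φ W.k) e := by
  have h2 : fop (φ ^ k) W.k = (k : Ω) • fop φ W.k := by
    refine ext_gen φ fun t y hy => ?_
    by_cases hy0 : y = 0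
    · rw [hy0, map_zero, map_zero]
    have he : t ∈ φ.charpoly.roots := ne_bot_iff.1 fun h => hy0 (by
      rw [h, Submodule.mem_bot] at hy; exact hy)
    rw [fop_apply _ (pow_gen' hy k), LinearMap.smul_apply, fop_apply _ hy, smul_smul, Wt.k,
      (W.w_pow h1 (hU t he) k).2, Rat.cast_mul, Rat.cast_natCast]
    rfl
  have h3 : Commute (fop (φ ^ k) W.k) e := (fop_comm h.symm W.k).symm
  rw [h2] at h3
  have hk' : (k : Ω) ≠ 0 := by exact_mod_cast hk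
  have h4 := h3.smul_left ((k : Ω)⁻¹)
  rwa [smul_smul, inv_mul_cancel₀ hk', one_smul] at h4

/-- Endomorphisms which commute with an open subgroup commute with the Newton operators. -/
lemma comm_newton [Nonempty κ] (a : Word 𝒳.d) {V : Subgroup (GK K)}
    (hV : IsOpen (V : Set (GK K))) {e₀ : Module.End Ω (tens 𝒳.coh a).V}
    (hW : ∀ σ ∈ V, Commute (en (𝒳.Φ σ a)) e₀) :
    ∀ A, IsNewton 𝒳 A → Commute ((rho 𝒳.coh a) A) e₀ := by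
  intro A hA
  obtain ⟨v, hv, σ, hσ, j, w, h, rfl⟩ := (newton_iff 𝒳 A).1 hA
  obtain ⟨U, hU⟩ := ProfiniteGrp.exist_openNormalSubgroup_sub_open_nhds_of_one hV V.one_mem
  have hUo : IsOpen (U.toSubgroup : Set (GK K)) := U.isOpen'
  haveI : Finite (GK K ⧸ U.toSubgroup) := Subgroup.quotient_finite_of_isOpen _ hUo
  obtain ⟨k, hk0, hk⟩ : ∃ k : ℕ, k ≠ 0 ∧ σ ^ k ∈ V := by
    refine ⟨Nat.card (GK K ⧸ U.toSubgroup), Nat.card_pos.ne', hU ?_⟩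
    have h1 : ((σ : GK K ⧸ U.toSubgroup)) ^ Nat.card (GK K ⧸ U.toSubgroup) = 1 :=
      pow_card_eq_one'
    have h2 : ((σ ^ Nat.card (GK K ⧸ U.toSubgroup) : GK K) : GK K ⧸ U.toSubgroup) = 1 := h1
    exact (QuotientGroup.eq_one_iff _).1 h2
  have h1 := hW _ hk
  rw [act_pow] at h1
  have h2 : Commute (fop (en (𝒳.Φ σ a)) (WQ j w (val_mul 𝒳 h)).k) e₀ :=
    commute_fop_of_pow (U_tens (good_U 𝒳 hσ j h) a) ⟨1, one_ne_zero, map_one j⟩ hk0 h1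
  rw [good_tens 𝒳 hσ j h a] at h2
  have h3 : Commute ((((a.weight / 2 : ℚ) : Ω)) • (1 : Module.End Ω (tens 𝒳.coh a).V)) e₀ :=
    (Commute.one_left _).smul_left _
  have h4 := h2.sub_left h3
  rwa [add_sub_cancel_left] at h4

end tate

section lie

variable {K : Type} [Field K] {κ : Type} {d : κ → ℕ} {c : κ → ℚ}
  (X : ∀ k, Cohomology K (d k) (c k))

lemma lie_comm {S : Set (EndTwo X)} (hS : ∀ A ∈ S, SkewAll X A) (a : Word d)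
    (e₀ : Module.End K (tens X a).V) (h : ∀ A ∈ S, Commute ((rho X a) A) e₀) :
    ∀ A ∈ lieClosure (Two X) S, SkewAll X A ∧ Commute ((rho X a) A) e₀ := by
  intro A hA
  refine hA {A | SkewAll X A ∧ Commute (rho X a A) e₀} ⟨?_, ?_, ?_, ?_⟩
    fun A hA => ⟨hS A hA, h A hA⟩
  · exact ⟨skew_zero, by rw [rho_zero]; exact Commute.zero_left _⟩
  · rintro A ⟨hA, hA'⟩ B ⟨hB, hB'⟩
    exact ⟨skew_add hA hB, by rw [rho_add]; exact hA'.add_left hB'⟩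
  · rintro r A ⟨hA, hA'⟩
    exact ⟨skew_smul r hA, by rw [rho_smul]; exact hA'.smul_left _⟩
  · rintro A ⟨hA, hA'⟩ B ⟨hB, hB'⟩
    refine ⟨skew_bracket hA hB, ?_⟩
    rw [tens_bracket X a hA hB]
    exact (hA'.mul_left hB').sub_left (hB'.mul_left hA')

end lie

section main

variable {K : Type} [Field K] [NumberField K] {Ω : Type} [Field Ω] [CharZero Ω] [IsAlgClosed Ω]
  [TopologicalSpace Ω] [IsTopologicalRing Ω] [T2Space Ω] {κ : Type} (𝒳 : HKFamily K Ω κ)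

omit [IsAlgClosed Ω] [IsTopologicalRing Ω] [T2Space Ω] in
lemma gen_of_tate {ν : GK K → Ω} {a : Word 𝒳.d} {m : ℕ} {x : (tens 𝒳.coh a).V}
    (h : IsTate 𝒳 ν a m x) : GenTate 𝒳 ν a m x := by
  obtain ⟨V, hV, hx⟩ := h
  refine ⟨V, hV, V.one_mem, fun σ hσ => ?_⟩
  change x ∈ (en (𝒳.Φ σ a)).maxGenEigenspace (ν σ ^ m)
  rw [Module.End.mem_maxGenEigenspace]
  refine ⟨1, ?_⟩
  rw [pow_one, LinearMap.sub_apply, LinearMap.smul_apply, Module.End.one_apply]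
  exact sub_eq_zero.2 (hx σ hσ)

/-- Generalized Tate classes are Tate classes. -/
theorem gen_iff {ℓ : ℕ} {ν : GK K → Ω} (hν : IsCyclotomic 𝒳 ν) (hL : LocalFacts 𝒳 ℓ ν)
    (a : Word 𝒳.d) (m : ℕ) (x : (tens 𝒳.coh a).V) :
    GenTate 𝒳 ν a m x ↔ IsTate 𝒳 ν a m x := by
  refine ⟨?_, gen_of_tate 𝒳⟩
  rintro ⟨O, hO, h1, hx⟩
  exact gen_fixed hL.classField (fun σ => 𝒳.Φ σ a) (fun σ τ => act_mul 𝒳 σ τ a)
    (cts_act 𝒳 a) ν (nu_inv 𝒳 hν) hν.one hν.mul (hL.sen a) m hO h1 hx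

/-- Endomorphisms which commute with an open subgroup. -/
theorem comm_iff [Nonempty κ] [Finite κ] {ℓ : ℕ} {ν : GK K → Ω} (hν : IsCyclotomic 𝒳 ν)
    (hL : LocalFacts 𝒳 ℓ ν) (a : Word 𝒳.d) (e₀ : Module.End Ω (tens 𝒳.coh a).V) :
    (∃ V : Subgroup (GK K), IsOpen (V : Set (GK K)) ∧ ∀ σ ∈ V, Commute (en (𝒳.Φ σ a)) e₀) ↔
      ∀ A ∈ newtonLie 𝒳, Commute ((rho 𝒳.coh a) A) e₀ := by
  constructor
  · rintro ⟨V, hV, h⟩ A hA
    exact (lie_comm 𝒳.coh (fun A hA => newton_skew 𝒳 hA) a e₀ (comm_newton 𝒳 a hV h) A hA).2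
  · intro h
    exact comm_open 𝒳 hL.classField hν a (hL.senEnd a) fun A hA => h A (subset_lie 𝒳.coh hA)

variable {𝒳} (𝒴 : BettiFamily 𝒳)

omit [IsAlgClosed Ω] [IsTopologicalRing Ω] [T2Space Ω] in
lemma ext_stable (a : Word 𝒳.d) (W : Submodule Ω (tens 𝒳.coh a).V)
    (h : ∀ A ∈ hodgeLie 𝒴, ∀ A', Corr 𝒴 A A' → ∀ x ∈ W, rho 𝒳.coh a A' x ∈ W) :
    ∀ A ∈ hodgeExt 𝒴, ∀ x ∈ W, rho 𝒳.coh a A x ∈ W := fun A hA =>
  (lie_stable 𝒳.coh (S := {A' | ∃ A ∈ hodgeLie 𝒴, Corr 𝒴 A A'})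
    (by
      rintro A' ⟨B, hB, hBA⟩
      exact corr_skew 𝒴 hBA (hodge_skew 𝒴 hB)) a W (by
      rintro A' ⟨B, hB, hBA⟩
      exact h B hB A' hBA) A hA).2

/-- The Newton Lie algebra acts semisimply. -/
theorem newton_ss (hMT : MumfordTateTwo 𝒴) (hpol : Polarizable 𝒴) (a : Word 𝒳.d)
    (W : Submodule Ω (tens 𝒳.coh a).V)
    (hW : ∀ A ∈ newtonLie 𝒳, ∀ x ∈ W, (rho 𝒳.coh a) A x ∈ W) :
    ∃ W', IsCompl W W' ∧ ∀ A ∈ newtonLie 𝒳, ∀ x ∈ W', (rho 𝒳.coh a) A x ∈ W' := by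
  obtain ⟨ι, _, b, b', hb⟩ := compT_base 𝒴 a
  let S : Set (Module.End ℚ (tens 𝒴.B a).V × Module.End Ω (tens 𝒳.coh a).V) :=
    {R | ∃ A ∈ hodgeLie 𝒴, ∃ A', Corr 𝒴 A A' ∧ R = ((rho 𝒴.B a) A, (rho 𝒳.coh a) A')}
  have hS : ∀ R ∈ S, ∀ x, compT 𝒴 a (R.1 x) = R.2 (compT 𝒴 a x) := by
    rintro _ ⟨A, hA, A', hAA, rfl⟩ x
    exact compT_equi 𝒴 hAA (hodge_skew 𝒴 hA) a x
  have hss : SS (Prod.fst '' S) := by
    intro U hU
    have hU' : IsSubHodge 𝒴 a U := by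
      intro l x hx
      obtain ⟨A', hAA⟩ := exists_corr 𝒴 (𝒴.Jc l)
      exact hU _ ⟨_, ⟨_, subset_lie 𝒴.B ⟨l, rfl⟩, A', hAA, rfl⟩, rfl⟩ x hx
    obtain ⟨U', hc, h'⟩ := hpol a U hU'
    refine ⟨U', hc, ?_⟩
    rintro _ ⟨_, ⟨A, hA, A', hAA, rfl⟩, rfl⟩ x hx
    refine (lie_stable 𝒴.B (S := Set.range 𝒴.Jc) ?_ a U' ?_ A hA).2 x hx
    · rintro _ ⟨l, rfl⟩
      exact fun k => (𝒴.hodge k).skew l
    · rintro _ ⟨l, rfl⟩
      exact h' l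
  obtain ⟨W', hc, hW'⟩ := base_ss b b' (compT 𝒴 a) hb S hS hss W (by
    rintro _ ⟨_, ⟨A, hA, A', hAA, rfl⟩, rfl⟩ x hx
    refine hW A' ?_ x hx
    rw [show newtonLie 𝒳 = _ from hMT]
    exact subset_lie 𝒳.coh ⟨A, hA, hAA⟩)
  refine ⟨W', hc, ?_⟩
  rw [show newtonLie 𝒳 = _ from hMT]
  refine ext_stable 𝒴 a W' fun A hA A' hAA x hx => ?_
  exact hW' _ ⟨_, ⟨A, hA, A', hAA, rfl⟩, rfl⟩ x hx

/-- **Semisimplicity of the Galois representations.** -/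
theorem galois_ss [Nonempty κ] [Finite κ] {ℓ : ℕ} {ν : GK K → Ω} (hν : IsCyclotomic 𝒳 ν)
    (hL : LocalFacts 𝒳 ℓ ν) (hMT : MumfordTateTwo 𝒴) (hpol : Polarizable 𝒴) (a : Word 𝒳.d)
    {V : Subgroup (GK K)} (hV : IsOpen (V : Set (GK K))) {W : Submodule Ω (tens 𝒳.coh a).V}
    (hW : ∀ σ ∈ V, ∀ x ∈ W, 𝒳.Φ σ a x ∈ W) :
    ∃ W', IsCompl W W' ∧ ∀ σ ∈ V, ∀ x ∈ W', 𝒳.Φ σ a x ∈ W' :=
  semisimple 𝒳 hL.classField hν a (hL.senEnd a) (newton_ss 𝒴 hMT hpol a) hV hW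

/-- **The Mumford-Tate conjecture**: the subspaces of tensor spaces which are stable under an open
subgroup of the Galois group are those which are stable under the Lie algebra of the Hodge group. -/
theorem stable_iff [Nonempty κ] [Finite κ] {ℓ : ℕ} {ν : GK K → Ω} (hν : IsCyclotomic 𝒳 ν)
    (hL : LocalFacts 𝒳 ℓ ν) (hMT : MumfordTateTwo 𝒴) (hpol : Polarizable 𝒴) (a : Word 𝒳.d)
    (W : Submodule Ω (tens 𝒳.coh a).V) :
    (∃ V : Subgroup (GK K), IsOpen (V : Set (GK K)) ∧ ∀ σ ∈ V, ∀ x ∈ W, 𝒳.Φ σ a x ∈ W) ↔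
      ∀ A ∈ hodgeExt 𝒴, ∀ x ∈ W, rho 𝒳.coh a A x ∈ W := by
  rw [← show newtonLie 𝒳 = _ from hMT]
  constructor
  · rintro ⟨V, hV, h⟩
    exact stable_newton 𝒳 a hV h
  · intro h
    obtain ⟨W', hc, hW'⟩ := newton_ss 𝒴 hMT hpol a W h
    obtain ⟨V, hV, hV'⟩ := (decomposition 𝒳 hL.classField hν a (hL.senEnd a) hc).2
      fun A hA => ⟨h A hA, hW' A hA⟩
    exact ⟨V, hV, fun σ hσ => (hV' σ hσ).1⟩

end main

end Pool.Agent.V7H12.TT
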