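import Pool.Agent.V7H12.TT.Eig
import Pool.Agent.N184.HK.W4

/-!
# Frobenius eigenvalues with the same valuations
-/

set_option autoImplicit false
set_option linter.all false

namespace Pool.Agent.V7H12.TT

open Module Module.End TensorProduct Polynomial NumberField IsDedekindDomain
open Pool.Agent.N184.HK Pool.Agent.W401.Cheb
open scoped Classical

lemma AlgP.conj {p w B : ℕ} {z : QQ} (hz : z ≠ 0) (h : AlgP p w B z) :
    IsIntegral ℤ ((p : QQ) ^ w / z) := by
  obtain ⟨h1, h2, -⟩ := h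
  obtain ⟨τ⟩ : Nonempty (QQ →+* ℂ) := ⟨(IsAlgClosed.lift : QQ →ₐ[ℚ] ℂ).toRingHom⟩
  have h3 : τ ((p : QQ) ^ w / z) = (starRingEnd ℂ) (τ z) := by
    rw [map_div₀, map_pow, map_natCast, div_eq_iff ((map_ne_zero τ).2 hz), mul_comm,
      Complex.mul_conj, Complex.normSq_eq_norm_sq, h1]
    push_cast
    rfl
  have h4 : IsIntegral ℤ ((starRingEnd ℂ) (τ z)) :=
    (h2.map (τ.toIntAlgHom)).map (starRingEnd ℂ).toIntAlgHom
  rw [← h3] at h4
  exact (isIntegral_algHom_iff τ.toIntAlgHom τ.injective).1 h4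

section tens

variable {K : Type} [Field K] [NumberField K] {Ω : Type} [Field Ω] [CharZero Ω] [IsAlgClosed Ω]
  [TopologicalSpace Ω] {κ : Type} (𝒳 : HKFamily K Ω κ)
  {v : HeightOneSpectrum (𝓞 K)} {σ : GK K} (hσ : IsFrob v σ⁻¹) (j : QQ →+* Ω)

/-- The exponent. -/
noncomputable def ex2 (a : Word 𝒳.d) : ℕ :=
  (2 * (finrank Ω (tens 𝒳.coh a).V * finrank Ω (tens 𝒳.coh a).V)).factorial

include hσ in
/-- Eigenvalues with the same valuations. -/
lemma ratio_root [Nonempty κ] (hv : GoodFor 𝒳 v) (a : Word 𝒳.d)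
    {e f : Ω} (he : e ∈ (en (𝒳.Φ σ a)).charpoly.roots)
    (hf : f ∈ (en (𝒳.Φ σ a)).charpoly.roots)
    (hw : ∀ (w : QQ → ℚ) (h : IsVal 𝒳 v hv w), (WQ j w (val_mul 𝒳 h)).w e =
      (WQ j w (val_mul 𝒳 h)).w f) :
    e ^ ex2 𝒳 a = f ^ ex2 𝒳 a := by
  have hp := hv.2
  obtain ⟨y, hy0, rfl, hy⟩ := alg_tens 𝒳 hσ j hv a e he
  obtain ⟨z, hz0, rfl, hz⟩ := alg_tens 𝒳 hσ j hv a f hf
  have hzc := hz.conj hz0
  obtain ⟨h1, h2, E, h3, h4, h5⟩ := hy
  obtain ⟨h1', h2', E', h3', h4', h5'⟩ := hz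
  obtain ⟨k⟩ := ‹Nonempty κ›
  have hp0 : (Ideal.absNorm v.asIdeal : QQ) ≠ 0 := by exact_mod_cast hp.ne_zero
  have hpR : (0 : ℝ) < Ideal.absNorm v.asIdeal := by exact_mod_cast hp.pos
  have hval : 0 < ((𝒳.X k).crys v (hv.1 k) hp).val
      ((Ideal.absNorm v.asIdeal : ℕ) : ((𝒳.X k).crys v (hv.1 k) hp).C) := by
    rw [((𝒳.X k).crys v (hv.1 k) hp).norm]
    exact zero_lt_one
  have hθ : (y / z) ^ ex2 𝒳 a = 1 := by
    refine t_root QQ ((𝒳.X k).crys v (hv.1 k) hp).C (Ideal.absNorm v.asIdeal) hp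
      ((𝒳.X k).crys v (hv.1 k) hp).val hval _ ?_ ⟨a.weight, ?_⟩ ?_ _ ?_
    · intro τ
      have h6 : ‖τ (y / z)‖ ^ 2 = 1 := by
        rw [map_div₀, norm_div, div_pow, h1, h1', div_self]
        positivity
      exact (pow_eq_one_iff_of_nonneg (norm_nonneg _) two_ne_zero).mp h6
    · have h6 : (Ideal.absNorm v.asIdeal : QQ) ^ a.weight * (y / z) =
          y * ((Ideal.absNorm v.asIdeal : QQ) ^ a.weight / z) := by
        field_simp
      rw [h6]
      exact h2.mul hzc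
    · intro ι
      have h0 := hw _ (exists_val 𝒳 hv k ι)
      rw [WQ_eq j ι ((𝒳.X k).crys v (hv.1 k) hp).val _ _ (fun y => rfl)] at h0
      set W := WI j ι ((𝒳.X k).crys v (hv.1 k) hp).val with hW
      have hU1 : W.U 1 := ⟨1, one_ne_zero, map_one j⟩
      have hUy : W.U (j y) := ⟨y, hy0, rfl⟩
      have hUz : W.U (j z) := ⟨z, hz0, rfl⟩
      have h7 := W.w_div hU1 hUy hUz
      have h8 : W.w (j y / j z) = 0 := by
        rw [h7.2, h0, sub_self]
      rw [← map_div₀, hW, WI_w] at h8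
      by_cases h0 : ι (y / z) = 0
      · rw [h0, AddValuation.map_zero]
        exact le_top
      · rw [← val_untop _ h0, h8]
        exact le_rfl
    · have hθ : y / z ∈ E ⊔ E' := div_mem (SetLike.le_def.mp le_sup_left h5)
        (SetLike.le_def.mp le_sup_right h5')
      have e' := IntermediateField.minpoly_eq (K := ℚ) (S := E ⊔ E') (⟨_, hθ⟩ : (E ⊔ E' : IntermediateField ℚ QQ))
      have h6 : (minpoly ℚ (y / z)).natDegree ≤
          finrank ℚ (E ⊔ E' : IntermediateField ℚ QQ) := by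
        have e'' : minpoly ℚ (y / z) = _ := e'.symm
        rw [e'']
        exact minpoly.natDegree_le _
      exact (h6.trans (IntermediateField.finrank_sup_le _ _)).trans (Nat.mul_le_mul h4 h4')
  have h10 := congrArg j hθ
  rw [map_pow, map_div₀, map_one, div_pow, div_eq_one_iff_eq] at h10
  · exact h10
  · exact pow_ne_zero _ ((map_ne_zero j).2 hz0)

end tens

end Pool.Agent.V7H12.TT
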