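import Pool.Agent.N184.HK.P_SL2B
import Pool.Agent.N184.HK.Eig
import Pool.Agent.N184.HK.W1

/-!
# The semisimple element of an `sl₂`-triple acts semisimply
-/

set_option autoImplicit false

namespace Pool.Agent.V7H12.TT

open Module Module.End Pool.Agent.N184.HK Pool.Agent.N184.HK.P_SL2B
open scoped Classical

section

variable {K H : Type} [Field K] [CharZero K] [IsAlgClosed K] [AddCommGroup H] [Module K H]
  [FiniteDimensional K H]

/-- The nilpotent part. -/
noncomputable def nilp (D : Module.End K H) : Module.End K H := D - fop D (fun e => e)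

omit [CharZero K] in
lemma nilp_apply {D : Module.End K H} {e : K} {x : H} (hx : x ∈ D.maxGenEigenspace e) :
    nilp D x = D x - e • x := by
  rw [nilp, LinearMap.sub_apply, fop_apply _ hx]

omit [CharZero K] in
lemma nilp_mem {D : Module.End K H} {e : K} {x : H} (hx : x ∈ D.maxGenEigenspace e) :
    nilp D x ∈ D.maxGenEigenspace e := by
  rw [nilp_apply hx]
  exact Submodule.sub_mem _ (D.mapsTo_maxGenEigenspace_of_comm (Commute.refl D) e hx)
    (Submodule.smul_mem _ _ hx)

lemma nilp_comm {D A : Module.End K H} {c : K} (h : D * A - A * D = c • A) :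
    nilp D * A = A * nilp D := by
  refine ext_gen D fun e x hx => ?_
  have h1 := P_SL2B.maps (n := 1) h hx
  rw [pow_one, Nat.cast_one, one_mul] at h1
  rw [Module.End.mul_apply, Module.End.mul_apply, nilp_apply h1, nilp_apply hx, map_sub, map_smul]
  have h2 := LinearMap.congr_fun h x
  rw [LinearMap.sub_apply, Module.End.mul_apply, Module.End.mul_apply, LinearMap.smul_apply] at h2
  rw [add_smul, ← h2]
  abel

variable {X D N : Module.End K H} (h : Tr X D N)

include h in
omit [IsAlgClosed K] [FiniteDimensional K H] in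
lemma xn_pow (n : ℕ) (x : H) (hx : X x = 0) :
    X ((N ^ (n + 1)) x) = ((n : K) + 1) • (N ^ n) (D x - (n : K) • x) := by
  have hXN : ∀ v, X (N v) = N (X v) + D v := by
    intro v
    have := LinearMap.congr_fun h.xn v
    rw [LinearMap.sub_apply, Module.End.mul_apply, Module.End.mul_apply] at this
    rw [← this]; abel
  induction n with
  | zero => simp [hXN, hx]
  | succ n ih =>
    have h1 := LinearMap.congr_fun (pow_comm' h.dn (n + 1)) x
    rw [Module.End.mul_apply, LinearMap.add_apply, Module.End.mul_apply,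
      LinearMap.smul_apply] at h1
    rw [pow_succ' N (n + 1), Module.End.mul_apply, hXN, ih, map_smul, ← Module.End.mul_apply,
      ← pow_succ', h1, map_sub, map_sub, map_smul, map_smul]
    push_cast
    module

include h in
omit [IsAlgClosed K] [FiniteDimensional K H] in
lemma xn_zero (n : ℕ) : ∀ x : H, X x = 0 → (X ^ (n + 1)) ((N ^ n) x) = 0 := by
  induction n with
  | zero => intro x hx; simpa using hx
  | succ n ih =>
    intro x hx
    rw [pow_succ X (n + 1), Module.End.mul_apply, xn_pow h n x hx, map_smul, ih, smul_zero]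
    have h1 := LinearMap.congr_fun h.dx x
    rw [LinearMap.sub_apply, Module.End.mul_apply, Module.End.mul_apply, LinearMap.smul_apply, hx,
      map_zero, smul_zero, zero_sub, neg_eq_zero] at h1
    rw [map_sub, map_smul, hx, h1, smul_zero, sub_zero]

include h in
lemma top_nilp {e : K} {x : H} (hx : x ∈ D.maxGenEigenspace e) (hX : X x = 0) :
    nilp D x = 0 ∧ (x ≠ 0 → ∃ k : ℕ, e = k) := by
  by_cases hx0 : x = 0
  · rw [hx0]; simp
  have hXD : ∀ y, X y = 0 → X (D y) = 0 := by
    intro y hy
    have h1 := LinearMap.congr_fun h.dx y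
    rw [LinearMap.sub_apply, Module.End.mul_apply, Module.End.mul_apply, LinearMap.smul_apply, hy,
      map_zero, smul_zero, zero_sub, neg_eq_zero] at h1
    exact h1
  have hk : ∃ k : ℕ, e = k := by
    obtain ⟨m, hm⟩ := (mem_maxGenEigenspace _ _ _).1 hx
    obtain ⟨i, h2, h3⟩ : ∃ i : ℕ, ((D - e • (1 : Module.End K H)) ^ i) x ≠ 0 ∧
        ((D - e • (1 : Module.End K H)) ^ (i + 1)) x = 0 := by
      refine Nat.exists_not_and_succ_of_not_zero_of_exists (p := fun i : ℕ =>
        ((D - e • (1 : Module.End K H)) ^ i) x = 0) ?_ ⟨m, hm⟩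
      simpa using hx0
    have h4 : ∀ i : ℕ, X (((D - e • (1 : Module.End K H)) ^ i) x) = 0 := by
      intro i
      induction i with
      | zero => simpa using hX
      | succ i ih =>
        rw [pow_succ', Module.End.mul_apply, LinearMap.sub_apply, map_sub, hXD _ ih,
          LinearMap.smul_apply, Module.End.one_apply, map_smul, ih, smul_zero, sub_zero]
    refine highest h (h4 i) ?_ h2
    rw [pow_succ', Module.End.mul_apply, LinearMap.sub_apply, LinearMap.smul_apply,
        Module.End.one_apply, sub_eq_zero] at h3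
    exact h3
  refine ⟨?_, fun _ => hk⟩
  obtain ⟨k, rfl⟩ := hk
  have h1 : (N ^ (k + 1)) x = 0 := by
    have h2 := P_SL2B.maps (n := k + 1) h.dn hx
    have e1 : (k : K) + ((k + 1 : ℕ) : K) * (-2) = -((k + 2 : ℕ) : K) := by push_cast; ring
    rw [e1] at h2
    refine P_SL2B.inj h.symm (k + 2) _ ?_ ?_
    · rw [neg_gen]
      exact h2
    · exact xn_zero h (k + 1) x hX
  have h2 := xn_pow h k x hX
  rw [h1, map_zero] at h2
  have h3 := (smul_eq_zero.1 h2.symm).resolve_left (Nat.cast_add_one_ne_zero k)
  rw [nilp_apply hx]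
  refine P_SL2B.inj h k _ ?_ h3
  have := nilp_mem hx
  rwa [nilp_apply hx] at this

include h in
/-- In a representation of `sl₂` the semisimple element of the triple is semisimple. -/
theorem sl2_nilp : nilp D = 0 := by
  have hnX := nilp_comm h.dx
  have key : ∀ e : K, (∀ x ∈ D.maxGenEigenspace (e + 2), nilp D x = 0) →
      ∀ x ∈ D.maxGenEigenspace e, nilp D x = 0 := by
    intro e he x hx
    by_contra hne
    have hXx : X x ∈ D.maxGenEigenspace (e + 2) := by
      have h1 := P_SL2B.maps (n := 1) h.dx hx
      rwa [pow_one, Nat.cast_one, one_mul] at h1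
    have h1 : X (nilp D x) = 0 := by
      have h2 := LinearMap.congr_fun hnX x
      rw [Module.End.mul_apply, Module.End.mul_apply] at h2
      rw [← h2]
      exact he _ hXx
    obtain ⟨k, rfl⟩ := (top_nilp h (nilp_mem hx) h1).2 hne
    have e1 : (k : K) + 2 = ((k + 2 : ℕ) : K) := by push_cast; ring
    rw [e1] at hXx he
    have hs : Tr N (-D) X := h.symm
    obtain ⟨-, hbij⟩ := t_sl2b K H N (-D) X hs.dx hs.dn hs.xn
    have hb := (hbij (k + 2)).surjOn
    rw [neg_gen, neg_gen, neg_neg] at hb
    obtain ⟨z, hz, hzx⟩ := hb hXx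
    have hz' : z ∈ D.maxGenEigenspace (-((k + 2 : ℕ) : K)) := hz
    have hnXk : ∀ (j : ℕ) (y : H), nilp D ((X ^ j) y) = (X ^ j) (nilp D y) := by
      intro j y
      have : Commute (nilp D) (X ^ j) := Commute.pow_right hnX j
      exact LinearMap.congr_fun this.eq y
    have h3 : nilp D z = 0 := by
      refine P_SL2B.inj h.symm (k + 2) _ ?_ ?_
      · rw [neg_gen]
        exact nilp_mem hz'
      · rw [← hnXk, hzx]
        exact he _ hXx
    have h4 : (X ^ (k + 1)) z ∈ D.maxGenEigenspace (k : K) := by
      have h5 := P_SL2B.maps (n := k + 1) h.dx hz'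
      have e2 : -((k + 2 : ℕ) : K) + ((k + 1 : ℕ) : K) * 2 = k := by push_cast; ring
      rwa [e2] at h5
    have h5 : X (x - (X ^ (k + 1)) z) = 0 := by
      rw [map_sub, ← Module.End.mul_apply, ← pow_succ', hzx, sub_self]
    have h6 := (top_nilp h (Submodule.sub_mem _ hx h4) h5).1
    rw [map_sub, hnXk, h3, map_zero, sub_zero] at h6
    exact hne h6
  refine ext_gen D fun e x hx => ?_
  rw [LinearMap.zero_apply]
  have hfin := fin_ne D
  obtain ⟨n, hn⟩ : ∃ n : ℕ, D.maxGenEigenspace (e + n * 2) = ⊥ := by
    by_contra hcon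
    push Not at hcon
    refine hfin.not_infinite (Set.infinite_of_injective_forall_mem
      (f := fun n : ℕ => e + n * 2) ?_ fun n => hcon n)
    intro a b hab
    simp only [add_right_inj] at hab
    have := mul_right_cancel₀ two_ne_zero hab
    exact_mod_cast this
  have hdesc : ∀ j : ℕ, j ≤ n → ∀ x ∈ D.maxGenEigenspace (e + ((n - j : ℕ) : K) * 2),
      nilp D x = 0 := by
    intro j
    induction j with
    | zero =>
      intro _ x hx
      rw [Nat.sub_zero, hn, Submodule.mem_bot] at hx
      rw [hx, map_zero]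
    | succ j ih =>
      intro hj x hx
      refine key _ (fun y hy => ih (by omega) y ?_) x hx
      have e1 : e + ((n - (j + 1) : ℕ) : K) * 2 + 2 = e + ((n - j : ℕ) : K) * 2 := by
        have : n - j = (n - (j + 1)) + 1 := by omega
        rw [this]
        push_cast
        ring
      rwa [e1] at hy
  refine hdesc n le_rfl x ?_
  rw [Nat.sub_self, Nat.cast_zero, zero_mul, add_zero]
  exact hx

omit [CharZero K] in
/-- Operators given by the functional calculus are semisimple. -/
theorem fop_semisimple (φ : Module.End K H) (w : K → K) : (fop φ w).IsSemisimple := by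
  set s : Finset K := (fin_ne φ).toFinset.image w
  refine Module.End.isSemisimple_of_squarefree_aeval_eq_zero
    (p := ∏ c ∈ s, (Polynomial.X - Polynomial.C c)) ?_ ?_
  · refine Polynomial.Separable.squarefree ?_
    refine Polynomial.separable_prod' (fun a _ b _ hab => ?_) (fun a _ => ?_)
    · exact Polynomial.isCoprime_X_sub_C_of_isUnit_sub (sub_ne_zero.2 hab).isUnit
    · exact Polynomial.separable_X_sub_C
  · refine ext_gen φ fun e x hx => ?_
    rw [LinearMap.zero_apply]
    by_cases hx0 : x = 0
    · rw [hx0, map_zero]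
    have he : w e ∈ s := by
      refine Finset.mem_image_of_mem w ?_
      rw [Set.Finite.mem_toFinset]
      intro h0
      have hx' : x ∈ (⊥ : Submodule K H) := h0 ▸ hx
      exact hx0 ((Submodule.mem_bot K).1 hx')
    rw [← Finset.prod_erase_mul s _ he, map_mul, Module.End.mul_apply]
    have : (Polynomial.aeval (fop φ w)) (Polynomial.X - Polynomial.C (w e)) x = 0 := by
      rw [map_sub, Polynomial.aeval_X, Polynomial.aeval_C, LinearMap.sub_apply, fop_apply _ hx,
        Module.algebraMap_end_apply, sub_self]
    rw [this, map_zero]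

include h in
theorem sl2_semisimple : D.IsSemisimple := by
  have h1 := sl2_nilp h
  rw [nilp, sub_eq_zero] at h1
  rw [h1]
  exact fop_semisimple _ _

end

end Pool.Agent.V7H12.TT
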