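import Pool.Agent.V7H12.TT.SL
import Pool.Agent.N184.HK.Coh

/-!
# Representations of `so(V)`: elements which are diagonalizable with rational eigenvalues act
# semisimply
-/

set_option autoImplicit false
set_option linter.all false

namespace Pool.Agent.V7H12.TT

open Module Module.End Pool.Agent.N184.HK Pool.Agent.N184.HK.P_PERF Pool.Agent.N184.HK.P_SL2B
open scoped Classical

section

variable {K V W : Type} [Field K] [CharZero K] [AddCommGroup V] [Module K V]
  [FiniteDimensional K V] [AddCommGroup W] [Module K W]
  {q : LinearMap.BilinForm K V}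

omit [CharZero K] [FiniteDimensional K V] in
lemma nd_eq (hn : q.Nondegenerate) {u v : V} (h : ∀ t, q u t = q v t) : u = v := by
  rw [← sub_eq_zero]
  refine hn.1 (u - v) fun t => ?_
  rw [map_sub, LinearMap.sub_apply, h, sub_self]

/-- The orthogonal complement of a hyperbolic plane contains an anisotropic vector. -/
lemma exists_aniso (hs : ∀ x y, q x y = q y x) (hn : q.Nondegenerate) (h3 : 3 ≤ finrank K V)
    {x y : V} (hx : q x x = 0) (hy : q y y = 0) (hxy : q x y = 1) :
    ∃ z, q x z = 0 ∧ q y z = 0 ∧ q z z ≠ 0 := by
  by_contra hcon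
  push Not at hcon
  have h0 : ∀ z z', q x z = 0 → q y z = 0 → q x z' = 0 → q y z' = 0 → q z z' = 0 := by
    intro z z' h1 h2 h3 h4
    have h5 := hcon (z + z') (by rw [map_add, h1, h3, add_zero]) (by rw [map_add, h2, h4, add_zero])
    rw [map_add, map_add, LinearMap.add_apply, LinearMap.add_apply, hcon z h1 h2, hcon z' h3 h4,
      zero_add, add_zero, hs z' z, ← two_mul] at h5
    exact (mul_eq_zero.1 h5).resolve_left two_ne_zero
  have hdec : ∀ t : V, t = q y t • x + q x t • y := by
    intro t
    obtain ⟨z, hz⟩ : ∃ z, z = t - (q y t • x + q x t • y) := ⟨_, rfl⟩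
    have h1 : q x z = 0 := by
      rw [hz, map_sub, map_add, map_smul, map_smul, hx, hxy]; simp
    have h2 : q y z = 0 := by
      rw [hz, map_sub, map_add, map_smul, map_smul, hy, hs y x, hxy]; simp
    have h4 : z = 0 := by
      refine hn.1 z fun s => ?_
      have h5 : q z s = q z (s - (q y s • x + q x s • y)) := by
        rw [map_sub, map_add, map_smul, map_smul, hs z x, hs z y, h1, h2]; simp
      rw [h5]
      refine h0 z _ h1 h2 ?_ ?_
      · rw [map_sub, map_add, map_smul, map_smul, hx, hxy]; simp
      · rw [map_sub, map_add, map_smul, map_smul, hy, hs y x, hxy]; simp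
    rw [hz] at h4
    exact sub_eq_zero.1 h4
  have htop : Submodule.span K {x, y} = (⊤ : Submodule K V) := by
    rw [eq_top_iff]
    intro t _
    rw [hdec t]
    exact Submodule.add_mem _ (Submodule.smul_mem _ _ (Submodule.subset_span (by simp)))
      (Submodule.smul_mem _ _ (Submodule.subset_span (by simp)))
  have h4 : finrank K V ≤ 2 := by
    rw [← finrank_top K V, ← htop]
    refine (finrank_span_le_card _).trans ?_
    rw [Set.toFinset_insert, Set.toFinset_singleton]
    exact Finset.card_le_two
  omega

variable [IsAlgClosed K] [FiniteDimensional K W] {ρ : Act K V W}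

/-- The generator of a hyperbolic plane acts semisimply. -/
lemma hyp_semisimple (hρ : ρ.IsRep q) (hs : ∀ x y, q x y = q y x) (hn : q.Nondegenerate)
    (h3 : 3 ≤ finrank K V) {x y : V} (hx : q x x = 0) (hy : q y y = 0) (hxy : q x y = 1) :
    (ρ (E q y x)).IsSemisimple := by
  obtain ⟨z, hxz, hyz, hzz⟩ := exists_aniso hs hn h3 hx hy hxy
  set D : Module.End K V := (2 : K) • E q y x with hD
  set X : Module.End K V := E q z x with hX
  set N : Module.End K V := (2 * (q z z)⁻¹) • E q y z with hN
  have hyx : q y x = 1 := by rw [hs, hxy]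
  have hzx : q z x = 0 := by rw [hs, hxz]
  have hzy : q z y = 0 := by rw [hs, hyz]
  have hc : q z z * (q z z)⁻¹ = 1 := mul_inv_cancel₀ hzz
  have smul_skew : ∀ (c : K) {A : Module.End K V}, Skew q A → Skew q (c • A) := by
    intro c A hA u v
    rw [LinearMap.smul_apply, LinearMap.smul_apply, map_smul, map_smul, LinearMap.smul_apply,
      smul_eq_mul, smul_eq_mul, ← mul_add, hA u v, mul_zero]
  have sD : Skew q D := smul_skew _ (E_skew hs y x)
  have sX : Skew q X := E_skew hs z x
  have sN : Skew q N := smul_skew _ (E_skew hs y z)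
  have r1 : D * X - X * D = (2 : K) • X := by
    ext t
    rw [hD, hX]
    simp only [LinearMap.sub_apply, Module.End.mul_apply, LinearMap.smul_apply, E_apply, map_sub,
      map_smul, smul_eq_mul, hx, hy, hxy, hyx, hxz, hyz, hzx, hzy]
    module
  have r2 : D * N - N * D = -(2 : K) • N := by
    ext t
    rw [hD, hN]
    simp only [LinearMap.sub_apply, Module.End.mul_apply, LinearMap.smul_apply, E_apply, map_sub,
      map_smul, smul_eq_mul, hx, hy, hxy, hyx, hxz, hyz, hzx, hzy]
    module
  have r3 : X * N - N * X = D := by
    ext t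
    rw [hD, hN, hX]
    simp only [LinearMap.sub_apply, Module.End.mul_apply, LinearMap.smul_apply, E_apply, map_sub,
      map_smul, smul_eq_mul, hx, hy, hxy, hyx, hxz, hyz, hzx, hzy]
    match_scalars
    · field_simp
      ring
    · field_simp
      ring
    · field_simp
      ring
  have t : Tr (ρ X) (ρ D) (ρ N) := by
    refine ⟨?_, ?_, ?_⟩
    · rw [← hρ D X sD sX, r1, map_smul]
    · rw [← hρ D N sD sN, r2, map_smul]
    · rw [← hρ X N sX sN, r3]
  have h := sl2_semisimple t
  rw [hD, map_smul] at h
  exact (IsSemisimple_smul_iff two_ne_zero).1 h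

/-- An element of `so(V)` which is diagonalizable with rational eigenvalues acts semisimply. -/
theorem rho_semisimple (hρ : ρ.IsRep q) (hs : ∀ x y, q x y = q y x) (hn : q.Nondegenerate)
    (h3 : 3 ≤ finrank K V) {A : Module.End K V} (hA : Skew q A) {ι : Type} [Fintype ι]
    (b : Basis ι K V) (a : ι → ℚ) (hb : ∀ i, A (b i) = (a i : K) • b i) :
    (ρ A).IsSemisimple := by
  set b' := LinearMap.BilinForm.dualBasis q hn b with hb'
  have hdual : ∀ i j, q (b' i) (b j) = if j = i then 1 else 0 := fun i j =>
    LinearMap.BilinForm.apply_dualBasis_left hn b i j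
  have hbas : ∀ u v : V, (∀ j, q u (b j) = q v (b j)) → u = v := by
    intro u v h
    refine nd_eq hn fun t => ?_
    have : q u = q v := b.ext h
    rw [this]
  have hA' : ∀ i, A (b' i) = -(a i : K) • b' i := by
    intro i
    refine hbas _ _ fun j => ?_
    have h1 := hA (b' i) (b j)
    rw [hb, map_smul, hdual] at h1
    rw [map_smul, LinearMap.smul_apply, hdual]
    by_cases hij : j = i
    · subst hij
      simp only [if_true, smul_eq_mul, mul_one] at h1 ⊢
      exact eq_neg_of_add_eq_zero_left h1
    · simp only [if_neg hij, smul_eq_mul, mul_zero, add_zero] at h1 ⊢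
      exact h1
  -- orthogonality
  have hq0 : ∀ i j, a i + a j ≠ 0 → q (b i) (b j) = 0 := by
    intro i j hij
    have h1 := hA (b i) (b j)
    rw [hb, hb, map_smul, map_smul, LinearMap.smul_apply, smul_eq_mul, smul_eq_mul, ← add_mul,
      ← Rat.cast_add] at h1
    exact (mul_eq_zero.1 h1).resolve_left (by exact_mod_cast hij)
  have hq0' : ∀ i j, a i + a j ≠ 0 → q (b' i) (b' j) = 0 := by
    intro i j hij
    have h1 := hA (b' i) (b' j)
    rw [hA', hA', map_smul, map_smul, LinearMap.smul_apply, smul_eq_mul, smul_eq_mul, ← add_mul,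
      ← neg_add, ← Rat.cast_add] at h1
    exact (mul_eq_zero.1 h1).resolve_left (by
      rw [neg_eq_zero]
      exact_mod_cast hij)
  set s : Finset ι := Finset.univ.filter fun i => 0 < a i with hsdef
  have hms : ∀ i, i ∈ s ↔ 0 < a i := fun i => by simp [hsdef]
  have hrec : ∀ t : V, ∑ i, q (b i) t • b' i = t := by
    intro t
    refine hbas _ _ fun j => ?_
    rw [map_sum, LinearMap.sum_apply, Finset.sum_eq_single j]
    · rw [map_smul, LinearMap.smul_apply, hdual, if_pos rfl, smul_eq_mul, mul_one, hs]
    · intro i _ hij
      rw [map_smul, LinearMap.smul_apply, hdual, if_neg (Ne.symm hij), smul_zero]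
    · intro h
      exact absurd (Finset.mem_univ j) h
  have hdec : A = ∑ i ∈ s, (a i : K) • E q (b' i) (b i) := by
    refine b.ext fun j => ?_
    rw [LinearMap.sum_apply]
    simp only [LinearMap.smul_apply, E_apply, hdual, smul_sub]
    rw [Finset.sum_sub_distrib, hb]
    have e1 : ∑ i ∈ s, (a i : K) • ((if j = i then (1 : K) else 0) • b i) =
        if 0 < a j then (a j : K) • b j else 0 := by
      by_cases hj : 0 < a j
      · rw [if_pos hj, Finset.sum_eq_single j]
        · rw [if_pos rfl, one_smul]
        · intro i _ hij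
          rw [if_neg (Ne.symm hij), zero_smul, smul_zero]
        · intro h
          exact absurd ((hms j).2 hj) h
      · rw [if_neg hj]
        refine Finset.sum_eq_zero fun i hi => ?_
        have : j ≠ i := fun h => hj (h ▸ (hms i).1 hi)
        rw [if_neg this, zero_smul, smul_zero]
    have e2 : ∑ i ∈ s, (a i : K) • (q (b i) (b j) • b' i) =
        if a j < 0 then -(a j : K) • b j else 0 := by
      by_cases hj : a j < 0
      · rw [if_pos hj]
        conv_rhs => rw [← hrec (b j), Finset.smul_sum]
        rw [← Finset.sum_subset (Finset.subset_univ s)]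
        · refine Finset.sum_congr rfl fun i _ => ?_
          by_cases h0 : a i + a j = 0
          · have : a i = - a j := by linarith
            rw [this, Rat.cast_neg]
          · rw [hq0 i j h0, zero_smul, smul_zero, smul_zero]
        · intro i _ hi
          have h1 : ¬ 0 < a i := fun h => hi ((hms i).2 h)
          have h0 : a i + a j ≠ 0 := by
            intro h
            apply h1
            linarith
          rw [hq0 i j h0, zero_smul, smul_zero]
      · rw [if_neg hj]
        refine Finset.sum_eq_zero fun i hi => ?_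
        have h1 := (hms i).1 hi
        have h0 : a i + a j ≠ 0 := by
          intro h
          apply hj
          linarith
        rw [hq0 i j h0, zero_smul, smul_zero]
    rw [e1, e2]
    rcases lt_trichotomy (a j) 0 with h | h | h
    · rw [if_neg (not_lt.2 h.le), if_pos h, zero_sub, neg_smul, neg_neg]
    · rw [h, if_neg (lt_irrefl _), if_neg (lt_irrefl _), Rat.cast_zero, zero_smul, sub_zero]
    · rw [if_pos h, if_neg (not_lt.2 h.le), sub_zero]
  have hE0 : ∀ i ∈ s, ∀ j ∈ s, i ≠ j → E q (b' i) (b i) * E q (b' j) (b j) = 0 := by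
    intro i hi j hj hij
    have h1 := (hms i).1 hi
    have h2 := (hms j).1 hj
    have h0 : a i + a j ≠ 0 := by linarith
    ext t
    simp only [Module.End.mul_apply, E_apply, map_sub, map_smul, hdual, if_neg (Ne.symm hij),
      hq0 i j h0, hq0' i j h0, hs (b i) (b' j), if_neg hij]
    simp
  have hcomm : ∀ i ∈ s, ∀ j ∈ s, Commute (ρ (E q (b' i) (b i))) (ρ (E q (b' j) (b j))) := by
    intro i hi j hj
    by_cases hij : i = j
    · subst hij
      exact Commute.refl _
    have h1 := hρ _ _ (E_skew hs (b' i) (b i)) (E_skew hs (b' j) (b j))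
    rw [hE0 i hi j hj hij, hE0 j hj i hi (Ne.symm hij), sub_self, map_zero] at h1
    exact (sub_eq_zero.1 h1.symm)
  have key : ∀ u : Finset ι, u ⊆ s →
      (∑ i ∈ u, (a i : K) • ρ (E q (b' i) (b i))).IsSemisimple := by
    intro u
    induction u using Finset.induction_on with
    | empty => intro _; simp
    | insert i u hi ih =>
      intro hu
      rw [Finset.sum_insert hi]
      have his : i ∈ s := hu (Finset.mem_insert_self i u)
      have hpos := (hms i).1 his
      have h2 : (ρ (E q (b' i) (b i))).IsSemisimple := by
        refine hyp_semisimple hρ hs hn h3 ?_ ?_ ?_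
        · exact hq0 i i (by linarith)
        · exact hq0' i i (by linarith)
        · rw [hs, hdual, if_pos rfl]
      refine IsSemisimple.add_of_commute ?_ (IsSemisimple_smul _ h2)
        (ih ((Finset.subset_insert i u).trans hu))
      refine Commute.smul_left ?_ _
      refine Commute.sum_right _ _ _ fun j hj => ?_
      exact (hcomm i his j (hu (Finset.mem_insert_of_mem hj))).smul_right _
  rw [hdec, map_sum]
  simp only [map_smul]
  exact key s (Finset.Subset.refl s)

end

end Pool.Agent.V7H12.TT
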